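import Pool.Agent.Y95.Q.Defs

/-!
# Hassett's condition (**), one prime at a time
-/

set_option autoImplicit false

namespace Pool.Agent.N801.CF

open Pool.Agent.Y95.Q

/-- The number `d` satisfies Hassett's condition (**) at the prime `p`: `d / 2` is locally at `p` a
value `a ^ 2 + a b + b ^ 2` with `a` and `b` not both divisible by `p` (no condition for `p ≡ 1`
modulo `3`). -/
def AdmissibleAt (p : ℕ) (d : ℤ) : Prop :=
  (p = 2 → ¬ 4 ∣ d) ∧ (p = 3 → ¬ 3 ∣ d ∨ d % 18 = 6) ∧ (p ≠ 2 → p % 3 = 2 → ¬ (p : ℤ) ∣ d)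

/-- The known rational divisors (Bolognesi, Russo and Staglianò): the cubic fourfolds in the
Hassett divisors `C_14`, `C_26`, `C_38` and `C_42` are rational. -/
def KnownRational {X : CubicFourfold} (H : H4 X) : Prop :=
  ∀ v, H.IsHodge v → H.Saturated v →
    (H.disc v = 14 ∨ H.disc v = 26 ∨ H.disc v = 38 ∨ H.disc v = 42) → X.IsRational

end Pool.Agent.N801.CF
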