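import Mathlib

/-!
# Arithmetic lemmas: the norm form `a² + ab + b²`, Dirichlet's theorem, and congruences
-/

set_option autoImplicit false

namespace Pool.Agent.N801.CF

/-- the norm form -/
def nm (a b : ℤ) : ℤ := a ^ 2 + a * b + b ^ 2

/-- the polar form of `nm` -/
def tr (a b c d : ℤ) : ℤ := 2 * a * c + a * d + b * c + 2 * b * d

theorem nm_nonneg (a b : ℤ) : 0 ≤ nm a b := by
  unfold nm
  nlinarith [sq_nonneg (a + b), sq_nonneg a, sq_nonneg b]

theorem nm_eq_zero {a b : ℤ} (h : nm a b = 0) : a = 0 ∧ b = 0 := by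
  unfold nm at h
  constructor
  · have : a ^ 2 ≤ 0 := by nlinarith [sq_nonneg (a + 2 * b)]
    exact pow_eq_zero_iff (two_ne_zero) |>.1 (le_antisymm this (sq_nonneg a))
  · have : b ^ 2 ≤ 0 := by nlinarith [sq_nonneg (2 * a + b)]
    exact pow_eq_zero_iff (two_ne_zero) |>.1 (le_antisymm this (sq_nonneg b))

theorem nm_pos {a b : ℤ} (h : ¬ (a = 0 ∧ b = 0)) : 0 < nm a b :=
  lt_of_le_of_ne (nm_nonneg a b) fun h0 => h (nm_eq_zero h0.symm)

/-- primes congruent to `2` modulo `3` are inert -/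
theorem inert {p : ℕ} (hp : p.Prime) (h3 : p % 3 = 2) {a b : ℤ} (h : (p : ℤ) ∣ nm a b) :
    (p : ℤ) ∣ a ∧ (p : ℤ) ∣ b := by
  have : Fact p.Prime := ⟨hp⟩
  have key : ∀ x y : ZMod p, x ^ 2 + x * y + y ^ 2 = 0 → y = 0 := by
    intro x y hxy
    by_contra hy
    have h1 : (x / y) ^ 2 + (x / y) + 1 = 0 := by
      field_simp
      linear_combination hxy
    have h2 : (x / y) ^ 3 = 1 := by linear_combination (x / y - 1) * h1
    have h6 : x / y ≠ 1 := by
      intro h7
      rw [h7] at h1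
      have h8 : ((3 : ℕ) : ZMod p) = 0 := by
        push_cast
        linear_combination h1
      rw [ZMod.natCast_eq_zero_iff] at h8
      have h9 := (Nat.prime_dvd_prime_iff_eq hp Nat.prime_three).1 h8
      rw [h9] at h3
      norm_num at h3
    have h7 : x / y ≠ 0 := by
      intro h8
      rw [h8] at h1
      simp at h1
    have h8 : orderOf (x / y) = 3 := orderOf_eq_prime h2 h6
    have h9 := ZMod.orderOf_dvd_card_sub_one h7
    rw [h8] at h9
    have := hp.two_le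
    omega
  have h1 := (ZMod.intCast_zmod_eq_zero_iff_dvd _ p).2 h
  unfold nm at h1
  push_cast at h1
  have hb := key _ _ h1
  have ha := key (b : ZMod p) (a : ZMod p) (by linear_combination h1)
  exact ⟨(ZMod.intCast_zmod_eq_zero_iff_dvd _ p).1 ha, (ZMod.intCast_zmod_eq_zero_iff_dvd _ p).1 hb⟩

/-- Dirichlet's theorem: a value of `r + D j` whose prime factors are `≡ 1 mod 3` or divide `D` -/
theorem dir (r D : ℤ) (hD : D ≠ 0) : ∃ j : ℤ, r + D * j ≠ 0 ∧
    ∀ p : ℕ, p.Prime → p % 3 ≠ 1 → (p : ℤ) ∣ r + D * j → (p : ℤ) ∣ D := by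
  obtain ⟨m, hm0, r', D', hcop, hr, hD'⟩ : ∃ m : ℤ, m ≠ 0 ∧ ∃ r' D' : ℤ,
      IsCoprime r' D' ∧ r = m * r' ∧ D = m * D' := by
    have hg : (Int.gcd r D : ℤ) ≠ 0 := by
      have : Int.gcd r D ≠ 0 := fun h0 => hD (Int.eq_zero_of_gcd_eq_zero_right h0)
      exact_mod_cast this
    obtain ⟨r', hr'⟩ := Int.gcd_dvd_left r D
    obtain ⟨D', hD'⟩ := Int.gcd_dvd_right r D
    refine ⟨(Int.gcd r D : ℤ), hg, r', D', ?_, hr', hD'⟩
    refine ⟨Int.gcdA r D, Int.gcdB r D, ?_⟩
    apply mul_left_cancel₀ hg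
    have hb := Int.gcd_eq_gcd_ab r D
    calc (Int.gcd r D : ℤ) * (Int.gcdA r D * r' + Int.gcdB r D * D')
        = ((Int.gcd r D : ℤ) * r') * Int.gcdA r D
          + ((Int.gcd r D : ℤ) * D') * Int.gcdB r D := by ring
      _ = r * Int.gcdA r D + D * Int.gcdB r D := by rw [← hr', ← hD']
      _ = (Int.gcd r D : ℤ) * 1 := by rw [← hb, mul_one]
  have hD'0 : D' ≠ 0 := by
    rintro rfl
    exact hD (by rw [hD', mul_zero])
  -- a residue class modulo `3 D'`
  obtain ⟨ε, s, hε, hs3, hsD, hscop⟩ : ∃ ε s : ℤ, (ε = 1 ∨ ε = -1) ∧ s % 3 = 1 ∧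
      D' ∣ ε * s - r' ∧ IsCoprime s D' := by
    by_cases h3 : (3 : ℤ) ∣ D'
    · have hr3 : ¬ (3 : ℤ) ∣ r' := by
        intro h
        have := hcop.isUnit_of_dvd' h h3
        rw [Int.isUnit_iff] at this
        omega
      have : r' % 3 = 1 ∨ r' % 3 = 2 := by omega
      rcases this with h | h
      · exact ⟨1, r', Or.inl rfl, h, by simp, hcop⟩
      · exact ⟨-1, -r', Or.inr rfl, by omega, by simp, hcop.neg_left⟩
    · have hc3 : IsCoprime (3 : ℤ) D' := by
        have hp3 : Prime (3 : ℤ) := Int.prime_three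
        exact (Prime.coprime_iff_not_dvd hp3).2 h3
      obtain ⟨x, y, hxy⟩ := hc3
      -- `s = r' * (3 x) + (1 * (D' y))`
      refine ⟨1, r' * (x * 3) + y * D', Or.inl rfl, ?_, ?_, ?_⟩
      · have : r' * (x * 3) + y * D' = 1 + 3 * (r' * x - x) := by linear_combination hxy
        rw [this]
        omega
      · refine ⟨y - r' * y, ?_⟩
        linear_combination r' * hxy
      · have : r' * (x * 3) + y * D' = r' + D' * (y - r' * y) := by linear_combination r' * hxy
        rw [this]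
        exact hcop.add_mul_left_left _
  have hs3' : ¬ (3 : ℤ) ∣ s := by omega
  have hcop3 : IsCoprime s (3 * D') := by
    refine IsCoprime.mul_right ?_ hscop
    exact ((Prime.coprime_iff_not_dvd Int.prime_three).2 hs3').symm
  -- the prime
  set q : ℕ := (3 * D').natAbs with hq
  have hq0 : q ≠ 0 := by
    rw [hq, Int.natAbs_ne_zero]
    exact mul_ne_zero (by norm_num) hD'0
  have : NeZero q := ⟨hq0⟩
  have hqz : ((q : ℕ) : ℤ) ∣ 3 * D' ∧ 3 * D' ∣ ((q : ℕ) : ℤ) := by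
    rw [hq]
    exact ⟨Int.natAbs_dvd.2 dvd_rfl, Int.dvd_natAbs.2 dvd_rfl⟩
  have hunit : IsUnit ((s : ℤ) : ZMod q) := by
    have h1 : IsCoprime s ((q : ℕ) : ℤ) := IsCoprime.of_isCoprime_of_dvd_right hcop3 hqz.1
    exact (ZMod.coe_int_isUnit_iff_isCoprime s q).2 h1.symm
  obtain ⟨ℓ, hℓgt, hℓ, hℓs⟩ := Nat.forall_exists_prime_gt_and_eq_mod hunit 0
  have hdvd : 3 * D' ∣ (ℓ : ℤ) - s := by
    refine hqz.2.trans ?_
    rw [← ZMod.intCast_zmod_eq_zero_iff_dvd]
    push_cast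
    rw [hℓs, sub_self]
  have hℓ3 : ℓ % 3 = 1 := by
    obtain ⟨t, ht⟩ := hdvd
    have : (ℓ : ℤ) = s + 3 * (D' * t) := by linear_combination ht
    omega
  obtain ⟨j, hj⟩ : D' ∣ ε * ℓ - r' := by
    have h1 : D' ∣ (ℓ : ℤ) - s := (Dvd.intro_left 3 rfl).trans hdvd
    have : ε * (ℓ : ℤ) - r' = ε * ((ℓ : ℤ) - s) + (ε * s - r') := by ring
    rw [this]
    exact dvd_add (h1.mul_left _) hsD
  have hval : r + D * j = m * (ε * ℓ) := by
    rw [hr, hD']
    linear_combination -m * hj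
  refine ⟨j, ?_, ?_⟩
  · rw [hval]
    refine mul_ne_zero hm0 (mul_ne_zero ?_ ?_)
    · rcases hε with h | h <;> rw [h] <;> norm_num
    · exact_mod_cast hℓ.ne_zero
  · intro p hp hp3 hpd
    rw [hval] at hpd
    have hpp := Nat.prime_iff_prime_int.1 hp
    rcases hpp.dvd_or_dvd hpd with h | h
    · rw [hD']
      exact h.mul_right _
    · exfalso
      rcases hpp.dvd_or_dvd h with h | h
      · have h1 : IsUnit (p : ℤ) := by
          refine isUnit_of_dvd_unit h ?_
          rcases hε with h | h <;> rw [h]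
          · exact isUnit_one
          · exact isUnit_one.neg
        exact hpp.not_isUnit h1
      · have h1 : p ∣ ℓ := by exact_mod_cast h
        rw [(Nat.prime_dvd_prime_iff_eq hp hℓ).1 h1] at hp3
        exact hp3 hℓ3

end Pool.Agent.N801.CF
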