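import Pool.Agent.N801.CF.Core
import Pool.Agent.X328.CF.D4Prog
import Pool.Agent.N801.CF.Adm

/-!
# The quadratic form of the Hodge classes of a cubic fourfold
-/

set_option autoImplicit false

namespace Pool.Agent.N801.CF

open Pool.Agent.Y95.Q Pool.Agent.Y95.Q.H4 Pool.Agent.X328.CF

variable {X : CubicFourfold} {H : H4 X}

theorem disc_half (hH : H.IsCohomology) (v : Fin 23 → ℤ) : H.disc v = 2 * (H.disc v / 2) := by
  have := disc_even hH v
  omega

theorem disc_sum (hH : H.IsCohomology) (v w : Fin 23 → ℤ) :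
    H.disc (v + w) = H.disc v + H.disc w + 2 * (3 * H.ip v w - H.ip H.h v * H.ip H.h w) := by
  simp only [disc, ip_add_left, ip_add_right, hH.comm w v]
  ring

theorem disc_smul (n : ℤ) (v : Fin 23 → ℤ) : H.disc (n • v) = n ^ 2 * H.disc v := by
  simp only [disc, ip_smul_left, ip_smul_right]
  ring

/-- one half of the discriminant, as a quadratic form on the group of the Hodge classes -/
def hq (hH : H.IsCohomology) : QF H.hodge where
  f v := H.disc (v : Fin 23 → ℤ) / 2
  b v w := 3 * H.ip (v : Fin 23 → ℤ) w - H.ip H.h v * H.ip H.h w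
  b_add x y z := by
    push_cast
    rw [ip_add_left, ip_add_right]
    ring
  b_comm x y := by
    rw [hH.comm (x : Fin 23 → ℤ) y]
    ring
  f_add x y := by
    have h1 := disc_sum hH (x : Fin 23 → ℤ) y
    have h2 := disc_half hH (x : Fin 23 → ℤ)
    have h3 := disc_half hH (y : Fin 23 → ℤ)
    have h4 := disc_half hH ((x : Fin 23 → ℤ) + y)
    push_cast
    omega
  f_smul n x := by
    have h1 := disc_smul (H := H) n (x : Fin 23 → ℤ)
    have h2 := disc_half hH (x : Fin 23 → ℤ)
    have h3 := disc_half hH (n • (x : Fin 23 → ℤ))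
    push_cast
    have h4 : 2 * (H.disc (n • (x : Fin 23 → ℤ)) / 2) =
        2 * (n ^ 2 * (H.disc (x : Fin 23 → ℤ) / 2)) := by
      rw [← h3, h1]
      conv_lhs => rw [h2]
      ring
    omega

theorem hq_f (hH : H.IsCohomology) (v : H.hodge) : (hq hH).f v = H.disc (v : Fin 23 → ℤ) / 2 := rfl

theorem good_of_adm (hH : H.IsCohomology) {p : ℕ} (hp : p.Prime) (h3 : p % 3 ≠ 1)
    {v : Fin 23 → ℤ} (h : AdmissibleAt p (H.disc v)) : Good p (H.disc v / 2) := by
  have h1 := disc_half hH v
  have h2 := disc_mod_three (H := H) v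
  obtain ⟨a1, a2, a3⟩ := h
  constructor
  · intro hp3
    rcases a2 hp3 with h | h
    · left; omega
    · right; omega
  · intro hp3 hd
    have h4 : p % 3 = 2 := by
      have : p % 3 ≠ 0 := fun h =>
        hp3 ((Nat.prime_dvd_prime_iff_eq Nat.prime_three hp).1 (Nat.dvd_of_mod_eq_zero h)).symm
      omega
    by_cases hp2 : p = 2
    · subst hp2
      apply a1 rfl
      push_cast at hd
      omega
    · apply a3 hp2 h4
      rw [h1]
      exact hd.mul_left _

/-- a Hodge class with the local conditions gives a K3 surface -/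
theorem hasK3_of_good (hH : H.IsCohomology) {v : Fin 23 → ℤ} (hv : H.IsHodge v)
    (h0 : 0 < H.disc v) (hg : ∀ p : ℕ, p.Prime → p % 3 ≠ 1 → Good p (H.disc v / 2)) : H.HasK3 := by
  obtain ⟨w, m, hm, hw, hsat, hd⟩ := exists_sat hH hv h0
  have hw0 : 0 < H.disc w := by
    rw [hd] at h0
    exact (mul_pos_iff_of_pos_left (by positivity)).1 h0
  have h2 := disc_half hH w
  have h1 : H.disc v / 2 = m ^ 2 * (H.disc w / 2) := by
    have h3 := disc_half hH v
    have h4 : 2 * (H.disc v / 2) = 2 * (m ^ 2 * (H.disc w / 2)) := by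
      rw [← h3, hd]
      conv_lhs => rw [h2]
      ring
    omega
  have hgw : ∀ p : ℕ, p.Prime → p % 3 ≠ 1 → Good p (H.disc w / 2) := by
    intro p hp h3
    have := hg p hp h3
    rw [h1] at this
    exact this.of_mul hp
  refine ⟨w, hw, hsat, hH.six_lt hw hw0, ?_, ?_, ?_⟩
  · have := (hgw 2 Nat.prime_two (by norm_num)).2 (by norm_num)
    push_cast at this
    omega
  · have := (hgw 3 Nat.prime_three (by norm_num)).1 rfl
    omega
  · intro p hp hp2 hpd h3
    have hpp := Nat.prime_iff_prime_int.1 hp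
    have hp3 : p ≠ 3 := by
      rintro rfl
      norm_num at h3
    have h4 := (hgw p hp (by omega)).2 hp3
    rw [h2] at hpd
    rcases hpp.dvd_or_dvd hpd with h | h
    · have : p ∣ 2 := by exact_mod_cast h
      exact hp2 ((Nat.prime_dvd_prime_iff_eq hp Nat.prime_two).1 this)
    · exact h4 h

/-- **The local-global principle**, with a Hodge class whose discriminant is twice a norm. -/
theorem hasK3_of_local (hH : H.IsCohomology) {v : Fin 23 → ℤ} (hv : H.IsHodge v)
    (h0 : 0 < H.disc v) {a b : ℤ} (hab : H.disc v = 2 * (a ^ 2 + a * b + b ^ 2))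
    (hloc : ∀ p : ℕ, p.Prime → p % 3 ≠ 1 → (p : ℤ) ∣ H.disc v / 2 →
      ∃ w, H.IsHodge w ∧ AdmissibleAt p (H.disc w)) : H.HasK3 := by
  let v0 : H.hodge := ⟨v, hv⟩
  have e0 : (hq hH).f v0 = nm a b := by
    rw [hq_f]
    show H.disc v / 2 = nm a b
    rw [hab]
    unfold nm
    omega
  have hne : (hq hH).f v0 ≠ 0 := by
    rw [hq_f]
    show H.disc v / 2 ≠ 0
    omega
  obtain ⟨w, hw0, hw⟩ := core (hq hH) e0 hne (fun _ => 0) (fun _ _ _ _ => rfl) (by
    intro p hp h3 hd
    obtain ⟨u, hu, hadm⟩ := hloc p hp h3 hd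
    exact ⟨⟨u, hu⟩, (good_of_adm hH hp h3 hadm).lev⟩)
  have hwpos : 0 < H.disc (w : Fin 23 → ℤ) := by
    rw [hq_f] at hw0
    have := disc_half hH (w : Fin 23 → ℤ)
    omega
  exact hasK3_of_good hH w.2 hwpos fun p hp h3 => (hw p hp h3).good

end Pool.Agent.N801.CF
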