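import Pool.Agent.N801.CF.Crt

/-!
# The local-global principle for isotropic vectors
-/

set_option autoImplicit false

namespace Pool.Agent.N801.CF

open Finset

/-- the product of the square of `p ^ k` and a good number -/
def Lev (p k : ℕ) (n : ℤ) : Prop := ∃ m, n = ((p : ℤ) ^ k) ^ 2 * m ∧ Good p m

theorem Lev.good {p : ℕ} {n : ℤ} (h : Lev p 0 n) : Good p n := by
  obtain ⟨m, rfl, hm⟩ := h
  simpa using hm

theorem Good.lev {p : ℕ} {n : ℤ} (h : Good p n) : Lev p 0 n := ⟨n, by simp, h⟩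

/-- division of a good number by a square -/
theorem Good.of_mul {p : ℕ} (hp : p.Prime) {r n : ℤ} (h : Good p (r ^ 2 * n)) : Good p n := by
  constructor
  · rintro rfl
    rcases h.1 rfl with h | h
    · left
      have hr : ¬ (3 : ℤ) ∣ r := by
        rintro ⟨t, rfl⟩
        have e : (3 * t) ^ 2 * n = 3 * (3 * t ^ 2 * n) := by ring
        rw [e] at h
        omega
      have hr2 : r ^ 2 % 3 = 1 := by
        have h1 : r % 3 = 1 ∨ r % 3 = 2 := by omega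
        rw [pow_two, Int.mul_emod]
        rcases h1 with h | h <;> rw [h] <;> norm_num
      rw [Int.mul_emod, hr2] at h
      omega
    · right
      have hr : ¬ (3 : ℤ) ∣ r := by
        rintro ⟨t, rfl⟩
        have e : (3 * t) ^ 2 * n = 9 * (t ^ 2 * n) := by ring
        rw [e] at h
        omega
      have hr2 : r ^ 2 % 3 = 1 := by
        have h1 : r % 3 = 1 ∨ r % 3 = 2 := by omega
        rw [pow_two, Int.mul_emod]
        rcases h1 with h | h <;> rw [h] <;> norm_num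
      have h30 : n % 3 = 0 := by
        have e : r ^ 2 * n % 3 = 0 := by omega
        rw [Int.mul_emod, hr2] at e
        omega
      obtain ⟨w, rfl⟩ : ∃ w, n = 3 * w := ⟨n / 3, by omega⟩
      have e2 : r ^ 2 * (3 * w) = 3 * (r ^ 2 * w) := by ring
      rw [e2] at h
      have e3 : r ^ 2 * w % 3 = 1 := by omega
      rw [Int.mul_emod, hr2] at e3
      omega
  · intro hp3 hdv
    exact h.2 hp3 (hdv.mul_left _)

/-- division by a square which is prime to `p` -/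
theorem Lev.of_mul {p k : ℕ} (hp : p.Prime) {r n : ℤ} (hr : ¬ (p : ℤ) ∣ r)
    (h : Lev p k (r ^ 2 * n)) : Lev p k n := by
  obtain ⟨m, h1, h2⟩ := h
  have hpp := Nat.prime_iff_prime_int.1 hp
  have hc : IsCoprime (((p : ℤ) ^ k) ^ 2) (r ^ 2) :=
    ((Prime.coprime_iff_not_dvd hpp).2 hr).pow_left.pow
  obtain ⟨m', rfl⟩ : ((p : ℤ) ^ k) ^ 2 ∣ n := hc.dvd_of_dvd_mul_left ⟨m, h1⟩
  have hpk : ((p : ℤ) ^ k) ^ 2 ≠ 0 := pow_ne_zero _ (pow_ne_zero _ (by exact_mod_cast hp.ne_zero))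
  refine ⟨m', rfl, Good.of_mul hp (r := r) ?_⟩
  have : r ^ 2 * m' = m := by
    apply mul_left_cancel₀ hpk
    linear_combination h1
  rw [this]
  exact h2

/-- **The local-global principle.** -/
theorem core {M : Type*} [AddCommGroup M] (Q : QF M) {v0 : M} {a0 b0 : ℤ}
    (h0 : Q.f v0 = nm a0 b0) (hne : Q.f v0 ≠ 0) (κ : ℕ → ℕ)
    (hκ : ∀ p : ℕ, p.Prime → p % 3 ≠ 1 → ¬ (p : ℤ) ∣ Q.f v0 → κ p = 0)
    (hloc : ∀ p : ℕ, p.Prime → p % 3 ≠ 1 → (p : ℤ) ∣ Q.f v0 → ∃ v, Lev p (κ p) (Q.f v)) :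
    ∃ v, 0 < Q.f v ∧ (∀ p : ℕ, p.Prime → p % 3 ≠ 1 → Lev p (κ p) (Q.f v)) := by
  classical
  have hab : ¬ (a0 = 0 ∧ b0 = 0) := by
    rintro ⟨rfl, rfl⟩
    rw [h0] at hne
    exact hne rfl
  -- the bad primes
  set S : Finset ℕ := (6 * (Q.f v0).natAbs).primeFactors.filter fun p => p % 3 ≠ 1 with hSdef
  have h6ne : 6 * (Q.f v0).natAbs ≠ 0 := by
    have := Int.natAbs_ne_zero.2 hne
    omega
  have hSp : ∀ p ∈ S, p.Prime := fun p hp =>
    Nat.prime_of_mem_primeFactors (mem_filter.1 hp).1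
  have hS3 : ∀ p ∈ S, p % 3 ≠ 1 := fun p hp => (mem_filter.1 hp).2
  have hS' : ∀ p : ℕ, p.Prime → p % 3 ≠ 1 → p ∉ S → ¬ p ∣ 6 * (Q.f v0).natAbs := by
    intro p hp h3 hpS hd
    exact hpS (mem_filter.2 ⟨Nat.mem_primeFactors.2 ⟨hp, hd, h6ne⟩, h3⟩)
  have hgood : ∀ p ∈ S, ∃ v, Lev p (κ p) (Q.f v) := by
    intro p hp
    by_cases hd : (p : ℤ) ∣ Q.f v0
    · exact hloc p (hSp p hp) (hS3 p hp) hd
    · rw [hκ p (hSp p hp) (hS3 p hp) hd]
      refine ⟨v0, Good.lev ⟨fun h3 => ?_, fun _ => hd⟩⟩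
      subst h3
      left
      rw [h0] at hd ⊢
      unfold nm at hd ⊢
      push_cast at hd
      have ha : a0 % 3 = 0 ∨ a0 % 3 = 1 ∨ a0 % 3 = 2 := by omega
      have hb : b0 % 3 = 0 ∨ b0 % 3 = 1 ∨ b0 % 3 = 2 := by omega
      have e : (a0 ^ 2 + a0 * b0 + b0 ^ 2) % 3 =
          ((a0 % 3) ^ 2 + (a0 % 3) * (b0 % 3) + (b0 % 3) ^ 2) % 3 := by
        simp [Int.add_emod, Int.mul_emod, pow_two]
      rcases ha with ha | ha | ha <;> rcases hb with hb | hb | hb <;>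
        rw [ha, hb] at e <;> norm_num at e <;> omega
  choose! V hV using hgood
  choose! nn hnn hVg using hV
  -- a nonzero number
  obtain ⟨τ, hτ0, hτ⟩ : ∃ τ : ℕ → ℤ, (∀ p ∈ S, τ p ≠ 0) ∧ ∀ p, τ p = 3 * a0 * Q.f (V p) ∨
      τ p = 3 * b0 * Q.f (V p) := by
    have hfne : ∀ p ∈ S, Q.f (V p) ≠ 0 := by
      intro p hp h
      have h1 := hnn p hp
      rw [h] at h1
      have hpk : ((p : ℤ) ^ κ p) ^ 2 ≠ 0 :=
        pow_ne_zero _ (pow_ne_zero _ (by exact_mod_cast (hSp p hp).ne_zero))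
      have h2 : nn p = 0 := (mul_eq_zero.1 h1.symm).resolve_left hpk
      have := hVg p hp
      rw [h2] at this
      by_cases h3 : p = 3
      · rcases this.1 h3 with h | h <;> norm_num at h
      · exact this.2 h3 (dvd_zero _)
    by_cases ha : a0 = 0
    · have hb : b0 ≠ 0 := fun hb => hab ⟨ha, hb⟩
      exact ⟨fun p => 3 * b0 * Q.f (V p), fun p hp =>
        mul_ne_zero (mul_ne_zero (by norm_num) hb) (hfne p hp), fun p => Or.inr rfl⟩
    · exact ⟨fun p => 3 * a0 * Q.f (V p), fun p hp =>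
        mul_ne_zero (mul_ne_zero (by norm_num) ha) (hfne p hp), fun p => Or.inl rfl⟩
  -- exponents
  obtain ⟨K, hK⟩ : ∃ K : ℕ, ∀ p ∈ S, ¬ (p : ℤ) ^ K ∣ τ p := by
    refine ⟨∑ p ∈ S, (τ p).natAbs, fun p hp hd => ?_⟩
    have h1 := Int.natAbs_dvd_natAbs.2 hd
    rw [Int.natAbs_pow, Int.natAbs_natCast] at h1
    have h2 := Nat.le_of_dvd (Int.natAbs_pos.2 (hτ0 p hp)) h1
    have h3 : (τ p).natAbs ≤ ∑ q ∈ S, (τ q).natAbs :=
      single_le_sum (f := fun q => (τ q).natAbs) (fun _ _ => Nat.zero_le _) hp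
    have h4 : (τ p).natAbs < p ^ (∑ q ∈ S, (τ q).natAbs) :=
      lt_of_le_of_lt h3 (Nat.lt_pow_self (hSp p hp).one_lt)
    omega
  set L := K + 2 * (∑ p ∈ S, κ p) + 2 with hL
  have hκL : ∀ p ∈ S, κ p ≤ ∑ q ∈ S, κ q := fun p hp =>
    single_le_sum (f := κ) (fun _ _ => Nat.zero_le _) hp
  -- local solutions
  have hsol : ∀ p ∈ S, ∃ a b : ℤ, (p : ℤ) ^ L ∣ nm a b - Q.f (V p) ∧
      ¬ (p : ℤ) ^ K ∣ Q.b v0 (V p) - tr a0 b0 a b := by
    intro p hp
    obtain ⟨a', b', h1'⟩ := local_rep (hSp p hp) (hS3 p hp) (hVg p hp) L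
    have h1 : (p : ℤ) ^ L ∣ nm ((p : ℤ) ^ κ p * a') ((p : ℤ) ^ κ p * b') - Q.f (V p) := by
      have : nm ((p : ℤ) ^ κ p * a') ((p : ℤ) ^ κ p * b') - Q.f (V p) =
          ((p : ℤ) ^ κ p) ^ 2 * (nm a' b' - nn p) := by
        rw [hnn p hp]
        unfold nm
        ring
      rw [this]
      exact h1'.mul_left _
    refine rotate (k := K) ?_ (by omega) h1
    rcases hτ p with h | h
    · left
      rw [← h]
      exact hK p hp
    · right
      rw [← h]
      exact hK p hp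
  choose! A B hAB using hsol
  set β : ℕ → ℤ := fun p => Q.b v0 (V p) - tr a0 b0 (A p) (B p) with hβ
  -- simultaneous approximation
  obtain ⟨x1, hx1⟩ := crt S hSp L fun p => v0 - V p
  obtain ⟨c1, hc1⟩ := crt S hSp L fun p => a0 - A p
  obtain ⟨d1, hd1⟩ := crt S hSp L fun p => b0 - B p
  set P : ℤ := ∏ p ∈ S, (p : ℤ) ^ L with hP
  have hP0 : P ≠ 0 := prod_ne_zero_iff.2 fun p hp => pow_ne_zero _ (by
    exact_mod_cast (hSp p hp).ne_zero)
  have hPS : ∀ p ∈ S, (p : ℤ) ^ L ∣ P := fun p hp => dvd_prod_of_mem _ hp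
  have hPn : ∀ p : ℕ, p.Prime → p ∉ S → ¬ (p : ℤ) ∣ P := by
    intro p hp hpS hd
    have hpp := Nat.prime_iff_prime_int.1 hp
    obtain ⟨q, hq, hdq⟩ := (Prime.dvd_finsetProd_iff hpp _).1 hd
    have h1 := hpp.dvd_of_dvd_pow hdq
    have h2 : p ∣ q := by exact_mod_cast h1
    rw [(Nat.prime_dvd_prime_iff_eq hp (hSp q hq)).1 h2] at hpS
    exact hpS hq
  -- the functional
  obtain ⟨g, hg0, s1, s2, hs, hgf⟩ : ∃ g : ℤ, g ≠ 0 ∧ ∃ s1 s2 : ℤ, b0 * s1 - a0 * s2 = g ∧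
      g ∣ nm a0 b0 := by
    have hg : (Int.gcd b0 a0 : ℤ) ≠ 0 := by
      have : Int.gcd b0 a0 ≠ 0 := fun h => hab
        ⟨Int.eq_zero_of_gcd_eq_zero_right h, Int.eq_zero_of_gcd_eq_zero_left h⟩
      exact_mod_cast this
    refine ⟨(Int.gcd b0 a0 : ℤ), hg, Int.gcdA b0 a0, -Int.gcdB b0 a0, ?_, ?_⟩
    · have hb := Int.gcd_eq_gcd_ab b0 a0
      rw [hb]
      ring
    · unfold nm
      have e1 : (Int.gcd b0 a0 : ℤ) ∣ a0 := Int.gcd_dvd_right _ _
      have e2 : (Int.gcd b0 a0 : ℤ) ∣ b0 := Int.gcd_dvd_left _ _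
      exact dvd_add (dvd_add (e1.pow two_ne_zero) (e1.mul_right _)) (e2.pow two_ne_zero)
  obtain ⟨j1, hj1ne, hj1⟩ := dir (b0 * c1 - a0 * d1) (P * g) (mul_ne_zero hP0 hg0)
  set c := c1 + P * (j1 * s1) with hc
  set d := d1 + P * (j1 * s2) with hd
  have hlam : b0 * c - a0 * d = b0 * c1 - a0 * d1 + P * g * j1 := by
    rw [hc, hd, ← hs]
    ring
  obtain ⟨j2, hj2ne, hj2⟩ := dir (Q.b x1 v0 - tr c d a0 b0) (P * (2 * Q.f v0))
    (mul_ne_zero hP0 (mul_ne_zero two_ne_zero hne))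
  set x := x1 + (P * j2) • v0 with hx
  set Be := Q.b x v0 - tr c d a0 b0 with hBe
  have hBe' : Be = Q.b x1 v0 - tr c d a0 b0 + P * (2 * Q.f v0) * j2 := by
    rw [hBe, hx, Q.b_add, Q.b_smul, Q.b_self]
    ring
  set Fu := Q.f x - nm c d with hFu
  -- the new isotropic vector
  set v' := Fu • v0 + (-Be) • x with hv'
  set a' := Fu * a0 - Be * c with ha'
  set b' := Fu * b0 - Be * d with hb'
  have hiso : Q.f v' = nm a' b' := by
    rw [hv', Q.f_lin, h0, ha', hb']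
    have e1 : Q.b v0 x = Be + tr c d a0 b0 := by rw [Q.b_comm, hBe]; ring
    have e2 : Q.f x = Fu + nm c d := by rw [hFu]; ring
    rw [e1, e2]
    unfold nm tr
    ring
  have hlam' : b0 * a' - a0 * b' = -Be * (b0 * c - a0 * d) := by
    rw [ha', hb']
    ring
  have hBe0 : Be ≠ 0 := by rw [hBe']; exact hj2ne
  have hlam0 : b0 * c - a0 * d ≠ 0 := by rw [hlam]; exact hj1ne
  have hab' : ¬ (a' = 0 ∧ b' = 0) := by
    rintro ⟨h1, h2⟩
    rw [h1, h2, mul_zero, mul_zero, sub_zero] at hlam'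
    exact mul_ne_zero (neg_ne_zero.2 hBe0) hlam0 hlam'.symm
  have hpos' : 0 < Q.f v' := by rw [hiso]; exact nm_pos hab'
  -- primes outside `S`
  have hout : ∀ p : ℕ, p.Prime → p % 3 ≠ 1 → p ∉ S → ¬ (p : ℤ) ∣ Q.f v' := by
    intro p hp h3 hpS hdv
    have h6 := hS' p hp h3 hpS
    have hp3 : p % 3 = 2 := by
      have : p % 3 ≠ 0 := by
        intro h
        have h' : 3 ∣ p := Nat.dvd_of_mod_eq_zero h
        have h'' := (Nat.prime_dvd_prime_iff_eq Nat.prime_three hp).1 h'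
        apply h6
        rw [← h'']
        exact Dvd.dvd.mul_right (by norm_num) _
      omega
    rw [hiso] at hdv
    obtain ⟨h1, h2⟩ := inert hp hp3 hdv
    have h4 : (p : ℤ) ∣ -Be * (b0 * c - a0 * d) := by
      rw [← hlam']
      exact dvd_sub (h1.mul_left _) (h2.mul_left _)
    have hpp := Nat.prime_iff_prime_int.1 hp
    have hpf : ¬ (p : ℤ) ∣ Q.f v0 := by
      intro h
      apply h6
      have := Int.natAbs_dvd_natAbs.2 h
      rw [Int.natAbs_natCast] at this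
      exact this.mul_left _
    have hp2 : ¬ (p : ℤ) ∣ 2 := by
      intro h
      have h' : p ∣ 2 := by exact_mod_cast h
      exact h6 ((h'.trans (by norm_num)).mul_right _)
    have hpP := hPn p hp hpS
    rcases hpp.dvd_or_dvd h4 with h5 | h5
    · have h7 : (p : ℤ) ∣ Be := (dvd_neg).1 h5
      rw [hBe'] at h7
      have h8 := hj2 p hp h3 h7
      rcases hpp.dvd_or_dvd h8 with h9 | h9
      · exact hpP h9
      · rcases hpp.dvd_or_dvd h9 with h9 | h9
        · exact hp2 h9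
        · exact hpf h9
    · rw [hlam] at h5
      have h8 := hj1 p hp h3 h5
      rcases hpp.dvd_or_dvd h8 with h9 | h9
      · exact hpP h9
      · apply hpf
        rw [h0]
        exact h9.trans hgf
  -- primes in `S`
  have hin : ∀ p ∈ S, ∃ k : ℕ, (∃ w : M, v' = ((p : ℤ) ^ k) • w) ∧
      ∃ n : ℤ, Q.f v' = ((p : ℤ) ^ k) ^ 2 * n ∧ Lev p (κ p) n := by
    intro p hp
    have hpr := hSp p hp
    have hpp := Nat.prime_iff_prime_int.1 hpr
    obtain ⟨h1, h2⟩ := hAB p hp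
    -- the valuation of `β p`
    obtain ⟨k, β', hk, hβ', hkK⟩ : ∃ (k : ℕ) (β' : ℤ), β p = (p : ℤ) ^ k * β' ∧
        ¬ (p : ℤ) ∣ β' ∧ k ≤ K := by
      have hβ0 : β p ≠ 0 := by
        intro h
        apply h2
        have : Q.b v0 (V p) - tr a0 b0 (A p) (B p) = 0 := h
        rw [this]
        exact dvd_zero _
      have hfin : FiniteMultiplicity (p : ℤ) (β p) :=
        Int.finiteMultiplicity_iff.2 ⟨by simpa using hpr.ne_one, hβ0⟩
      obtain ⟨β', e1, e2⟩ := hfin.exists_eq_pow_mul_and_not_dvd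
      refine ⟨multiplicity (p : ℤ) (β p), β', e1, e2, ?_⟩
      by_contra hcon
      push Not at hcon
      apply h2
      have : Q.b v0 (V p) - tr a0 b0 (A p) (B p) = β p := rfl
      rw [this, e1]
      exact (pow_dvd_pow _ hcon.le).mul_right _
    have hκp := hκL p hp
    have hkL : k + 2 * κ p + 2 ≤ L := by omega
    -- congruences for `x`, `c`, `d`
    obtain ⟨X, hX⟩ : ∃ X : M, x = v0 - V p + ((p : ℤ) ^ L) • X := by
      obtain ⟨z, hz⟩ := hx1 p hp
      obtain ⟨y, hy⟩ := hPS p hp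
      refine ⟨z + (y * j2) • v0, ?_⟩
      rw [hx, hz, hy, smul_add, smul_smul, mul_assoc]
      abel
    obtain ⟨C, hC⟩ : ∃ C : ℤ, c = a0 - A p + (p : ℤ) ^ L * C := by
      obtain ⟨z, hz⟩ := hc1 p hp
      obtain ⟨y, hy⟩ := hPS p hp
      refine ⟨z + y * (j1 * s1), ?_⟩
      rw [hc, hz, hy, smul_eq_mul]
      ring
    obtain ⟨D, hD⟩ : ∃ D : ℤ, d = b0 - B p + (p : ℤ) ^ L * D := by
      obtain ⟨z, hz⟩ := hd1 p hp
      obtain ⟨y, hy⟩ := hPS p hp
      refine ⟨z + y * (j1 * s2), ?_⟩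
      rw [hd, hz, hy, smul_eq_mul]
      ring
    obtain ⟨N, hN⟩ := h1
    -- congruences for `Be` and `Fu`
    have eb : β p = Q.b v0 (V p) - tr a0 b0 (A p) (B p) := rfl
    have hsub : v0 - V p = v0 + (-1 : ℤ) • V p := by rw [neg_one_smul]; abel
    obtain ⟨E1, hE1⟩ : ∃ E1 : ℤ, Be = -β p + (p : ℤ) ^ L * E1 := by
      refine ⟨Q.b X v0 - tr C D a0 b0, ?_⟩
      rw [hBe, hX, hC, hD, hsub, Q.b_add, Q.b_add, Q.b_smul, Q.b_smul, Q.b_self, h0, eb,
        Q.b_comm (V p) v0]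
      unfold nm tr
      ring
    obtain ⟨E2, hE2⟩ : ∃ E2 : ℤ, Fu = -β p + (p : ℤ) ^ L * E2 := by
      refine ⟨-N + Q.b (v0 - V p) X + (p : ℤ) ^ L * Q.f X
        - tr (a0 - A p) (b0 - B p) C D - (p : ℤ) ^ L * nm C D, ?_⟩
      have e1 : Q.f x = Q.f (v0 - V p) + (p : ℤ) ^ L * Q.b (v0 - V p) X
          + ((p : ℤ) ^ L) ^ 2 * Q.f X := by
        rw [hX, Q.f_add, Q.f_smul, Q.b_smul']
        ring
      have e2 : Q.f (v0 - V p) = Q.f v0 + Q.f (V p) - Q.b v0 (V p) := by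
        rw [hsub, Q.f_add, Q.f_smul, Q.b_smul']
        ring
      rw [hFu, e1, e2, hC, hD, h0, eb]
      unfold nm tr at *
      linear_combination -hN
    -- the vector
    have hpLk : (p : ℤ) ^ L = (p : ℤ) ^ k * (p : ℤ) ^ (L - k) := by
      rw [← pow_add]
      congr 1
      omega
    have hv : v' = ((p : ℤ) ^ k) • ((-β') • V p + ((p : ℤ) ^ (L - k)) •
        (E2 • v0 + (β p) • X - E1 • x)) := by
      have e1 : v' = (-β p) • V p + ((p : ℤ) ^ L) • (E2 • v0 + (β p) • X - E1 • x) := by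
        have e3 : v' = Fu • v0 - Be • x := by rw [hv', neg_smul]; abel
        have e4 : Be • x = (-β p) • (v0 - V p + ((p : ℤ) ^ L) • X) + ((p : ℤ) ^ L * E1) • x := by
          rw [hE1, add_smul, ← hX]
        rw [e3, e4, hE2]
        module
      rw [e1, hk, hpLk]
      module
    have haa : a' = (p : ℤ) ^ k * (-β' * A p + (p : ℤ) ^ (L - k) *
        (E2 * a0 + β p * C - E1 * c)) := by
      have e1 : a' = -β p * A p + (p : ℤ) ^ L * (E2 * a0 + β p * C - E1 * c) := by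
        have e4 : Be * c = -β p * (a0 - A p + (p : ℤ) ^ L * C) + (p : ℤ) ^ L * E1 * c := by
          rw [hE1, add_mul, ← hC]
        rw [ha', e4, hE2]
        ring
      rw [e1, hpLk]
      linear_combination (-A p) * hk
    have hbb : b' = (p : ℤ) ^ k * (-β' * B p + (p : ℤ) ^ (L - k) *
        (E2 * b0 + β p * D - E1 * d)) := by
      have e1 : b' = -β p * B p + (p : ℤ) ^ L * (E2 * b0 + β p * D - E1 * d) := by
        have e4 : Be * d = -β p * (b0 - B p + (p : ℤ) ^ L * D) + (p : ℤ) ^ L * E1 * d := by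
          rw [hE1, add_mul, ← hD]
        rw [hb', e4, hE2]
        ring
      rw [e1, hpLk]
      linear_combination (-B p) * hk
    refine ⟨k, ⟨_, hv⟩, nm (-β' * A p + (p : ℤ) ^ (L - k) * (E2 * a0 + β p * C - E1 * c))
      (-β' * B p + (p : ℤ) ^ (L - k) * (E2 * b0 + β p * D - E1 * d)), ?_, ?_⟩
    · rw [hiso, haa, hbb]
      unfold nm
      ring
    · generalize (E2 * a0 + β p * C - E1 * c) = Y1
      generalize (E2 * b0 + β p * D - E1 * d) = Y2
      have h2L : ((p : ℤ) ^ κ p) ^ 2 * (p : ℤ) ^ 2 ∣ (p : ℤ) ^ (L - k) := by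
        rw [← pow_mul, ← pow_add]
        exact pow_dvd_pow _ (by omega)
      obtain ⟨r, hr⟩ := h2L
      have h2L' : ((p : ℤ) ^ κ p) ^ 2 * (p : ℤ) ^ 2 ∣ (p : ℤ) ^ L := by
        rw [← pow_mul, ← pow_add]
        exact pow_dvd_pow _ (by omega)
      obtain ⟨r', hr'⟩ := h2L'
      rw [hr]
      rw [hr', hnn p hp] at hN
      have e1 : nm (-β' * A p + ((p : ℤ) ^ κ p) ^ 2 * (p : ℤ) ^ 2 * r * Y1)
          (-β' * B p + ((p : ℤ) ^ κ p) ^ 2 * (p : ℤ) ^ 2 * r * Y2) =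
          ((p : ℤ) ^ κ p) ^ 2 * (β' ^ 2 * nn p + (p : ℤ) ^ 2 * (β' ^ 2 * (r' * N)
          + -β' * tr (A p) (B p) (r * Y1) (r * Y2)
          + ((p : ℤ) ^ κ p) ^ 2 * (p : ℤ) ^ 2 * nm (r * Y1) (r * Y2))) := by
        unfold nm tr at *
        linear_combination β' ^ 2 * hN
      refine ⟨_, e1, (hVg p hp).of_sq hpr (c := β') hβ' ?_⟩
      rw [add_sub_cancel_left]
      exact dvd_mul_right _ _
  choose! k hk using hin
  obtain ⟨v, hv⟩ := div_prod S hSp k v' fun p hp => (hk p hp).1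
  set R : ℤ := ∏ p ∈ S, (p : ℤ) ^ k p with hR
  have hR0 : R ≠ 0 := prod_ne_zero_iff.2 fun p hp => pow_ne_zero _ (by
    exact_mod_cast (hSp p hp).ne_zero)
  have hfv : Q.f v' = R ^ 2 * Q.f v := by
    conv_lhs => rw [hv]
    exact Q.f_smul _ _
  refine ⟨v, ?_, ?_⟩
  · rw [hfv] at hpos'
    exact (mul_pos_iff_of_pos_left (by positivity)).1 hpos'
  · intro p hp h3
    by_cases hpS : p ∈ S
    · obtain ⟨n, hn1, hn2⟩ := (hk p hpS).2
      have hRe : R = (p : ℤ) ^ k p * ∏ q ∈ S.erase p, (q : ℤ) ^ k q :=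
        (mul_prod_erase S (fun q : ℕ => (q : ℤ) ^ k q) hpS).symm
      have hR' : ¬ (p : ℤ) ∣ ∏ q ∈ S.erase p, (q : ℤ) ^ k q := by
        intro hd
        have hpp := Nat.prime_iff_prime_int.1 hp
        obtain ⟨q, hq, hdq⟩ := (Prime.dvd_finsetProd_iff hpp _).1 hd
        have h1 := hpp.dvd_of_dvd_pow hdq
        have h2 : p ∣ q := by exact_mod_cast h1
        exact ne_of_mem_erase hq
          ((Nat.prime_dvd_prime_iff_eq hp (hSp q (mem_of_mem_erase hq))).1 h2).symm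
      have hpk : ((p : ℤ) ^ k p) ≠ 0 := pow_ne_zero _ (by exact_mod_cast hp.ne_zero)
      have h1 : n = (∏ q ∈ S.erase p, (q : ℤ) ^ k q) ^ 2 * Q.f v := by
        apply mul_left_cancel₀ (pow_ne_zero 2 hpk)
        rw [← hn1, hfv, hRe]
        ring
      rw [h1] at hn2
      exact hn2.of_mul hp hR'
    · have h1 := hout p hp h3 hpS
      have hpf : ¬ (p : ℤ) ∣ Q.f v0 := by
        intro h
        apply hS' p hp h3 hpS
        have := Int.natAbs_dvd_natAbs.2 h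
        rw [Int.natAbs_natCast] at this
        exact this.mul_left _
      rw [hκ p hp h3 hpf]
      refine Good.lev ⟨fun h => ?_, fun _ hdv => h1 ?_⟩
      · exfalso
        subst h
        exact hS' 3 hp h3 hpS (Dvd.dvd.mul_right (by norm_num) _)
      · rw [hfv]
        exact hdv.mul_left _

end Pool.Agent.N801.CF
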