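import Pool.Agent.N801.CF.Local

/-!
# Integral quadratic forms on abelian groups, simultaneous congruences
-/

set_option autoImplicit false

namespace Pool.Agent.N801.CF

open Finset

/-- an integral quadratic form on an abelian group -/
structure QF (M : Type*) [AddCommGroup M] where
  /-- the form -/
  f : M → ℤ
  /-- the polar form -/
  b : M → M → ℤ
  b_add : ∀ x y z, b (x + y) z = b x z + b y z
  b_comm : ∀ x y, b x y = b y x
  f_add : ∀ x y, f (x + y) = f x + f y + b x y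
  f_smul : ∀ (n : ℤ) x, f (n • x) = n ^ 2 * f x

namespace QF

variable {M : Type*} [AddCommGroup M] (Q : QF M)

theorem b_add' (x y z : M) : Q.b x (y + z) = Q.b x y + Q.b x z := by
  rw [Q.b_comm, Q.b_add, Q.b_comm y, Q.b_comm z]

theorem b_zero (z : M) : Q.b 0 z = 0 := by
  have := Q.b_add 0 0 z
  rw [add_zero] at this
  omega

theorem b_smul (n : ℤ) (x z : M) : Q.b (n • x) z = n * Q.b x z := by
  have h1 : ∀ n : ℕ, Q.b ((n : ℤ) • x) z = n * Q.b x z := by
    intro n
    induction n with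
    | zero => simp [Q.b_zero]
    | succ n ih =>
      push_cast
      rw [add_smul, one_smul, Q.b_add, ih]
      ring
  have h2 : ∀ y, Q.b (-y) z = -Q.b y z := by
    intro y
    have := Q.b_add (-y) y z
    rw [neg_add_cancel, Q.b_zero] at this
    omega
  rcases Int.eq_nat_or_neg n with ⟨m, rfl | rfl⟩
  · exact h1 m
  · rw [neg_smul, h2, h1]
    ring

theorem b_smul' (n : ℤ) (x z : M) : Q.b x (n • z) = n * Q.b x z := by
  rw [Q.b_comm, Q.b_smul, Q.b_comm]

theorem b_self (x : M) : Q.b x x = 2 * Q.f x := by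
  have h1 := Q.f_add x x
  have h2 := Q.f_smul 2 x
  rw [two_smul] at h2
  omega

theorem f_lin (x y : M) (c d : ℤ) : Q.f (c • x + d • y) =
    c ^ 2 * Q.f x + d ^ 2 * Q.f y + c * d * Q.b x y := by
  rw [Q.f_add, Q.f_smul, Q.f_smul, Q.b_smul, Q.b_smul']
  ring

end QF

/-- simultaneous congruences in an abelian group -/
theorem crt {M : Type*} [AddCommGroup M] (S : Finset ℕ) (hS : ∀ p ∈ S, p.Prime) (L : ℕ)
    (x : ℕ → M) : ∃ y : M, ∀ p ∈ S, ∃ z : M, y = x p + ((p : ℤ) ^ L) • z := by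
  classical
  have hc : ∀ p ∈ S, ∃ s t : ℤ, s * ∏ q ∈ S.erase p, (q : ℤ) ^ L + t * (p : ℤ) ^ L = 1 := by
    intro p hp
    have : IsCoprime (∏ q ∈ S.erase p, (q : ℤ) ^ L) ((p : ℤ) ^ L) := by
      refine IsCoprime.prod_left fun q hq => IsCoprime.pow ?_
      rw [Nat.isCoprime_iff_coprime]
      exact (Nat.coprime_primes (hS q (mem_of_mem_erase hq)) (hS p hp)).2 (ne_of_mem_erase hq)
    obtain ⟨s, t, h⟩ := this
    exact ⟨s, t, h⟩
  choose! s t h using hc
  refine ⟨∑ p ∈ S, (s p * ∏ q ∈ S.erase p, (q : ℤ) ^ L) • x p, fun p hp => ?_⟩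
  have h1 : ∀ r ∈ S.erase p, ∃ z : M, (s r * ∏ q ∈ S.erase r, (q : ℤ) ^ L) • x r =
      ((p : ℤ) ^ L) • z := by
    intro r hr
    have hpr : p ∈ S.erase r := mem_erase.2 ⟨(ne_of_mem_erase hr).symm, hp⟩
    obtain ⟨k, hk⟩ := dvd_prod_of_mem (fun q : ℕ => (q : ℤ) ^ L) hpr
    refine ⟨(s r * k) • x r, ?_⟩
    rw [hk, smul_smul]
    congr 1
    ring
  choose! z hz using h1
  refine ⟨∑ r ∈ S.erase p, z r - t p • x p, ?_⟩
  rw [← add_sum_erase S _ hp, sum_congr rfl hz, smul_sub, smul_sum]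
  have h2 : (s p * ∏ q ∈ S.erase p, (q : ℤ) ^ L) • x p = x p - ((p : ℤ) ^ L) • t p • x p := by
    rw [smul_smul]
    have : s p * ∏ q ∈ S.erase p, (q : ℤ) ^ L = 1 - (p : ℤ) ^ L * t p := by
      linear_combination h p hp
    rw [this, sub_smul, one_smul]
  rw [h2]
  abel

/-- division by a product of coprime powers -/
theorem div_prod {M : Type*} [AddCommGroup M] (S : Finset ℕ) (hS : ∀ p ∈ S, p.Prime)
    (k : ℕ → ℕ) (x : M) (h : ∀ p ∈ S, ∃ y : M, x = ((p : ℤ) ^ k p) • y) :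
    ∃ y : M, x = (∏ p ∈ S, (p : ℤ) ^ k p) • y := by
  classical
  induction S using Finset.induction_on with
  | empty => exact ⟨x, by simp⟩
  | insert p S hpS ih =>
    obtain ⟨y, hy⟩ := ih (fun q hq => hS q (mem_insert_of_mem hq))
      (fun q hq => h q (mem_insert_of_mem hq))
    obtain ⟨z, hz⟩ := h p (mem_insert_self _ _)
    obtain ⟨s, t, hst⟩ : IsCoprime ((p : ℤ) ^ k p) (∏ q ∈ S, (q : ℤ) ^ k q) := by
      refine IsCoprime.prod_right fun q hq => IsCoprime.pow ?_
      rw [Nat.isCoprime_iff_coprime]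
      refine (Nat.coprime_primes (hS p (mem_insert_self _ _)) (hS q (mem_insert_of_mem hq))).2 ?_
      rintro rfl
      exact hpS hq
    rw [prod_insert hpS]
    generalize (∏ q ∈ S, (q : ℤ) ^ k q) = P at *
    generalize (p : ℤ) ^ k p = R at *
    refine ⟨s • y + t • z, ?_⟩
    calc x = (s * R + t * P) • x := by rw [hst, one_smul]
      _ = (s * R) • x + (t * P) • x := add_smul _ _ _
      _ = (s * R) • (P • y) + (t * P) • (R • z) := by rw [← hy, ← hz]
      _ = (R * P) • (s • y + t • z) := by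
        rw [smul_add, smul_smul, smul_smul, smul_smul, smul_smul]
        congr 2 <;> ring

end Pool.Agent.N801.CF
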