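import Pool.Agent.N801.CF.Prim
import Pool.Agent.N801.CF.Crt

/-!
# Values of the form `n ^ 2 + n + 1`
-/

set_option autoImplicit false

namespace Pool.Agent.N801.CF

open Finset

/-- a rotation with a good position at `p` -/
theorem rot {p : ℕ} (hp : p.Prime) {a b : ℤ} (hab : IsCoprime a b) :
    ∃ a' b' : ℤ, nm a' b' = nm a b ∧ ¬ (p : ℤ) ∣ b' ∧ ¬ (p : ℤ) ^ 2 ∣ 2 * a' + b' := by
  have hpp := Nat.prime_iff_prime_int.1 hp
  have hnot : ¬ ((p : ℤ) ∣ a ∧ (p : ℤ) ∣ b) := fun h => not_common_prime hab hp h.1 h.2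
  by_contra hcon
  push Not at hcon
  have hsq : ∀ x : ℤ, (p : ℤ) ^ 2 ∣ x → (p : ℤ) ∣ x := fun x h =>
    (dvd_pow_self _ two_ne_zero).trans h
  have r1 := hcon a b rfl
  have r2 := hcon (-b) (a + b) (by unfold nm; ring)
  have r3 := hcon (-a - b) a (by unfold nm; ring)
  have e2 : 2 * -b + (a + b) = a - b := by ring
  have e3 : 2 * (-a - b) + a = -(a + 2 * b) := by ring
  rw [e2] at r2
  rw [e3, dvd_neg] at r3
  by_cases s1 : (p : ℤ) ∣ b
  · have s3 : ¬ (p : ℤ) ∣ a := fun h => hnot ⟨h, s1⟩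
    have h := hsq _ (r3 s3)
    exact s3 ((dvd_add_left (s1.mul_left 2)).1 h)
  · by_cases s3 : (p : ℤ) ∣ a
    · have h := hsq _ (r1 s1)
      exact s1 ((dvd_add_right (s3.mul_left 2)).1 h)
    · by_cases s2 : (p : ℤ) ∣ a + b
      · have h := hsq _ (r1 s1)
        have e : 2 * a + b = a + (a + b) := by ring
        rw [e] at h
        exact s3 ((dvd_add_left s2).1 h)
      · have h1 := r1 s1
        have h2 := r2 s2
        have h3 : (p : ℤ) ^ 2 ∣ 3 * a := by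
          have e : 3 * a = (2 * a + b) + (a - b) := by ring
          rw [e]
          exact dvd_add h1 h2
        apply s3
        by_cases hp3 : p = 3
        · subst hp3
          push_cast at h3 ⊢
          omega
        · rcases hpp.dvd_or_dvd (hsq _ h3) with h | h
          · have : p ∣ 3 := by exact_mod_cast h
            exact absurd ((Nat.prime_dvd_prime_iff_eq hp Nat.prime_three).1 this) hp3
          · exact h

/-- local solutions -/
theorem local_sol {p : ℕ} (hp : p.Prime) {a b : ℤ} (hab : IsCoprime a b) {a0 β : ℤ}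
    (ha0 : a0 ≠ 0) {L : ℕ} (hL : (2 * a0).natAbs + 2 ≤ L) :
    ∃ c M : ℤ, (p : ℤ) ^ L ∣ M ^ 2 + M + 1 - c ^ 2 * nm a b ∧
      ¬ (p : ℤ) ^ L ∣ c * β - a0 * (2 * M + 1) := by
  have hpp := Nat.prime_iff_prime_int.1 hp
  obtain ⟨a', b', h1, h2, h3⟩ := rot hp hab
  have hco : IsCoprime b' ((p : ℤ) ^ L) :=
    (((Prime.coprime_iff_not_dvd hpp).2 h2).symm).pow_right
  obtain ⟨c, y, hcy⟩ := hco
  set M := c * a' with hM
  have hE : (p : ℤ) ^ L ∣ M ^ 2 + M + 1 - c ^ 2 * nm a b := by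
    rw [← h1]
    refine ⟨y * (M + 2 - y * (p : ℤ) ^ L), ?_⟩
    unfold nm
    rw [hM]
    linear_combination (y * (p : ℤ) ^ L - c * a' - 1 - c * b') * hcy
  have hc : ¬ (p : ℤ) ∣ c := by
    intro hd
    have hL0 : L ≠ 0 := by omega
    have h5 : (p : ℤ) ∣ 1 := by
      rw [← hcy]
      exact dvd_add (hd.mul_right _) ((dvd_pow_self _ hL0).mul_left _)
    exact hpp.not_isUnit (isUnit_of_dvd_one h5)
  have h2M : ¬ (p : ℤ) ^ 2 ∣ 2 * M + 1 := by
    intro hd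
    apply h3
    have h4 : (p : ℤ) ^ 2 ∣ c * (2 * a' + b') := by
      have e : c * (2 * a' + b') = (2 * M + 1) - y * (p : ℤ) ^ L := by
        rw [hM]
        linear_combination hcy
      rw [e]
      exact dvd_sub hd ((pow_dvd_pow _ (by omega)).mul_left _)
    have hcop : IsCoprime ((p : ℤ) ^ 2) c := ((Prime.coprime_iff_not_dvd hpp).2 hc).pow_left
    exact hcop.dvd_of_dvd_mul_left h4
  have hbig : ¬ (p : ℤ) ^ L ∣ 2 * a0 * (2 * M + 1) := by
    intro hd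
    have hsmall : ¬ (p : ℤ) ^ ((2 * a0).natAbs + 1) ∣ 2 * a0 := by
      intro h
      have h5 := Int.natAbs_dvd_natAbs.2 h
      rw [Int.natAbs_pow, Int.natAbs_natCast] at h5
      have h6 : 2 * a0 ≠ 0 := mul_ne_zero two_ne_zero ha0
      have h7 := Nat.le_of_dvd (Int.natAbs_pos.2 h6) h5
      have h8 : (2 * a0).natAbs + 1 < p ^ ((2 * a0).natAbs + 1) := Nat.lt_pow_self hp.one_lt
      omega
    apply hsmall
    by_cases hd1 : (p : ℤ) ∣ 2 * M + 1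
    · obtain ⟨t, ht⟩ := hd1
      have htp : ¬ (p : ℤ) ∣ t := by
        rintro ⟨s, rfl⟩
        exact h2M ⟨s, by rw [ht]; ring⟩
      have h5 : (p : ℤ) * (p : ℤ) ^ ((2 * a0).natAbs + 1) ∣ (p : ℤ) * (2 * a0 * t) := by
        rw [← pow_succ']
        refine (pow_dvd_pow _ (by omega : (2 * a0).natAbs + 1 + 1 ≤ L)).trans ?_
        have e : (p : ℤ) * (2 * a0 * t) = 2 * a0 * (2 * M + 1) := by rw [ht]; ring
        rw [e]
        exact hd
      have h6 := (mul_dvd_mul_iff_left hpp.ne_zero).1 h5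
      exact (((Prime.coprime_iff_not_dvd hpp).2 htp).pow_left).dvd_of_dvd_mul_right h6
    · have h5 := (((Prime.coprime_iff_not_dvd hpp).2 hd1).pow_left (m := L)).dvd_of_dvd_mul_right hd
      exact (pow_dvd_pow _ (by omega)).trans h5
  by_cases hs : (p : ℤ) ^ L ∣ c * β - a0 * (2 * M + 1)
  · refine ⟨-c, M, ?_, fun h => hbig ?_⟩
    · have e : (-c) ^ 2 = c ^ 2 := by ring
      rw [e]
      exact hE
    · have e : 2 * a0 * (2 * M + 1) =
          -((c * β - a0 * (2 * M + 1)) + (-c * β - a0 * (2 * M + 1))) := by ring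
      rw [e, dvd_neg]
      exact dvd_add hs h
  · exact ⟨c, M, hE, hs⟩

/-- **Values of the form `n ^ 2 + n + 1`.** -/
theorem gs_core {M : Type*} [AddCommGroup M] (Q : QF M) {v0 : M} {a0 : ℤ}
    (h0 : Q.f v0 = a0 ^ 2) (ha0 : a0 ≠ 0) {u1 u2 : M} (h1 : Q.b v0 u1 = 0) (h2 : Q.b v0 u2 = 0)
    (h12 : Q.b u1 u2 = 0) (hf1 : Q.f u1 ≠ 0) (hf2 : Q.f u2 ≠ 0) {v : M} {a b : ℤ}
    (hv : Q.f v = nm a b) (hab : IsCoprime a b) :
    ∃ (w : M) (n : ℤ), Q.f w = n ^ 2 + n + 1 := by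
  classical
  set F := nm a b with hF
  set β := Q.b v0 v with hβ
  set L := (2 * a0).natAbs + 2 with hL
  have h2a0 : 2 * a0 ≠ 0 := mul_ne_zero two_ne_zero ha0
  -- the bad primes
  set S : Finset ℕ := (2 * a0).natAbs.primeFactors with hS
  have hSp : ∀ p ∈ S, p.Prime := fun p hp => Nat.prime_of_mem_primeFactors hp
  have hS2 : ∀ p : ℕ, p.Prime → (p : ℤ) ∣ 2 * a0 → p ∈ S := by
    intro p hp hd
    refine Nat.mem_primeFactors.2 ⟨hp, ?_, Int.natAbs_ne_zero.2 h2a0⟩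
    have := Int.natAbs_dvd_natAbs.2 hd
    rwa [Int.natAbs_natCast] at this
  have hloc : ∀ p ∈ S, ∃ c m : ℤ, (p : ℤ) ^ L ∣ m ^ 2 + m + 1 - c ^ 2 * F ∧
      ¬ (p : ℤ) ^ L ∣ c * β - a0 * (2 * m + 1) := fun p hp =>
    local_sol (hSp p hp) hab ha0 le_rfl
  choose! cp mp hcm1 hcm2 using hloc
  obtain ⟨c, hc⟩ := crt S hSp L cp
  obtain ⟨m, hm⟩ := crt S hSp L mp
  have hE : ∀ p ∈ S, (p : ℤ) ^ L ∣ m ^ 2 + m + 1 - c ^ 2 * F := by
    intro p hp
    obtain ⟨x, hx⟩ := hc p hp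
    obtain ⟨y, hy⟩ := hm p hp
    obtain ⟨z, hz⟩ := hcm1 p hp
    rw [smul_eq_mul] at hx hy
    rw [hx, hy]
    refine ⟨z + 2 * mp p * y + (p : ℤ) ^ L * y ^ 2 + y - 2 * cp p * x * F
      - (p : ℤ) ^ L * x ^ 2 * F, ?_⟩
    linear_combination hz
  have hD : ∀ p ∈ S, ¬ (p : ℤ) ^ L ∣ c * β - a0 * (2 * m + 1) := by
    intro p hp hd
    obtain ⟨x, hx⟩ := hc p hp
    obtain ⟨y, hy⟩ := hm p hp
    rw [smul_eq_mul] at hx hy
    apply hcm2 p hp
    have e : cp p * β - a0 * (2 * mp p + 1) = (c * β - a0 * (2 * m + 1)) -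
        (p : ℤ) ^ L * (x * β - a0 * (2 * y)) := by
      rw [hx, hy]
      ring
    rw [e]
    exact dvd_sub hd (dvd_mul_right _ _)
  set P : ℤ := ∏ p ∈ S, (p : ℤ) ^ L with hP
  have hP0 : P ≠ 0 := prod_ne_zero_iff.2 fun p hp => pow_ne_zero _ (by
    exact_mod_cast (hSp p hp).ne_zero)
  have hPE : P ∣ m ^ 2 + m + 1 - c ^ 2 * F := by
    refine Finset.prod_dvd_of_coprime ?_ hE
    intro p hp q hq hpq
    have h1 : Nat.Coprime p q := (Nat.coprime_primes (hSp p hp) (hSp q hq)).2 hpq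
    exact (Nat.isCoprime_iff_coprime.2 h1).pow
  set D1 : ℤ := c * β - a0 * (2 * m + 1) with hD1
  set N0 : ℤ := 2 * a0 * P with hN0
  have hN00 : N0 ≠ 0 := mul_ne_zero h2a0 hP0
  have h2S : 2 ∈ S := hS2 2 Nat.prime_two (by push_cast; exact dvd_mul_right _ _)
  have hD10 : D1 ≠ 0 := fun h => hD 2 h2S (by rw [h]; exact dvd_zero _)
  set G : ℕ := Int.gcd D1 N0 with hG
  have hG0 : G ≠ 0 := fun h => hN00 (Int.eq_zero_of_gcd_eq_zero_right h)
  have hGP : (G : ℤ) ∣ P := by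
    rw [Int.natCast_dvd, Nat.dvd_iff_prime_pow_dvd_dvd]
    intro p k hp hk
    rcases Nat.eq_zero_or_pos k with rfl | hk0
    · rw [pow_zero]; exact one_dvd _
    have hk1 : (p : ℤ) ^ k ∣ D1 := by
      have : ((p ^ k : ℕ) : ℤ) ∣ D1 := (Int.natCast_dvd_natCast.2 hk).trans (Int.gcd_dvd_left _ _)
      exact_mod_cast this
    have hk2 : (p : ℤ) ^ k ∣ N0 := by
      have : ((p ^ k : ℕ) : ℤ) ∣ N0 := (Int.natCast_dvd_natCast.2 hk).trans (Int.gcd_dvd_right _ _)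
      exact_mod_cast this
    have hpp := Nat.prime_iff_prime_int.1 hp
    have hpS : p ∈ S := by
      have h5 : (p : ℤ) ∣ N0 := (dvd_pow_self _ hk0.ne').trans hk2
      rcases hpp.dvd_or_dvd h5 with h | h
      · exact hS2 p hp h
      · obtain ⟨q, hq, hdq⟩ := (Prime.dvd_finsetProd_iff hpp _).1 h
        have h6 := hpp.dvd_of_dvd_pow hdq
        have h7 : p ∣ q := by exact_mod_cast h6
        rw [(Nat.prime_dvd_prime_iff_eq hp (hSp q hq)).1 h7]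
        exact hq
    have hkL : k ≤ L := by
      by_contra hcon
      exact hD p hpS ((pow_dvd_pow _ (by omega)).trans hk1)
    have h8 : (p : ℤ) ^ k ∣ P := (pow_dvd_pow _ hkL).trans (dvd_prod_of_mem _ hpS)
    have := Int.natAbs_dvd_natAbs.2 h8
    rwa [Int.natAbs_pow, Int.natAbs_natCast] at this
  obtain ⟨D', hD'⟩ : (G : ℤ) ∣ D1 := Int.gcd_dvd_left _ _
  obtain ⟨N', hN'⟩ : (G : ℤ) ∣ N0 := Int.gcd_dvd_right _ _
  have hGz : (G : ℤ) ≠ 0 := by exact_mod_cast hG0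
  have hcop : IsCoprime D' N' := by
    refine ⟨Int.gcdA D1 N0, Int.gcdB D1 N0, ?_⟩
    apply mul_left_cancel₀ hGz
    have hb := Int.gcd_eq_gcd_ab D1 N0
    calc (G : ℤ) * (Int.gcdA D1 N0 * D' + Int.gcdB D1 N0 * N')
        = ((G : ℤ) * D') * Int.gcdA D1 N0 + ((G : ℤ) * N') * Int.gcdB D1 N0 := by ring
      _ = D1 * Int.gcdA D1 N0 + N0 * Int.gcdB D1 N0 := by rw [← hD', ← hN']
      _ = (G : ℤ) * 1 := by rw [← hb, mul_one]
  have hN'0 : N' ≠ 0 := by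
    rintro rfl
    exact hN00 (by rw [hN', mul_zero])
  -- the prime
  have hNe : NeZero N'.natAbs := ⟨Int.natAbs_ne_zero.2 hN'0⟩
  have hunit : IsUnit ((D' : ℤ) : ZMod N'.natAbs) := by
    have h5 : IsCoprime D' ((N'.natAbs : ℕ) : ℤ) :=
      IsCoprime.of_isCoprime_of_dvd_right hcop (Int.natAbs_dvd.2 dvd_rfl)
    exact (ZMod.coe_int_isUnit_iff_isCoprime D' N'.natAbs).2 h5.symm
  obtain ⟨q, hqgt, hq, hqD⟩ := Nat.forall_exists_prime_gt_and_eq_mod hunit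
    (2 + G + P.natAbs + (Q.f u1).natAbs + (Q.f u2).natAbs)
  obtain ⟨t, ht⟩ : N' ∣ (q : ℤ) - D' := by
    have h5 : ((N'.natAbs : ℕ) : ℤ) ∣ (q : ℤ) - D' := by
      rw [← ZMod.intCast_zmod_eq_zero_iff_dvd]
      push_cast
      rw [hqD, sub_self]
    exact (Int.dvd_natAbs.2 dvd_rfl).trans h5
  have hqq := Nat.prime_iff_prime_int.1 hq
  have hqn : ∀ z : ℤ, z ≠ 0 → z.natAbs < q → ¬ (q : ℤ) ∣ z := by
    intro z hz hlt hd
    have h5 := Int.natAbs_dvd_natAbs.2 hd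
    rw [Int.natAbs_natCast] at h5
    exact absurd (Nat.le_of_dvd (Int.natAbs_pos.2 hz) h5) (by omega)
  have hqP : ¬ (q : ℤ) ∣ P := hqn P hP0 (by omega)
  have hqf1 : ¬ (q : ℤ) ∣ Q.f u1 := hqn _ hf1 (by omega)
  have hqf2 : ¬ (q : ℤ) ∣ Q.f u2 := hqn _ hf2 (by omega)
  have hqG : ¬ (q : ℤ) ∣ G := hqn _ hGz (by rw [Int.natAbs_natCast]; omega)
  set m' : ℤ := m - P * t with hm'
  have hDq : c * β - a0 * (2 * m' + 1) = G * q := by
    have e : c * β - a0 * (2 * m' + 1) = D1 + N0 * t := by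
      rw [hD1, hN0, hm']
      ring
    rw [e, hD', hN']
    linear_combination (-(G : ℤ)) * ht
  -- the equation modulo `q`
  have : Fact q.Prime := ⟨hq⟩
  have hPz : ((P : ℤ) : ZMod q) ≠ 0 := fun h => hqP ((ZMod.intCast_zmod_eq_zero_iff_dvd _ _).1 h)
  have hf1z : ((Q.f u1 : ℤ) : ZMod q) ≠ 0 := fun h =>
    hqf1 ((ZMod.intCast_zmod_eq_zero_iff_dvd _ _).1 h)
  have hf2z : ((Q.f u2 : ℤ) : ZMod q) ≠ 0 := fun h =>
    hqf2 ((ZMod.intCast_zmod_eq_zero_iff_dvd _ _).1 h)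
  set E1 : ℤ := m' ^ 2 + m' + 1 - c ^ 2 * F with hE1
  obtain ⟨x, y, hxy⟩ : ∃ x y : ℤ, (q : ℤ) ∣ E1 - x ^ 2 * P ^ 2 * Q.f u1 - x * (c * P * Q.b v u1)
      - y ^ 2 * P ^ 2 * Q.f u2 - y * (c * P * Q.b v u2) := by
    have hcard : Fintype.card (ZMod q) % 2 = 1 := by
      rw [ZMod.card]
      exact hq.eq_two_or_odd.resolve_left (by omega)
    set A1 : ZMod q := -((P : ZMod q) ^ 2 * (Q.f u1 : ZMod q)) with hA1
    set A2 : ZMod q := -((P : ZMod q) ^ 2 * (Q.f u2 : ZMod q)) with hA2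
    have hA1' : A1 ≠ 0 := neg_ne_zero.2 (mul_ne_zero (pow_ne_zero 2 hPz) hf1z)
    have hA2' : A2 ≠ 0 := neg_ne_zero.2 (mul_ne_zero (pow_ne_zero 2 hPz) hf2z)
    obtain ⟨x, y, hxy⟩ := FiniteField.exists_root_sum_quadratic
      (f := Polynomial.C A1 * Polynomial.X ^ 2 +
        Polynomial.C (-((c * P * Q.b v u1 : ℤ) : ZMod q)) * Polynomial.X +
        Polynomial.C ((E1 : ℤ) : ZMod q))
      (g := Polynomial.C A2 * Polynomial.X ^ 2 +
        Polynomial.C (-((c * P * Q.b v u2 : ℤ) : ZMod q)) * Polynomial.X +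
        Polynomial.C 0)
      (Polynomial.degree_quadratic hA1') (Polynomial.degree_quadratic hA2') hcard
    obtain ⟨x', rfl⟩ := ZMod.intCast_surjective x
    obtain ⟨y', rfl⟩ := ZMod.intCast_surjective y
    refine ⟨x', y', ?_⟩
    rw [← ZMod.intCast_zmod_eq_zero_iff_dvd]
    simp only [Polynomial.eval_add, Polynomial.eval_mul, Polynomial.eval_C, Polynomial.eval_pow,
      Polynomial.eval_X] at hxy
    rw [hA1, hA2] at hxy
    push_cast at hxy ⊢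
    linear_combination hxy
  -- the vector
  set u : M := c • v + ((x * P) • u1 + (y * P) • u2) with hu
  have hfu : Q.f u = c ^ 2 * F + x ^ 2 * P ^ 2 * Q.f u1 + x * (c * P * Q.b v u1)
      + y ^ 2 * P ^ 2 * Q.f u2 + y * (c * P * Q.b v u2) := by
    rw [hu, Q.f_add, Q.f_smul, Q.f_lin, Q.b_add', Q.b_smul, Q.b_smul', Q.b_smul, Q.b_smul', h12, hv]
    ring
  have hbu : Q.b v0 u = c * β := by
    rw [hu, Q.b_add', Q.b_add', Q.b_smul', Q.b_smul', Q.b_smul', h1, h2]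
    ring
  have hdiv : (G : ℤ) * q ∣ m' ^ 2 + m' + 1 - Q.f u := by
    have hco : IsCoprime (G : ℤ) (q : ℤ) := ((Prime.coprime_iff_not_dvd hqq).2 hqG).symm
    refine hco.mul_dvd (hGP.trans ?_) ?_
    · have e : m' ^ 2 + m' + 1 - Q.f u = (m ^ 2 + m + 1 - c ^ 2 * F) + P * (-2 * m * t + P * t ^ 2
          - t - x ^ 2 * P * Q.f u1 - x * (c * Q.b v u1) - y ^ 2 * P * Q.f u2
          - y * (c * Q.b v u2)) := by
        rw [hfu, hm']
        ring
      rw [e]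
      exact dvd_add hPE (dvd_mul_right _ _)
    · rw [hfu]
      have e : m' ^ 2 + m' + 1 - (c ^ 2 * F + x ^ 2 * P ^ 2 * Q.f u1 + x * (c * P * Q.b v u1)
          + y ^ 2 * P ^ 2 * Q.f u2 + y * (c * P * Q.b v u2)) =
          E1 - x ^ 2 * P ^ 2 * Q.f u1 - x * (c * P * Q.b v u1)
          - y ^ 2 * P ^ 2 * Q.f u2 - y * (c * P * Q.b v u2) := by
        rw [hE1]
        ring
      rw [e]
      exact hxy
  obtain ⟨s, hs⟩ := hdiv
  refine ⟨u + s • v0, m' + a0 * s, ?_⟩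
  rw [Q.f_add, Q.f_smul, Q.b_smul', Q.b_comm, hbu, h0]
  linear_combination (-1 : ℤ) * hs + s * hDq

end Pool.Agent.N801.CF
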