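import Pool.Agent.N801.CF.Orth

/-!
# The local-global principle for associated K3 surfaces
-/

set_option autoImplicit false

namespace Pool.Agent.N801.CF

open Pool.Agent.Y95.Q Pool.Agent.Y95.Q.H4 Pool.Agent.X328.CF Module

variable {X : CubicFourfold} {H : H4 X}

/-- a number whose prime factors are congruent to `1` modulo `3` -/
theorem mod_three_of_primes {n : ℕ} (hn : n ≠ 0) (h : ∀ p, p.Prime → p ∣ n → p % 3 = 1) :
    n % 3 = 1 := by
  induction n using Nat.recOnPosPrimePosCoprime with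
  | prime_pow p k hp hk =>
    have h1 := h p hp (dvd_pow_self p hk.ne')
    rw [Nat.pow_mod, h1]
    norm_num
  | zero => exact absurd rfl hn
  | one => norm_num
  | coprime a b ha hb _ iha ihb =>
    have h1 := iha (by omega) fun p hp hd => h p hp (hd.mul_right _)
    have h2 := ihb (by omega) fun p hp hd => h p hp (hd.mul_left _)
    rw [Nat.mul_mod, h1, h2]

theorem admAt_of_adm {d : ℤ} (hd2 : d % 2 = 0) (h : Admissible d) {p : ℕ} (hpr : p.Prime) :
    AdmissibleAt p d := by
  obtain ⟨h6, h4, h9, hp⟩ := h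
  refine ⟨fun _ => h4, fun _ => ?_, fun hp2 hp3 hpd => hp p hpr hp2 hpd hp3⟩
  by_cases h3 : (3 : ℤ) ∣ d
  · right
    obtain ⟨k, hk⟩ : ∃ k, d = 6 * k := ⟨d / 6, by omega⟩
    have hk2 : k % 2 = 1 := by omega
    have hk3 : k % 3 ≠ 0 := by omega
    have hk0 : 0 < k := by omega
    have hkn : (k.toNat : ℤ) = k := Int.toNat_of_nonneg hk0.le
    have h1 : k.toNat % 3 = 1 := by
      apply mod_three_of_primes (by omega)
      intro q hq hqd
      have hqk : (q : ℤ) ∣ k := by
        rw [← hkn]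
        exact_mod_cast hqd
      have hq2 : q ≠ 2 := by
        rintro rfl
        push_cast at hqk
        omega
      have hq3 : q ≠ 3 := by
        rintro rfl
        push_cast at hqk
        omega
      have h2 := hp q hq hq2 (by rw [hk]; exact hqk.mul_left _)
      have h3 : q % 3 ≠ 0 := fun h =>
        hq3 ((Nat.prime_dvd_prime_iff_eq Nat.prime_three hq).1 (Nat.dvd_of_mod_eq_zero h)).symm
      omega
    omega
  · left
    exact h3

/-- twice a norm is admissible at the primes whose square does not divide it -/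
theorem admAt_of_norm {d a b : ℤ} (hd : d = 2 * (a ^ 2 + a * b + b ^ 2)) {p : ℕ}
    (hp : p.Prime) (hpd : ¬ (p : ℤ) ^ 2 ∣ d) : AdmissibleAt p d := by
  refine ⟨fun h2 => ?_, fun h3 => ?_, fun h2 h3 h => ?_⟩
  · subst h2
    intro h4
    apply hpd
    norm_num
    exact h4
  · subst h3
    by_cases h3d : (3 : ℤ) ∣ d
    · right
      have h9 : ¬ (9 : ℤ) ∣ d := by
        intro h9
        apply hpd
        norm_num
        exact h9
      have hab : (a - b) % 3 = 0 := by
        have e : (a - b) * (a - b) = (a ^ 2 + a * b + b ^ 2) - 3 * (a * b) := by ring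
        have h1 : (3 : ℤ) ∣ (a - b) * (a - b) := by
          rw [e]
          refine dvd_sub ?_ (dvd_mul_right _ _)
          omega
        rcases Int.prime_three.dvd_or_dvd h1 with h | h <;> omega
      obtain ⟨t, ht⟩ : ∃ t, a = b + 3 * t := ⟨(a - b) / 3, by omega⟩
      subst ht
      have e : d = 6 * (b ^ 2 + 3 * (b * t + t ^ 2)) := by rw [hd]; ring
      have hb : ¬ (3 : ℤ) ∣ b := by
        rintro ⟨s, rfl⟩
        apply h9
        rw [e]
        exact ⟨2 * (3 * s ^ 2 + (3 * s * t + t ^ 2)), by ring⟩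
      have hb2 : b ^ 2 % 3 = 1 := by
        have h1 : b % 3 = 1 ∨ b % 3 = 2 := by omega
        rw [pow_two, Int.mul_emod]
        rcases h1 with h | h <;> rw [h] <;> norm_num
      generalize b * t + t ^ 2 = s at e
      omega
    · left
      exact h3d
  · apply hpd
    have hpp := Nat.prime_iff_prime_int.1 hp
    rw [hd] at h ⊢
    rcases hpp.dvd_or_dvd h with h | h
    · have : p ∣ 2 := by exact_mod_cast h
      exact absurd ((Nat.prime_dvd_prime_iff_eq hp Nat.prime_two).1 this) h2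
    · obtain ⟨⟨s, rfl⟩, ⟨t, rfl⟩⟩ := inert hp h3 (a := a) (b := b) h
      exact ⟨2 * (s ^ 2 + s * t + t ^ 2), by ring⟩

/-- a Hodge class with positive discriminant gives rank two -/
theorem two_le_rank (hH : H.IsCohomology) {v : Fin 23 → ℤ} (hv : H.IsHodge v)
    (h0 : 0 < H.disc v) : 2 ≤ H.rank := by
  have hh0 : H.h ≠ 0 := by
    intro h
    have := hH.h_self
    rw [h, ip_zero_left] at this
    norm_num at this
  let w0 : H.hodge := ⟨H.h, hH.h_hodge⟩
  have hw0 : w0 ≠ 0 := fun h => hh0 (congrArg Subtype.val h)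
  have hu : H.IsHodge ((3 : ℤ) • v - H.ip H.h v • H.h) :=
    H.isHodge_sub (H.isHodge_smul _ hv) (H.isHodge_smul _ hH.h_hodge)
  have h3 : H.ip ((3 : ℤ) • v - H.ip H.h v • H.h) ((3 : ℤ) • v - H.ip H.h v • H.h) =
      3 * H.disc v := by
    simp only [disc, ip_sub_left, ip_sub_right, ip_smul_left, ip_smul_right, hH.h_self,
      hH.comm v H.h]
    ring
  have h4 : H.ip ((3 : ℤ) • v - H.ip H.h v • H.h) H.h = 0 := by
    simp only [ip_sub_left, ip_smul_left, hH.h_self, hH.comm v H.h]
    ring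
  let w1 : H.hodge := ⟨_, hu⟩
  have hw1 : w1 ≠ 0 := by
    intro h
    have h5 : (3 : ℤ) • v - H.ip H.h v • H.h = 0 := congrArg Subtype.val h
    rw [h5, ip_zero_left] at h3
    omega
  have hli := orth_indep hH (k := 2) (w := ![w0, w1]) (by
    intro i
    fin_cases i
    · exact hw0
    · exact hw1) (by
    intro i j hij
    fin_cases i <;> fin_cases j
    · exact absurd rfl hij
    · show H.ip H.h _ = 0
      rw [hH.comm]
      exact h4
    · exact h4
    · exact absurd rfl hij)
  have := hli.fintype_card_le_finrank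
  rw [Fintype.card_fin] at this
  rw [H.rank_eq]
  exact this

/-- **The local-global principle.** -/
theorem hasK3_iff (hH : H.IsCohomology) : H.HasK3 ↔ 2 ≤ H.rank ∧
    ∀ p : ℕ, p.Prime → ∃ v, H.IsHodge v ∧ AdmissibleAt p (H.disc v) := by
  constructor
  · rintro ⟨v, hv, -, hadm⟩
    refine ⟨two_le_rank hH hv (by have := hadm.1; omega), fun p hp => ⟨v, hv, ?_⟩⟩
    exact admAt_of_adm (disc_even hH v) hadm hp
  · rintro ⟨hr, hloc⟩
    rw [H.rank_eq] at hr
    obtain ⟨v, hv, h0, a, b, hab⟩ := exists_twisted hH hr fun p hp _ => hloc p hp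
    exact hasK3_of_local hH hv h0 hab fun p hp _ _ => hloc p hp

/-- only the primes whose square divides the discriminant of a twisted class are relevant -/
theorem hasK3_iff_of_norm (hH : H.IsCohomology) {v : Fin 23 → ℤ} (hv : H.IsHodge v)
    (h0 : 0 < H.disc v) {a b : ℤ} (hab : H.disc v = 2 * (a ^ 2 + a * b + b ^ 2)) :
    H.HasK3 ↔ ∀ p : ℕ, p.Prime → p % 3 ≠ 1 → (p : ℤ) ^ 2 ∣ H.disc v →
      ∃ w, H.IsHodge w ∧ AdmissibleAt p (H.disc w) := by
  constructor
  · intro h p hp _ _
    exact ((hasK3_iff hH).1 h).2 p hp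
  · intro h
    refine hasK3_of_local hH hv h0 hab fun p hp h3 _ => ?_
    by_cases hpd : (p : ℤ) ^ 2 ∣ H.disc v
    · exact h p hp h3 hpd
    · exact ⟨v, hv, admAt_of_norm hab hp hpd⟩

/-- two twisted classes of coprime orders -/
theorem hasK3_of_two (hH : H.IsCohomology) {v w : Fin 23 → ℤ} (hv : H.IsHodge v)
    (hw : H.IsHodge w) (h0 : 0 < H.disc v) {a b c d : ℤ}
    (hab : H.disc v = 2 * (a ^ 2 + a * b + b ^ 2)) (hcd : H.disc w = 2 * (c ^ 2 + c * d + d ^ 2))
    (hco : ∀ p : ℕ, p.Prime → p % 3 ≠ 1 → (p : ℤ) ^ 2 ∣ H.disc v → ¬ (p : ℤ) ^ 2 ∣ H.disc w) :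
    H.HasK3 := by
  rw [hasK3_iff_of_norm hH hv h0 hab]
  intro p hp h3 hd
  exact ⟨w, hw, admAt_of_norm hcd hp (hco p hp h3 hd)⟩

/-- cubic fourfolds with a plane -/
theorem hasK3_iff_of_plane (hH : H.IsCohomology) (hP : Nonempty X.Plane) :
    H.HasK3 ↔ ∃ v, H.IsHodge v ∧ ¬ 4 ∣ H.disc v := by
  obtain ⟨P⟩ := hP
  obtain ⟨h1, h2, h3⟩ := (hH.cl_range (H.cl P)).1 ⟨P, rfl⟩
  have hd : H.disc (H.cl P) = 8 := by
    rw [disc, hH.comm H.h, h2, h3]
    norm_num
  rw [hasK3_iff_of_norm hH h1 (by omega) (a := 2) (b := 0) (by rw [hd]; norm_num)]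
  constructor
  · intro h
    obtain ⟨w, hw, hadm⟩ := h 2 Nat.prime_two (by norm_num) (by rw [hd]; norm_num)
    exact ⟨w, hw, hadm.1 rfl⟩
  · rintro ⟨w, hw, h4⟩ p hp h3 hpd
    have hp2 : p = 2 := by
      rw [hd] at hpd
      have hpp := Nat.prime_iff_prime_int.1 hp
      have h5 : (p : ℤ) ∣ 2 ^ 3 := (dvd_pow_self _ two_ne_zero).trans (by norm_num; exact hpd)
      have h6 : (p : ℤ) ∣ 2 := hpp.dvd_of_dvd_pow h5
      have h7 : p ∣ 2 := by exact_mod_cast h6
      exact (Nat.prime_dvd_prime_iff_eq hp Nat.prime_two).1 h7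
    subst hp2
    exact ⟨w, hw, fun _ => h4, fun h => absurd h (by norm_num), fun h => absurd rfl h⟩

/-- cubic fourfolds with a plane and a small discriminant which is not divisible by four -/
theorem rational_of_small (hH : H.IsCohomology) (hR : KnownRational H) (hP : Nonempty X.Plane)
    {v : Fin 23 → ℤ} (hv : H.IsHodge v) (h4 : ¬ 4 ∣ H.disc v) (hle : H.disc v ≤ 42) :
    X.IsRational := by
  obtain ⟨P⟩ := hP
  obtain ⟨p1, p2, p3⟩ := (hH.cl_range (H.cl P)).1 ⟨P, rfl⟩
  have hn := disc_nonneg hH hv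
  have h0 : 0 < H.disc v := by
    rcases hn.lt_or_eq with h | h
    · exact h
    · rw [← h] at h4
      exact absurd (dvd_zero _) h4
  obtain ⟨T, m, hm, hT, hsat, hd⟩ := exists_sat hH hv h0
  have hT0 : 0 < H.disc T := by
    rw [hd] at h0
    exact (mul_pos_iff_of_pos_left (by positivity)).1 h0
  have hT6 := hH.six_lt hT hT0
  have hT4 : ¬ 4 ∣ H.disc T := fun h => h4 (by rw [hd]; exact h.mul_left _)
  have hTle : H.disc T ≤ 42 := by
    have hm1 : 1 ≤ m ^ 2 := by nlinarith
    have : H.disc T ≤ m ^ 2 * H.disc T := le_mul_of_one_le_left hT0.le hm1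
    rw [← hd] at this
    omega
  have hT2 := disc_even hH T
  have hT3 := disc_mod_three (H := H) T
  have hcase : (H.disc T = 14 ∨ H.disc T = 26 ∨ H.disc T = 38 ∨ H.disc T = 42) ∨
      H.disc T = 18 ∨ H.disc T = 30 := by omega
  rcases hcase with hcase | hcase
  · exact hR T hT hsat hcase
  by_cases hodd : Odd (H.ip T (H.h - H.cl P))
  · exact hH.hassett P T hT hodd
  rw [Int.not_odd_iff_even, ip_sub_right] at hodd
  obtain ⟨s, hs⟩ := hodd
  have hTh : H.ip H.h T = H.ip T H.h := hH.comm _ _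
  have hd' : H.disc T = 3 * H.ip T T - H.ip T H.h ^ 2 := by rw [disc, hTh]
  have hy3 : H.ip T H.h % 3 = 0 := by
    have h5 : (3 : ℤ) ∣ H.ip T H.h ^ 2 := by
      rcases hcase with h | h
      · exact ⟨H.ip T T - 6, by omega⟩
      · exact ⟨H.ip T T - 10, by omega⟩
    have := Int.prime_three.dvd_of_dvd_pow h5
    omega
  obtain ⟨c, hc⟩ : ∃ c, 3 * H.ip T (H.cl P) - H.ip T H.h = 6 * c :=
    ⟨(3 * H.ip T (H.cl P) - H.ip T H.h) / 6, by omega⟩
  -- the discriminants of `T + k P`
  have key : ∀ k : ℤ, k ^ 2 = 1 → H.disc (T + k • H.cl P) = H.disc T + 8 + 12 * (k * c) := by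
    intro k hk
    have e1 := disc_sum hH T (k • H.cl P)
    rw [disc_smul, ip_smul_right, ip_smul_right, hk] at e1
    have e2 : H.disc (H.cl P) = 8 := by
      rw [disc, hH.comm H.h, p2, p3]
      norm_num
    rw [e1, e2, hTh, hH.comm H.h (H.cl P), p2]
    linear_combination (2 * k) * hc
  have fin : ∀ k : ℤ, k ^ 2 = 1 → k * c ≤ 0 → X.IsRational := by
    intro k hk hkc
    have e := key k hk
    have hu : H.IsHodge (T + k • H.cl P) := H.isHodge_add hT (H.isHodge_smul _ p1)
    have hn := disc_nonneg hH hu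
    have hpos : 0 < H.disc (T + k • H.cl P) := by omega
    have h6 := hH.six_lt hu hpos
    have hval : H.disc (T + k • H.cl P) = 14 ∨ H.disc (T + k • H.cl P) = 26 ∨
        H.disc (T + k • H.cl P) = 38 := by omega
    have hsq : Squarefree (H.disc (T + k • H.cl P)) := by
      have h14 : Squarefree (14 : ℤ) := by
        rw [← Int.squarefree_natAbs]; norm_num
        rw [show (14 : ℕ) = 2 * 7 from rfl, Nat.squarefree_mul_iff]
        exact ⟨by norm_num, Nat.prime_two.squarefree, (by norm_num : Nat.Prime 7).squarefree⟩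
      have h26 : Squarefree (26 : ℤ) := by
        rw [← Int.squarefree_natAbs]; norm_num
        rw [show (26 : ℕ) = 2 * 13 from rfl, Nat.squarefree_mul_iff]
        exact ⟨by norm_num, Nat.prime_two.squarefree, (by norm_num : Nat.Prime 13).squarefree⟩
      have h38 : Squarefree (38 : ℤ) := by
        rw [← Int.squarefree_natAbs]; norm_num
        rw [show (38 : ℕ) = 2 * 19 from rfl, Nat.squarefree_mul_iff]
        exact ⟨by norm_num, Nat.prime_two.squarefree, (by norm_num : Nat.Prime 19).squarefree⟩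
      rcases hval with h | h | h <;> rw [h] <;> assumption
    obtain ⟨w, hw, hws, hwd⟩ := sat_of_squarefree hH hu hpos hsq
    exact hR w hw hws (by rw [hwd]; tauto)
  rcases le_total c 0 with h | h
  · exact fin 1 (by norm_num) (by omega)
  · exact fin (-1) (by norm_num) (by omega)

end Pool.Agent.N801.CF
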