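import Pool.Agent.N801.CF.Gs
import Pool.Agent.N801.CF.GsDefs
import Pool.Agent.N801.CF.Main1

/-!
# The condition of Galkin and Shinder
-/

set_option autoImplicit false

namespace Pool.Agent.N801.CF

open Pool.Agent.Y95.Q Pool.Agent.Y95.Q.H4 Pool.Agent.X328.CF Module

variable {X : CubicFourfold} {H : H4 X}

/-- four variables: twice a square -/
theorem glob_sq {D1 D2 D3 D4 : ℤ} (h1 : 0 < D1) (h2 : 0 < D2) (h3 : 0 < D3) (h4 : 0 < D4) :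
    ∃ u x y z t : ℚ, u ^ 2 = D1 * x ^ 2 + D2 * y ^ 2 + D3 * z ^ 2 + D4 * t ^ 2 ∧ u ≠ 0 := by
  obtain ⟨x, hx, he⟩ := Pool.Agent.R847.QB.meyer Pool.Agent.R847.QB.iso_ Pool.Agent.R847.QB.dir_
    ![1, -D1, -D2, -D3, -D4] (by
    intro i
    fin_cases i <;> simp <;> omega) ⟨0, by simp⟩ ⟨1, by simpa using h1⟩
  simp only [Fin.sum_univ_five] at he
  simp at he
  refine ⟨x 0, x 1, x 2, x 3, x 4, by linear_combination he, ?_⟩
  have h1' : (0 : ℚ) < D1 := by exact_mod_cast h1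
  have h2' : (0 : ℚ) < D2 := by exact_mod_cast h2
  have h3' : (0 : ℚ) < D3 := by exact_mod_cast h3
  have h4' : (0 : ℚ) < D4 := by exact_mod_cast h4
  intro h0
  rw [h0] at he
  have p1 : 0 ≤ D1 * x 1 ^ 2 := by positivity
  have p2 : 0 ≤ D2 * x 2 ^ 2 := by positivity
  have p3 : 0 ≤ D3 * x 3 ^ 2 := by positivity
  have p4 : 0 ≤ D4 * x 4 ^ 2 := by positivity
  have z1 : x 1 = 0 := by
    have : D1 * x 1 ^ 2 = 0 := by nlinarith
    exact pow_eq_zero_iff (two_ne_zero) |>.1 ((mul_eq_zero.1 this).resolve_left h1'.ne')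
  have z2 : x 2 = 0 := by
    have : D2 * x 2 ^ 2 = 0 := by nlinarith
    exact pow_eq_zero_iff (two_ne_zero) |>.1 ((mul_eq_zero.1 this).resolve_left h2'.ne')
  have z3 : x 3 = 0 := by
    have : D3 * x 3 ^ 2 = 0 := by nlinarith
    exact pow_eq_zero_iff (two_ne_zero) |>.1 ((mul_eq_zero.1 this).resolve_left h3'.ne')
  have z4 : x 4 = 0 := by
    have : D4 * x 4 ^ 2 = 0 := by nlinarith
    exact pow_eq_zero_iff (two_ne_zero) |>.1 ((mul_eq_zero.1 this).resolve_left h4'.ne')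
  apply hx
  funext i
  fin_cases i
  · exact h0
  · exact z1
  · exact z2
  · exact z3
  · exact z4

/-- in rank five some discriminant is twice a square -/
theorem exists_square (hH : H.IsCohomology) (hr : 5 ≤ finrank ℤ H.hodge) :
    ∃ (v : Fin 23 → ℤ) (a : ℤ), H.IsHodge v ∧ a ≠ 0 ∧ H.disc v = 2 * a ^ 2 := by
  obtain ⟨w1, hw1, ho1⟩ := exists_orth (H := H) (k := 1) (by omega) ![H.h]
  have h10 : H.ip (w1 : Fin 23 → ℤ) H.h = 0 := ho1 0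
  obtain ⟨w2, hw2, ho2⟩ := exists_orth (H := H) (k := 2) (by omega) ![H.h, w1]
  have h20 : H.ip (w2 : Fin 23 → ℤ) H.h = 0 := ho2 0
  have h21 : H.ip (w2 : Fin 23 → ℤ) w1 = 0 := ho2 1
  obtain ⟨w3, hw3, ho3⟩ := exists_orth (H := H) (k := 3) (by omega) ![H.h, w1, w2]
  have h30 : H.ip (w3 : Fin 23 → ℤ) H.h = 0 := ho3 0
  have h31 : H.ip (w3 : Fin 23 → ℤ) w1 = 0 := ho3 1
  have h32 : H.ip (w3 : Fin 23 → ℤ) w2 = 0 := ho3 2
  obtain ⟨w4, hw4, ho4⟩ := exists_orth (H := H) (k := 4) (by omega) ![H.h, w1, w2, w3]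
  have h40 : H.ip (w4 : Fin 23 → ℤ) H.h = 0 := ho4 0
  have h41 : H.ip (w4 : Fin 23 → ℤ) w1 = 0 := ho4 1
  have h42 : H.ip (w4 : Fin 23 → ℤ) w2 = 0 := ho4 2
  have h43 : H.ip (w4 : Fin 23 → ℤ) w3 = 0 := ho4 3
  have hpos : ∀ w : H.hodge, w ≠ 0 → H.ip (w : Fin 23 → ℤ) H.h = 0 →
      0 < H.disc (w : Fin 23 → ℤ) / 2 := by
    intro w hw h0
    have hp : 0 < H.ip (w : Fin 23 → ℤ) w := hH.pos _ w.2 fun h => hw (Subtype.ext h)
    have hd := disc_prim hH h0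
    have hf := disc_half hH (w : Fin 23 → ℤ)
    omega
  have hf1 := disc_half hH (w1 : Fin 23 → ℤ)
  have hf2 := disc_half hH (w2 : Fin 23 → ℤ)
  have hf3 := disc_half hH (w3 : Fin 23 → ℤ)
  have hf4 := disc_half hH (w4 : Fin 23 → ℤ)
  obtain ⟨u, x, y, z, t, hux, hu⟩ := glob_sq (hpos w1 hw1 h10) (hpos w2 hw2 h20) (hpos w3 hw3 h30)
    (hpos w4 hw4 h40)
  obtain ⟨N, hN, c, hc⟩ := common ![u, x, y, z, t]
  have c0 : (N : ℚ) * u = c 0 := hc 0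
  have c1 : (N : ℚ) * x = c 1 := hc 1
  have c2 : (N : ℚ) * y = c 2 := hc 2
  have c3 : (N : ℚ) * z = c 3 := hc 3
  have c4 : (N : ℚ) * t = c 4 := hc 4
  have hN' : (N : ℚ) ≠ 0 := by exact_mod_cast hN.ne'
  have hc0 : c 0 ≠ 0 := by
    intro h
    rw [h] at c0
    rcases mul_eq_zero.1 (c0.trans (by norm_num)) with h | h
    · exact hN' h
    · exact hu h
  set D1 := H.disc (w1 : Fin 23 → ℤ) / 2
  set D2 := H.disc (w2 : Fin 23 → ℤ) / 2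
  set D3 := H.disc (w3 : Fin 23 → ℤ) / 2
  set D4 := H.disc (w4 : Fin 23 → ℤ) / 2
  have hq : c 0 ^ 2 = D1 * c 1 ^ 2 + D2 * c 2 ^ 2 + D3 * c 3 ^ 2 + D4 * c 4 ^ 2 := by
    have : ((c 0 : ℚ)) ^ 2 = D1 * (c 1 : ℚ) ^ 2 + D2 * (c 2 : ℚ) ^ 2 + D3 * (c 3 : ℚ) ^ 2
        + D4 * (c 4 : ℚ) ^ 2 := by
      rw [← c0, ← c1, ← c2, ← c3, ← c4]
      linear_combination (N : ℚ) ^ 2 * hux
    exact_mod_cast this
  refine ⟨c 1 • (w1 : Fin 23 → ℤ) + c 2 • (w2 : Fin 23 → ℤ) + c 3 • (w3 : Fin 23 → ℤ)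
    + c 4 • (w4 : Fin 23 → ℤ), c 0, H.isHodge_add (H.isHodge_add (H.isHodge_add
      (H.isHodge_smul _ w1.2) (H.isHodge_smul _ w2.2)) (H.isHodge_smul _ w3.2))
      (H.isHodge_smul _ w4.2), hc0, ?_⟩
  rw [hq]
  have h01 : H.ip H.h (w1 : Fin 23 → ℤ) = 0 := by rw [hH.comm]; exact h10
  have h02 : H.ip H.h (w2 : Fin 23 → ℤ) = 0 := by rw [hH.comm]; exact h20
  have h03 : H.ip H.h (w3 : Fin 23 → ℤ) = 0 := by rw [hH.comm]; exact h30
  have h04 : H.ip H.h (w4 : Fin 23 → ℤ) = 0 := by rw [hH.comm]; exact h40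
  have h12 : H.ip (w1 : Fin 23 → ℤ) w2 = 0 := by rw [hH.comm]; exact h21
  have h13 : H.ip (w1 : Fin 23 → ℤ) w3 = 0 := by rw [hH.comm]; exact h31
  have h14 : H.ip (w1 : Fin 23 → ℤ) w4 = 0 := by rw [hH.comm]; exact h41
  have h23 : H.ip (w2 : Fin 23 → ℤ) w3 = 0 := by rw [hH.comm]; exact h32
  have h24 : H.ip (w2 : Fin 23 → ℤ) w4 = 0 := by rw [hH.comm]; exact h42
  have h34 : H.ip (w3 : Fin 23 → ℤ) w4 = 0 := by rw [hH.comm]; exact h43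
  have hcomb : H.disc (c 1 • (w1 : Fin 23 → ℤ) + c 2 • (w2 : Fin 23 → ℤ) + c 3 • (w3 : Fin 23 → ℤ)
      + c 4 • (w4 : Fin 23 → ℤ)) = c 1 ^ 2 * H.disc (w1 : Fin 23 → ℤ)
      + c 2 ^ 2 * H.disc (w2 : Fin 23 → ℤ) + c 3 ^ 2 * H.disc (w3 : Fin 23 → ℤ)
      + c 4 ^ 2 * H.disc (w4 : Fin 23 → ℤ) := by
    simp only [disc, ip_add_left, ip_add_right, ip_smul_left, ip_smul_right, h01, h02, h03, h04,
      h12, h13, h14, h23, h24, h34, h21, h31, h32, h41, h42, h43]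
    ring
  rw [hcomb, hf1, hf2, hf3, hf4]
  ring

/-- the known direction -/
theorem hasK3_of_hilbertSquare (hH : H.IsCohomology) (h : HilbertSquare H) : H.HasK3 := by
  obtain ⟨d, ⟨a, n, han⟩, v, hv, hsat, rfl⟩ := h
  have h0 : 0 < H.disc v := by
    have h1 := disc_nonneg hH hv
    rcases h1.lt_or_eq with h | h
    · exact h
    · exfalso
      rw [← h, mul_zero] at han
      nlinarith [sq_nonneg (2 * n + 1)]
  exact ⟨v, hv, hsat, hH.six_lt hv h0, four_not_dvd han, nine_not_dvd han,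
    fun p hp hp2 hd => prime_mod han hp hp2 hd⟩

/-- **The condition of Galkin and Shinder.** -/
theorem hilbertSquare_of_hasK3 (hH : H.IsCohomology) (hr : 4 ≤ finrank ℤ H.hodge)
    {v0 : Fin 23 → ℤ} {a0 : ℤ} (hv0 : H.IsHodge v0) (ha0 : a0 ≠ 0)
    (hd0 : H.disc v0 = 2 * a0 ^ 2) (hK : H.HasK3) : HilbertSquare H := by
  -- the K3 class
  obtain ⟨v, hv, -, hadm⟩ := hK
  have hhalf := disc_half hH v
  have hpos : 0 < H.disc v / 2 := by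
    have := hadm.1
    omega
  obtain ⟨a, b, hab, hco⟩ := prim_good hpos fun p hp h3 =>
    good_of_adm hH hp h3 (admAt_of_adm (disc_even hH v) hadm hp)
  -- the orthogonal classes
  obtain ⟨u1, hu1, ho1⟩ := exists_orth (H := H) (k := 2) (by omega) ![H.h, v0]
  have h10 : H.ip (u1 : Fin 23 → ℤ) H.h = 0 := ho1 0
  have h1v : H.ip (u1 : Fin 23 → ℤ) v0 = 0 := ho1 1
  obtain ⟨u2, hu2, ho2⟩ := exists_orth (H := H) (k := 3) (by omega) ![H.h, v0, u1]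
  have h20 : H.ip (u2 : Fin 23 → ℤ) H.h = 0 := ho2 0
  have h2v : H.ip (u2 : Fin 23 → ℤ) v0 = 0 := ho2 1
  have h21 : H.ip (u2 : Fin 23 → ℤ) u1 = 0 := ho2 2
  have hne : ∀ w : H.hodge, w ≠ 0 → H.ip (w : Fin 23 → ℤ) H.h = 0 →
      (hq hH).f w ≠ 0 := by
    intro w hw h0
    have hp : 0 < H.ip (w : Fin 23 → ℤ) w := hH.pos _ w.2 fun h => hw (Subtype.ext h)
    have hd := disc_prim hH h0
    rw [hq_f]
    omega
  have hb : ∀ x y : H.hodge, (hq hH).b x y = 3 * H.ip (x : Fin 23 → ℤ) y -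
      H.ip H.h (x : Fin 23 → ℤ) * H.ip H.h (y : Fin 23 → ℤ) := fun x y => rfl
  obtain ⟨w, n, hw⟩ := gs_core (hq hH) (v0 := ⟨v0, hv0⟩) (a0 := a0) (by
      rw [hq_f]
      show H.disc v0 / 2 = a0 ^ 2
      omega) ha0 (u1 := u1) (u2 := u2) (by
      rw [hb]
      show 3 * H.ip v0 (u1 : Fin 23 → ℤ) - H.ip H.h v0 * H.ip H.h (u1 : Fin 23 → ℤ) = 0
      rw [hH.comm v0, h1v, hH.comm H.h (u1 : Fin 23 → ℤ), h10]
      ring) (by
      rw [hb]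
      show 3 * H.ip v0 (u2 : Fin 23 → ℤ) - H.ip H.h v0 * H.ip H.h (u2 : Fin 23 → ℤ) = 0
      rw [hH.comm v0, h2v, hH.comm H.h (u2 : Fin 23 → ℤ), h20]
      ring) (by
      rw [hb, hH.comm (u1 : Fin 23 → ℤ) u2, h21, hH.comm H.h (u2 : Fin 23 → ℤ), h20]
      ring) (hne u1 hu1 h10) (hne u2 hu2 h20) (v := ⟨v, hv⟩) (a := a) (b := b) hab.symm hco
  rw [hq_f] at hw
  have hwhalf := disc_half hH (w : Fin 23 → ℤ)
  have hwpos : 0 < H.disc (w : Fin 23 → ℤ) := by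
    rw [hwhalf, hw]
    nlinarith [sq_nonneg (2 * n + 1)]
  obtain ⟨w', m, hm, hw', hsat, hd⟩ := exists_sat hH w.2 hwpos
  refine ⟨H.disc w', ⟨m, n, ?_⟩, w', hw', hsat, rfl⟩
  rw [← hd, hwhalf, hw]
  ring

/-- the equivalence in rank five, and in rank four with an isotropic class -/
theorem hilbertSquare_iff (hH : H.IsCohomology) (h : 5 ≤ H.rank ∨ (4 ≤ H.rank ∧
    ∃ (v : Fin 23 → ℤ) (a : ℤ), H.IsHodge v ∧ a ≠ 0 ∧ H.disc v = 2 * a ^ 2)) :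
    HilbertSquare H ↔ H.HasK3 := by
  refine ⟨hasK3_of_hilbertSquare hH, fun hK => ?_⟩
  rw [H.rank_eq] at h
  rcases h with h | ⟨h, v, a, hv, ha, hd⟩
  · obtain ⟨v, a, hv, ha, hd⟩ := exists_square hH h
    exact hilbertSquare_of_hasK3 hH (by omega) hv ha hd hK
  · exact hilbertSquare_of_hasK3 hH h hv ha hd hK

/-- cubic fourfolds with a plane, in rank four -/
theorem hilbertSquare_iff_of_plane (hH : H.IsCohomology) (hr : 4 ≤ H.rank)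
    (hP : Nonempty X.Plane) : HilbertSquare H ↔ ∃ v, H.IsHodge v ∧ ¬ 4 ∣ H.disc v := by
  rw [← hasK3_iff_of_plane hH hP]
  obtain ⟨P⟩ := hP
  obtain ⟨h1, h2, h3⟩ := (hH.cl_range (H.cl P)).1 ⟨P, rfl⟩
  refine hilbertSquare_iff hH (Or.inr ⟨hr, H.cl P, 2, h1, by norm_num, ?_⟩)
  rw [disc, hH.comm H.h, h2, h3]
  norm_num

end Pool.Agent.N801.CF
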