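import Pool.Agent.Y95.Q.Defs

/-!
# The algebraic Mukai lattice of a cubic fourfold and twisted K3 surfaces: definitions
-/

set_option autoImplicit false

namespace Pool.Agent.N801.CF

open Pool.Agent.Y95.Q

variable {X : CubicFourfold}

/-- The triple `(v, a, b)` stands for an element of the algebraic Mukai lattice `N(X)` of the
Kuznetsov component, which is presented as the group of all `(v, a, b)` where `v` is a Hodge class
modulo `ℤ h` and `a - b ≡ h.v` modulo `3`; the triples with `v = 0` form the lattice `A₂`. -/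
def InMukai (H : H4 X) (v : Fin 23 → ℤ) (a b : ℤ) : Prop :=
  H.IsHodge v ∧ 3 ∣ a - b - H.ip H.h v

/-- The pairing of the Mukai lattice: the product of `(v, a, b)` and `(v', a', b')` is
`(2 a a' + a b' + b a' + 2 b b' - 3 v.v' + (h.v) (h.v')) / 3` (an exact division). -/
def mukaiPairing (H : H4 X) (v : Fin 23 → ℤ) (a b : ℤ) (v' : Fin 23 → ℤ) (a' b' : ℤ) : ℤ :=
  (2 * a * a' + a * b' + b * a' + 2 * b * b' - 3 * H.ip v v' + H.ip H.h v * H.ip H.h v') / 3

/-- There is a primitive isotropic element of the Mukai lattice `N(X)` whose products with all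
elements of `N(X)` have the greatest common divisor `r`. By theorems of Huybrechts and of Bayer,
Lahoz, Macrì, Nuer, Perry and Stellari this means that the Kuznetsov component is equivalent to
`D^b(S, α)` for a K3 surface `S` and a Brauer class `α` of order `r`. -/
def TwistedK3OfOrder (H : H4 X) (r : ℕ) : Prop :=
  0 < r ∧ ∃ (v : Fin 23 → ℤ) (a b : ℤ), InMukai H v a b ∧ mukaiPairing H v a b v a b = 0 ∧
    (∀ (m l : ℤ) (v' : Fin 23 → ℤ) (a' b' : ℤ), InMukai H v' a' b' →
      v = m • v' + l • H.h → a = m * a' → b = m * b' → IsUnit m) ∧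
    ∀ s : ℤ, (∀ (v' : Fin 23 → ℤ) (a' b' : ℤ), InMukai H v' a' b' →
      s ∣ mukaiPairing H v a b v' a' b') ↔ s ∣ r

/-- The number `n` is `p ^ (2 k)` times a number which is, at the prime `p` (not congruent to `1`
modulo `3`), a value `a ^ 2 + a b + b ^ 2` with `a` and `b` not both divisible by `p`. -/
def LocalLevel (p k : ℕ) (n : ℤ) : Prop :=
  ∃ m : ℤ, n = ((p : ℤ) ^ k) ^ 2 * m ∧ (p = 3 → m % 3 = 1 ∨ m % 9 = 3) ∧
    (p ≠ 3 → ¬ (p : ℤ) ∣ m)

end Pool.Agent.N801.CF
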