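import Pool.Agent.N801.CF.Prim
import Pool.Agent.N801.CF.Bridge
import Pool.Agent.N801.CF.MukaiDefs

/-!
# Isotropic elements of the Mukai lattice
-/

set_option autoImplicit false

namespace Pool.Agent.N801.CF

open Pool.Agent.Y95.Q Pool.Agent.Y95.Q.H4 Pool.Agent.X328.CF Finset

variable {X : CubicFourfold} {H : H4 X}

theorem three_pairing {v v' : Fin 23 → ℤ} {a b a' b' : ℤ} (hw : InMukai H v a b)
    (hw' : InMukai H v' a' b') : 3 * mukaiPairing H v a b v' a' b' =
      tr a b a' b' - (3 * H.ip v v' - H.ip H.h v * H.ip H.h v') := by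
  obtain ⟨-, s, hs⟩ := hw
  obtain ⟨-, t, ht⟩ := hw'
  unfold mukaiPairing
  have h1 : 2 * a * a' + a * b' + b * a' + 2 * b * b' - 3 * H.ip v v' + H.ip H.h v * H.ip H.h v' =
      3 * (2 * b * b' + b * H.ip H.h v' + H.ip H.h v * b' + H.ip H.h v * H.ip H.h v'
        + 2 * s * (b' + H.ip H.h v' + 3 * t) + 2 * (b + H.ip H.h v) * t + s * b' + b * t
        - H.ip v v') := by
    have ea : a = b + H.ip H.h v + 3 * s := by linarith
    have ea' : a' = b' + H.ip H.h v' + 3 * t := by linarith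
    rw [ea, ea']
    ring
  rw [h1, Int.mul_ediv_cancel_left _ (by norm_num)]
  unfold tr
  linarith

theorem nm_of_iso (hH : H.IsCohomology) {v : Fin 23 → ℤ} {a b : ℤ} (hw : InMukai H v a b)
    (h0 : mukaiPairing H v a b v a b = 0) : nm a b = H.disc v / 2 := by
  have h1 := three_pairing hw hw
  have h2 := disc_half hH v
  rw [h0] at h1
  unfold disc at h2
  unfold tr at h1
  unfold nm disc
  have e : 2 * (a ^ 2 + a * b + b ^ 2) = 3 * H.ip v v - H.ip H.h v ^ 2 := by linarith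
  omega

theorem iso_of_nm (hH : H.IsCohomology) {v : Fin 23 → ℤ} {a b : ℤ} (hw : InMukai H v a b)
    (h0 : nm a b = H.disc v / 2) : mukaiPairing H v a b v a b = 0 := by
  have h1 := three_pairing hw hw
  have h2 := disc_half hH v
  rw [← h0] at h2
  unfold disc at h2
  unfold tr at h1
  unfold nm at h2
  have e : 3 * mukaiPairing H v a b v a b = 0 := by rw [h1]; linarith
  omega

theorem inMukai_a2 : InMukai H 0 2 (-1) ∧ InMukai H 0 (-1) 2 := by
  refine ⟨⟨H.isHodge_zero, ?_⟩, ⟨H.isHodge_zero, ?_⟩⟩ <;> rw [ip_zero_right] <;> norm_num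

theorem pairing_a {v : Fin 23 → ℤ} {a b : ℤ} (hw : InMukai H v a b) :
    mukaiPairing H v a b 0 2 (-1) = a := by
  have h1 := three_pairing hw (inMukai_a2 (H := H)).1
  rw [ip_zero_right, ip_zero_right] at h1
  unfold tr at h1
  linarith

theorem pairing_b {v : Fin 23 → ℤ} {a b : ℤ} (hw : InMukai H v a b) :
    mukaiPairing H v a b 0 (-1) 2 = b := by
  have h1 := three_pairing hw (inMukai_a2 (H := H)).2
  rw [ip_zero_right, ip_zero_right] at h1
  unfold tr at h1
  linarith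

/-- the class modulo three -/
theorem half_mod_three (hH : H.IsCohomology) (v : Fin 23 → ℤ) :
    3 ∣ H.disc v / 2 - H.ip H.h v ^ 2 := by
  have h2 := disc_half hH v
  have h3 : H.disc v = 3 * H.ip v v - H.ip H.h v ^ 2 := rfl
  generalize H.ip H.h v ^ 2 = y at *
  omega

theorem nm_mod_three (a b : ℤ) : 3 ∣ nm a b - (a - b) ^ 2 := ⟨a * b, by unfold nm; ring⟩

/-- a norm which is primitive at `p` is good -/
theorem good_nm {p : ℕ} (hp : p.Prime) (h3 : p % 3 ≠ 1) {a b : ℤ}
    (h : ¬ ((p : ℤ) ∣ a ∧ (p : ℤ) ∣ b)) : Good p (nm a b) := by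
  constructor
  · rintro rfl
    by_cases hab : (a - b) % 3 = 0
    · right
      obtain ⟨t, ht⟩ : ∃ t, a = b + 3 * t := ⟨(a - b) / 3, by omega⟩
      subst ht
      have hb : ¬ (3 : ℤ) ∣ b := by
        intro hb
        apply h
        push_cast
        exact ⟨dvd_add hb (dvd_mul_right _ _), hb⟩
      have hb2 : b ^ 2 % 3 = 1 := by
        have h1 : b % 3 = 1 ∨ b % 3 = 2 := by omega
        rw [pow_two, Int.mul_emod]
        rcases h1 with h | h <;> rw [h] <;> norm_num
      have e : nm (b + 3 * t) b = 3 * (b ^ 2 + 3 * (b * t + t ^ 2)) := by unfold nm; ring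
      rw [e]
      generalize b * t + t ^ 2 = s
      omega
    · left
      obtain ⟨s, hs⟩ := nm_mod_three a b
      have hb2 : (a - b) ^ 2 % 3 = 1 := by
        have h1 : (a - b) % 3 = 1 ∨ (a - b) % 3 = 2 := by omega
        rw [pow_two, Int.mul_emod]
        rcases h1 with h | h <;> rw [h] <;> norm_num
      omega
  · intro hp3 hd
    have h4 : p % 3 ≠ 0 := fun h =>
      hp3 ((Nat.prime_dvd_prime_iff_eq Nat.prime_three hp).1 (Nat.dvd_of_mod_eq_zero h)).symm
    exact h (inert hp (by omega) hd)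

theorem nm_smul (n a b : ℤ) : nm (n * a) (n * b) = n ^ 2 * nm a b := by
  unfold nm
  ring

theorem half_smul (hH : H.IsCohomology) (n : ℤ) (v : Fin 23 → ℤ) :
    H.disc (n • v) / 2 = n ^ 2 * (H.disc v / 2) := by
  have h1 := disc_smul (H := H) n v
  have h2 := disc_half hH v
  have h3 := disc_half hH (n • v)
  have h4 : 2 * (H.disc (n • v) / 2) = 2 * (n ^ 2 * (H.disc v / 2)) := by
    rw [← h3, h1]
    conv_lhs => rw [h2]
    ring
  omega

theorem half_add (hH : H.IsCohomology) (v w : Fin 23 → ℤ) :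
    H.disc (v + w) / 2 = H.disc v / 2 + H.disc w / 2 + (3 * H.ip v w - H.ip H.h v * H.ip H.h w) := by
  have h1 := disc_sum hH v w
  have h2 := disc_half hH v
  have h3 := disc_half hH w
  have h4 := disc_half hH (v + w)
  omega

theorem half_comb (hH : H.IsCohomology) (m l : ℤ) (v : Fin 23 → ℤ) :
    H.disc (m • v + l • H.h) / 2 = m ^ 2 * (H.disc v / 2) := by
  rw [← half_smul hH, hH.disc_comb, disc_smul]

/-- the levels form an upper set -/
theorem level_up (hH : H.IsCohomology) {p k j : ℕ} {u : Fin 23 → ℤ} (hu : H.IsHodge u)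
    (h : Lev p k (H.disc u / 2)) : ∃ u', H.IsHodge u' ∧ Lev p (k + j) (H.disc u' / 2) := by
  obtain ⟨m, h1, h2⟩ := h
  refine ⟨((p : ℤ) ^ j) • u, H.isHodge_smul _ hu, m, ?_, h2⟩
  rw [half_smul hH, h1, pow_add]
  ring

/-- **The local step.** -/
theorem level_of_pairing (hH : H.IsCohomology) {p k : ℕ} (hp : p.Prime) (h3 : p % 3 ≠ 1)
    {v : Fin 23 → ℤ} {a b : ℤ} (hw : InMukai H v a b) (hiso : nm a b = H.disc v / 2)
    (hk : ∀ (v' : Fin 23 → ℤ) (a' b' : ℤ), InMukai H v' a' b' →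
      (p : ℤ) ^ k ∣ mukaiPairing H v a b v' a' b')
    {v' : Fin 23 → ℤ} {a' b' : ℤ} (hw' : InMukai H v' a' b')
    (hn : ¬ (p : ℤ) ^ (k + 1) ∣ mukaiPairing H v a b v' a' b') :
    ∃ u, H.IsHodge u ∧ Lev p k (H.disc u / 2) := by
  have hpp := Nat.prime_iff_prime_int.1 hp
  have hp0 : (p : ℤ) ≠ 0 := hpp.ne_zero
  have hpk : (p : ℤ) ^ k ≠ 0 := pow_ne_zero _ hp0
  obtain ⟨α, hα⟩ : (p : ℤ) ^ k ∣ a := by
    have := hk _ _ _ (inMukai_a2 (H := H)).1
    rwa [pairing_a hw] at this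
  obtain ⟨β, hβ⟩ : (p : ℤ) ^ k ∣ b := by
    have := hk _ _ _ (inMukai_a2 (H := H)).2
    rwa [pairing_b hw] at this
  by_cases hab : (p : ℤ) ∣ α ∧ (p : ℤ) ∣ β
  swap
  · refine ⟨v, hw.1, nm α β, ?_, good_nm hp h3 hab⟩
    rw [← hiso, hα, hβ, nm_smul]
  obtain ⟨⟨c, rfl⟩, ⟨d, rfl⟩⟩ := hab
  obtain ⟨σ, hσ⟩ := hk _ _ _ hw'
  have hσp : ¬ (p : ℤ) ∣ σ := by
    rintro ⟨t, rfl⟩
    apply hn
    rw [hσ]
    exact ⟨t, by ring⟩
  have e3 := three_pairing hw hw'
  rw [hσ] at e3
  have hf : H.disc v / 2 = ((p : ℤ) ^ k) ^ 2 * ((p : ℤ) ^ 2 * nm c d) := by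
    rw [← hiso, hα, hβ]
    unfold nm
    ring
  by_cases hp3 : p = 3
  · -- the prime three
    subst hp3
    have hcase : ∀ u : Fin 23 → ℤ, H.IsHodge u → Good 3 (H.disc u / 2) →
        ∃ u, H.IsHodge u ∧ Lev 3 k (H.disc u / 2) := by
      intro u hu hg
      have := level_up hH (p := 3) (k := 0) (j := k) hu hg.lev
      rwa [zero_add] at this
    have hv' := half_mod_three hH v'
    by_cases hy : 3 ∣ H.ip H.h v'
    swap
    · refine hcase v' hw'.1 ⟨fun _ => Or.inl ?_, fun h => absurd rfl h⟩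
      have hb2 : H.ip H.h v' ^ 2 % 3 = 1 := by
        have h1 : H.ip H.h v' % 3 = 1 ∨ H.ip H.h v' % 3 = 2 := by omega
        rw [pow_two, Int.mul_emod]
        rcases h1 with h | h <;> rw [h] <;> norm_num
      omega
    obtain ⟨y, hy⟩ := hy
    obtain ⟨q, hq⟩ : ∃ q, H.disc v' / 2 = 3 * q := by
      refine ⟨H.disc v' / 2 / 3, ?_⟩
      rw [hy] at hv'
      have e : (3 * y) ^ 2 = 3 * (3 * y ^ 2) := by ring
      rw [e] at hv'
      omega
    by_cases hq1 : q % 3 = 1
    · refine hcase v' hw'.1 ⟨fun _ => Or.inr ?_, fun h => absurd rfl h⟩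
      omega
    have hw'' := hw'.1
    obtain ⟨-, t, ht⟩ := hw'
    have ha' : a' = b' + 3 * (y + t) := by
      rw [hy] at ht
      linarith
    -- the polar form
    have hb : 3 * H.ip v v' - H.ip H.h v * H.ip H.h v' =
        3 * (((3 : ℕ) : ℤ) ^ k * (3 * (c * (b' + 2 * (y + t)) + d * (b' + y + t)) - σ)) := by
      have e : tr a b a' b' = 3 * (((3 : ℕ) : ℤ) ^ k * (3 * (c * (b' + 2 * (y + t))
          + d * (b' + y + t)))) := by
        rw [hα, hβ, ha']
        unfold tr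
        push_cast
        ring
      rw [e] at e3
      linear_combination e3
    set τ := c * (b' + 2 * (y + t)) + d * (b' + y + t) with hτ
    have hval : ∀ ε : ℤ, ε ^ 2 = 1 → H.disc (v + (ε * ((3 : ℕ) : ℤ) ^ k) • v') / 2 =
        (((3 : ℕ) : ℤ) ^ k) ^ 2 * (3 * (3 * nm c d + ε * (3 * τ - σ) + q)) := by
      intro ε hε
      rw [half_add hH, half_smul hH, hf, hq, ip_smul_right, ip_smul_right]
      have e : 3 * (ε * ((3 : ℕ) : ℤ) ^ k * H.ip v v') - H.ip H.h v *
          (ε * ((3 : ℕ) : ℤ) ^ k * H.ip H.h v') =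
          ε * ((3 : ℕ) : ℤ) ^ k * (3 * H.ip v v' - H.ip H.h v * H.ip H.h v') := by ring
      rw [e, hb]
      push_cast
      linear_combination (3 * q * ((3 : ℤ) ^ k) ^ 2) * hε
    have hσ3 : σ % 3 = 1 ∨ σ % 3 = 2 := by
      push_cast at hσp
      omega
    have hfin : ∀ ε : ℤ, (ε = 1 ∨ ε = -1) → (q - ε * σ) % 3 = 1 →
        ∃ u, H.IsHodge u ∧ Lev 3 k (H.disc u / 2) := by
      intro ε hε hm
      refine ⟨_, H.isHodge_add hw.1 (H.isHodge_smul _ hw''), _,
        hval ε (by rcases hε with h | h <;> rw [h] <;> norm_num), fun _ => Or.inr ?_,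
        fun h => absurd rfl h⟩
      generalize nm c d = N
      rcases hε with h | h <;> subst h <;> omega
    have hq3 : q % 3 = 0 ∨ q % 3 = 2 := by omega
    rcases hq3 with h | h <;> rcases hσ3 with h' | h'
    · exact hfin (-1) (Or.inr rfl) (by omega)
    · exact hfin 1 (Or.inl rfl) (by omega)
    · exact hfin 1 (Or.inl rfl) (by omega)
    · exact hfin (-1) (Or.inr rfl) (by omega)
  · -- the other primes
    have hp3' : ¬ (p : ℤ) ∣ 3 := by
      intro h
      have : p ∣ 3 := by exact_mod_cast h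
      exact hp3 ((Nat.prime_dvd_prime_iff_eq hp Nat.prime_three).1 this)
    by_cases hv' : (p : ℤ) ∣ H.disc v' / 2
    swap
    · have hg : Good p (H.disc v' / 2) := ⟨fun h => absurd h hp3, fun _ => hv'⟩
      have := level_up hH (p := p) (k := 0) (j := k) hw'.1 hg.lev
      rwa [zero_add] at this
    have hb : 3 * H.ip v v' - H.ip H.h v * H.ip H.h v' =
        (p : ℤ) ^ k * (p * tr c d a' b' - 3 * σ) := by
      have e : tr a b a' b' = (p : ℤ) ^ k * (p * tr c d a' b') := by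
        rw [hα, hβ]
        unfold tr
        ring
      rw [e] at e3
      linear_combination e3
    refine ⟨v + ((p : ℤ) ^ k) • v', H.isHodge_add hw.1 (H.isHodge_smul _ hw'.1),
      (p : ℤ) ^ 2 * nm c d + (p * tr c d a' b' - 3 * σ) + H.disc v' / 2, ?_,
      fun h => absurd h hp3, fun _ hd => ?_⟩
    · rw [half_add hH, half_smul hH, hf, ip_smul_right, ip_smul_right]
      have e : 3 * ((p : ℤ) ^ k * H.ip v v') - H.ip H.h v * ((p : ℤ) ^ k * H.ip H.h v') =
          (p : ℤ) ^ k * (3 * H.ip v v' - H.ip H.h v * H.ip H.h v') := by ring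
      rw [e, hb]
      ring
    · have h1 : (p : ℤ) ∣ 3 * σ := by
        have e : 3 * σ = ((p : ℤ) ^ 2 * nm c d + p * tr c d a' b' + H.disc v' / 2) -
          ((p : ℤ) ^ 2 * nm c d + (p * tr c d a' b' - 3 * σ) + H.disc v' / 2) := by ring
        rw [e]
        refine dvd_sub (dvd_add (dvd_add ?_ (dvd_mul_right _ _)) hv') hd
        exact (dvd_pow_self _ two_ne_zero).mul_right _
      rcases hpp.dvd_or_dvd h1 with h | h
      · exact hp3' h
      · exact hσp h

/-- divisibility of all products below the least level -/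
theorem pow_dvd_pairing (hH : H.IsCohomology) {p k : ℕ} (hp : p.Prime) (h3 : p % 3 ≠ 1)
    (hmin : ∀ j < k, ¬ ∃ u, H.IsHodge u ∧ Lev p j (H.disc u / 2))
    {v : Fin 23 → ℤ} {a b : ℤ} (hw : InMukai H v a b) (hiso : nm a b = H.disc v / 2)
    {v' : Fin 23 → ℤ} {a' b' : ℤ} (hw' : InMukai H v' a' b') :
    (p : ℤ) ^ k ∣ mukaiPairing H v a b v' a' b' := by
  have key : ∀ j ≤ k, ∀ (v' : Fin 23 → ℤ) (a' b' : ℤ), InMukai H v' a' b' →
      (p : ℤ) ^ j ∣ mukaiPairing H v a b v' a' b' := by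
    intro j
    induction j with
    | zero => intro _ v' a' b' _; rw [pow_zero]; exact one_dvd _
    | succ j ih =>
      intro hj v' a' b' hw'
      by_contra hcon
      exact hmin j (by omega) (level_of_pairing hH hp h3 hw hiso (ih (by omega)) hw' hcon)
  exact key k le_rfl v' a' b' hw'

end Pool.Agent.N801.CF
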