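import Pool.Agent.N801.CF.GsMain
import Pool.Agent.N801.CF.Mukai

/-!
# The condition of Galkin and Shinder in the divisors `C_8` and `C_18`
-/

set_option autoImplicit false

namespace Pool.Agent.N801.CF

open Pool.Agent.Y95.Q Pool.Agent.Y95.Q.H4 Pool.Agent.X328.CF Module

variable {X : CubicFourfold} {H : H4 X}

theorem hilbertSquare_of_value (hH : H.IsCohomology) {w : Fin 23 → ℤ} (hw : H.IsHodge w) {n : ℤ}
    (h : H.disc w / 2 = n ^ 2 + n + 1) : HilbertSquare H := by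
  have hwhalf := disc_half hH w
  have hwpos : 0 < H.disc w := by
    rw [hwhalf, h]
    nlinarith [sq_nonneg (2 * n + 1)]
  obtain ⟨w', m, hm, hw', hsat, hd⟩ := exists_sat hH hw hwpos
  refine ⟨H.disc w', ⟨m, n, ?_⟩, w', hw', hsat, rfl⟩
  rw [← hd, hwhalf, h]
  ring

/-- the equation is linear along an isotropic class -/
theorem hilbertSquare_of_dvd (hH : H.IsCohomology) {v0 u : Fin 23 → ℤ} (hv0 : H.IsHodge v0)
    (hu : H.IsHodge u) {a0 m s : ℤ} (hd0 : H.disc v0 = 2 * a0 ^ 2)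
    (hs : m ^ 2 + m + 1 - H.disc u / 2 =
      (3 * H.ip v0 u - H.ip H.h v0 * H.ip H.h u - a0 * (2 * m + 1)) * s) : HilbertSquare H := by
  refine hilbertSquare_of_value hH (w := u + s • v0) (n := m + a0 * s)
    (H.isHodge_add hu (H.isHodge_smul _ hv0)) ?_
  have h0 : H.disc v0 / 2 = a0 ^ 2 := by omega
  rw [half_add hH, half_smul hH, h0, ip_smul_right, ip_smul_right, hH.comm u v0]
  linear_combination -hs

/-- planes: all ranks -/
theorem hilbertSquare_of_eight (hH : H.IsCohomology) {P : Fin 23 → ℤ} (hP : H.IsHodge P)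
    (h8 : H.disc P = 8) {T : Fin 23 → ℤ} (hT : H.IsHodge T) (h4 : ¬ 4 ∣ H.disc T) :
    HilbertSquare H := by
  have hd0 : H.disc P = 2 * 2 ^ 2 := by rw [h8]; norm_num
  have hhalf := disc_half hH T
  have key : ∀ m D : ℤ, 3 * H.ip P T - H.ip H.h P * H.ip H.h T - 2 * (2 * m + 1) = D →
      D ∣ m * (m + 1) + 1 - H.disc T / 2 → HilbertSquare H := by
    rintro m D hD ⟨s, hs⟩
    refine hilbertSquare_of_dvd hH hP hT (m := m) (s := s) hd0 ?_
    rw [hD, ← hs]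
    ring
  generalize 3 * H.ip P T - H.ip H.h P * H.ip H.h T = b at key
  generalize H.disc T / 2 = F at *
  have hF : F % 2 = 1 := by omega
  have hev : ∀ m : ℤ, m * (m + 1) % 2 = 0 := fun m => Int.even_iff.1 (Int.even_mul_succ_self m)
  have hb : b % 4 = 0 ∨ b % 4 = 1 ∨ b % 4 = 2 ∨ b % 4 = 3 := by omega
  rcases hb with hb | hb | hb | hb
  · have h1 := hev (b / 4 - 1)
    exact key (b / 4 - 1) 2 (by omega) (by omega)
  · exact key ((b - 1) / 4) (-1) (by omega) ((by norm_num : IsUnit (-1 : ℤ)).dvd)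
  · obtain ⟨m, hm⟩ : ∃ m, b = 4 * m + 6 := ⟨(b - 6) / 4, by omega⟩
    have h1 := hev m
    have e : (m + 2) * (m + 2 + 1) = m * (m + 1) + 4 * m + 6 := by ring
    by_cases hc : 4 ∣ m * (m + 1) + 1 - F
    · exact key m 4 (by omega) hc
    · refine key (m + 2) (-4) (by omega) ?_
      rw [e]
      generalize m * (m + 1) = x at *
      have h5 : (4 : ℤ) ∣ x + 4 * m + 6 + 1 - F := by omega
      exact neg_dvd.2 h5
  · exact key ((b - 3) / 4) 1 (by omega) (one_dvd _)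

/-- the divisor `C_18`: all ranks -/
theorem hilbertSquare_of_eighteen (hH : H.IsCohomology) {v0 : Fin 23 → ℤ} (hv0 : H.IsHodge v0)
    (h18 : H.disc v0 = 18) {u : Fin 23 → ℤ} (hu : H.IsHodge u)
    (hadm : AdmissibleAt 3 (H.disc u)) : HilbertSquare H := by
  have hd0 : H.disc v0 = 2 * 3 ^ 2 := by rw [h18]; norm_num
  have hhalf := disc_half hH u
  have hmod := disc_mod_three (H := H) u
  obtain ⟨y0, hy0⟩ : (3 : ℤ) ∣ H.ip H.h v0 := by
    have h1 := half_mod_three hH v0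
    rw [h18] at h1
    have h2 : (3 : ℤ) ∣ H.ip H.h v0 ^ 2 := by
      have e : (18 : ℤ) / 2 = 9 := by norm_num
      rw [e] at h1
      omega
    exact Int.prime_three.dvd_of_dvd_pow h2
  set b := H.ip v0 u - y0 * H.ip H.h u with hb
  have key : ∀ m D : ℤ, 6 * b - 3 * (2 * m + 1) = D →
      D ∣ m ^ 2 + m + 1 - 4 * (H.disc u / 2) → HilbertSquare H := by
    rintro m D hD ⟨s, hs⟩
    refine hilbertSquare_of_dvd hH hv0 (H.isHodge_smul 2 hu) (m := m) (s := s) hd0 ?_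
    rw [half_smul hH, ip_smul_right, ip_smul_right, hy0]
    have e : 3 * (2 * H.ip v0 u) - 3 * y0 * (2 * H.ip H.h u) - 3 * (2 * m + 1) = D := by
      rw [← hD, hb]
      ring
    rw [e, ← hs]
    ring
  have hF : (H.disc u / 2) % 3 = 1 ∨ (H.disc u / 2) % 9 = 3 := by
    rcases hadm.2.1 rfl with h | h
    · left; omega
    · right; omega
  clear_value b
  generalize H.disc u / 2 = F at *
  have hb3 : b % 3 = 0 ∨ b % 3 = 1 ∨ b % 3 = 2 := by omega
  obtain ⟨t, ht⟩ : ∃ t, b = 3 * t + b % 3 := ⟨b / 3, by omega⟩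
  rcases hF with hF | hF
  · obtain ⟨g, hg⟩ : ∃ g, F = 3 * g + 1 := ⟨F / 3, by omega⟩
    rcases hb3 with h | h | h
    · rw [h] at ht
      exact key b (-3) (by ring) ⟨-(3 * t ^ 2 + t - 4 * g - 1), by rw [ht, hg]; ring⟩
    · rw [h] at ht
      exact key (b - 1) 3 (by ring) ⟨3 * t ^ 2 + t - 4 * g - 1, by rw [ht, hg]; ring⟩
    · rw [h] at ht
      exact key b (-3) (by ring) ⟨-(3 * t ^ 2 + 5 * t + 1 - 4 * g), by rw [ht, hg]; ring⟩
  · obtain ⟨g, hg⟩ : ∃ g, F = 9 * g + 3 := ⟨F / 9, by omega⟩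
    rcases hb3 with h | h | h
    · rw [h] at ht
      exact key (b - 2) 9 (by ring) ⟨t ^ 2 - t - 4 * g - 1, by rw [ht, hg]; ring⟩
    · rw [h] at ht
      exact key b (-3) (by ring) ⟨-(3 * t ^ 2 + 3 * t - 12 * g - 3), by rw [ht, hg]; ring⟩
    · rw [h] at ht
      exact key (b - 1) 3 (by ring) ⟨3 * t ^ 2 + 3 * t - 12 * g - 3, by rw [ht, hg]; ring⟩

/-- **The divisor `C_8`.** -/
theorem eight_iff (hH : H.IsCohomology) {P : Fin 23 → ℤ} (hP : H.IsHodge P)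
    (h8 : H.disc P = 8) : (HilbertSquare H ↔ H.HasK3) ∧
      (HilbertSquare H ↔ ∃ v, H.IsHodge v ∧ ¬ 4 ∣ H.disc v) := by
  have h1 : (∃ v, H.IsHodge v ∧ ¬ 4 ∣ H.disc v) → HilbertSquare H := by
    rintro ⟨v, hv, h4⟩
    exact hilbertSquare_of_eight hH hP h8 hv h4
  have h2 : H.HasK3 → ∃ v, H.IsHodge v ∧ ¬ 4 ∣ H.disc v := by
    rintro ⟨v, hv, -, hadm⟩
    exact ⟨v, hv, hadm.2.1⟩
  exact ⟨⟨hasK3_of_hilbertSquare hH, fun h => h1 (h2 h)⟩,
    ⟨fun h => h2 (hasK3_of_hilbertSquare hH h), h1⟩⟩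

/-- **The divisor `C_18`.** -/
theorem eighteen_iff (hH : H.IsCohomology) {v0 : Fin 23 → ℤ} (hv0 : H.IsHodge v0)
    (h18 : H.disc v0 = 18) : (HilbertSquare H ↔ H.HasK3) ∧
      (HilbertSquare H ↔ ∃ v, H.IsHodge v ∧ AdmissibleAt 3 (H.disc v)) := by
  have h1 : (∃ v, H.IsHodge v ∧ AdmissibleAt 3 (H.disc v)) → HilbertSquare H := by
    rintro ⟨v, hv, hadm⟩
    exact hilbertSquare_of_eighteen hH hv0 h18 hv hadm
  have h2 : H.HasK3 → ∃ v, H.IsHodge v ∧ AdmissibleAt 3 (H.disc v) := by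
    rintro ⟨v, hv, -, hadm⟩
    exact ⟨v, hv, admAt_of_adm (disc_even hH v) hadm Nat.prime_three⟩
  exact ⟨⟨hasK3_of_hilbertSquare hH, fun h => h1 (h2 h)⟩,
    ⟨fun h => h2 (hasK3_of_hilbertSquare hH h), h1⟩⟩

end Pool.Agent.N801.CF
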