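import Pool.Agent.N801.CF.Arith

/-!
# Local representations by the norm form
-/

set_option autoImplicit false

namespace Pool.Agent.N801.CF

/-- the numbers which are norms of primitive elements at the prime `p` -/
def Good (p : ℕ) (n : ℤ) : Prop :=
  (p = 3 → n % 3 = 1 ∨ n % 9 = 3) ∧ (p ≠ 3 → ¬ (p : ℤ) ∣ n)

/-- lifting a solution -/
theorem lift {p : ℕ} (hp : p.Prime) {n : ℤ} {L : ℕ} (hL : 1 ≤ L) {a b : ℤ}
    (h : (p : ℤ) ^ L ∣ nm a b - n)
    (hs : IsCoprime (2 * a + b) (p : ℤ) ∨ IsCoprime (a + 2 * b) (p : ℤ)) :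
    ∃ a' b' : ℤ, (p : ℤ) ^ (L + 1) ∣ nm a' b' - n ∧ (p : ℤ) ∣ a' - a ∧ (p : ℤ) ∣ b' - b := by
  obtain ⟨c, hc⟩ := h
  have hpL : (p : ℤ) ∣ (p : ℤ) ^ L := dvd_pow_self _ (by omega)
  have h2L : (p : ℤ) ^ (L + 1) ∣ (p : ℤ) ^ L * (p : ℤ) ^ L := by
    rw [← pow_add]
    exact pow_dvd_pow _ (by omega)
  rcases hs with ⟨x, y, hxy⟩ | ⟨x, y, hxy⟩
  · refine ⟨a - (p : ℤ) ^ L * (c * x), b, ?_, ?_, by simp⟩
    · obtain ⟨k, hk⟩ := h2L
      refine ⟨c * y + k * (c * x) ^ 2, ?_⟩
      have e : nm (a - (p : ℤ) ^ L * (c * x)) b - n = nm a b - n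
          - (p : ℤ) ^ L * (c * x) * (2 * a + b) + (p : ℤ) ^ L * (p : ℤ) ^ L * (c * x) ^ 2 := by
        unfold nm
        ring
      rw [e, hc, hk]
      have : (p : ℤ) ^ (L + 1) = (p : ℤ) ^ L * p := pow_succ _ _
      rw [this]
      linear_combination (p : ℤ) ^ L * c * hxy * (-1)
    · obtain ⟨k, hk⟩ := hpL
      exact ⟨-(k * (c * x)), by rw [hk]; ring⟩
  · refine ⟨a, b - (p : ℤ) ^ L * (c * x), ?_, by simp, ?_⟩
    · obtain ⟨k, hk⟩ := h2L
      refine ⟨c * y + k * (c * x) ^ 2, ?_⟩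
      have e : nm a (b - (p : ℤ) ^ L * (c * x)) - n = nm a b - n
          - (p : ℤ) ^ L * (c * x) * (a + 2 * b) + (p : ℤ) ^ L * (p : ℤ) ^ L * (c * x) ^ 2 := by
        unfold nm
        ring
      rw [e, hc, hk]
      have : (p : ℤ) ^ (L + 1) = (p : ℤ) ^ L * p := pow_succ _ _
      rw [this]
      linear_combination (p : ℤ) ^ L * c * hxy * (-1)
    · obtain ⟨k, hk⟩ := hpL
      exact ⟨-(k * (c * x)), by rw [hk]; ring⟩

/-- lifting to all powers -/
theorem lift_all {p : ℕ} (hp : p.Prime) {n : ℤ} {a b : ℤ} (h : (p : ℤ) ∣ nm a b - n)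
    (hs : IsCoprime (2 * a + b) (p : ℤ) ∨ IsCoprime (a + 2 * b) (p : ℤ)) (L : ℕ) :
    ∃ a' b' : ℤ, (p : ℤ) ^ L ∣ nm a' b' - n := by
  have key : ∀ L : ℕ, ∃ a' b' : ℤ, (p : ℤ) ^ (L + 1) ∣ nm a' b' - n ∧ (p : ℤ) ∣ a' - a ∧
      (p : ℤ) ∣ b' - b := by
    intro L
    induction L with
    | zero => exact ⟨a, b, by simpa using h, by simp, by simp⟩
    | succ L ih =>
      obtain ⟨a', b', h1, ⟨s, hs1⟩, ⟨t, ht1⟩⟩ := ih
      have hs' : IsCoprime (2 * a' + b') (p : ℤ) ∨ IsCoprime (a' + 2 * b') (p : ℤ) := by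
        rcases hs with h2 | h2
        · left
          have : 2 * a' + b' = 2 * a + b + (p : ℤ) * (2 * s + t) := by
            linear_combination 2 * hs1 + ht1
          rw [this]
          exact h2.add_mul_left_left _
        · right
          have : a' + 2 * b' = a + 2 * b + (p : ℤ) * (s + 2 * t) := by
            linear_combination hs1 + 2 * ht1
          rw [this]
          exact h2.add_mul_left_left _
      obtain ⟨a'', b'', h3, h4, h5⟩ := lift hp (by omega) h1 hs'
      refine ⟨a'', b'', h3, ?_, ?_⟩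
      · have : a'' - a = (a'' - a') + (a' - a) := by ring
        rw [this]
        exact dvd_add h4 ⟨s, hs1⟩
      · have : b'' - b = (b'' - b') + (b' - b) := by ring
        rw [this]
        exact dvd_add h5 ⟨t, ht1⟩
  obtain ⟨a', b', h1, -, -⟩ := key L
  exact ⟨a', b', (pow_dvd_pow _ (Nat.le_succ L)).trans h1⟩

/-- the norm form represents all units modulo an inert prime -/
theorem base_inert {p : ℕ} (hp : p.Prime) (h3 : p % 3 = 2) {n : ℤ} (hn : ¬ (p : ℤ) ∣ n) :
    ∃ a b : ℤ, (p : ℤ) ∣ nm a b - n ∧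
      (IsCoprime (2 * a + b) (p : ℤ) ∨ IsCoprime (a + 2 * b) (p : ℤ)) := by
  have hpp := Nat.prime_iff_prime_int.1 hp
  have : Fact p.Prime := ⟨hp⟩
  obtain ⟨a, b, hab⟩ : ∃ a b : ℤ, (p : ℤ) ∣ nm a b - n := by
    by_cases h2 : p = 2
    · subst h2
      refine ⟨1, 0, ?_⟩
      unfold nm
      push_cast at hn ⊢
      omega
    · obtain ⟨x, y, hxy⟩ : ∃ x y : ZMod p, x ^ 2 + 3 * y ^ 2 = 4 * (n : ZMod p) := by
        have h3' : (3 : ZMod p) ≠ 0 := by
          intro h
          have : ((3 : ℕ) : ZMod p) = 0 := by exact_mod_cast h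
          rw [ZMod.natCast_eq_zero_iff] at this
          have := (Nat.prime_dvd_prime_iff_eq hp Nat.prime_three).1 this
          omega
        have hodd : Fintype.card (ZMod p) % 2 = 1 := by
          rw [ZMod.card]
          rcases hp.eq_two_or_odd with h | h
          · exact absurd h h2
          · exact h
        obtain ⟨x, y, hxy⟩ := FiniteField.exists_root_sum_quadratic
          (f := (Polynomial.X ^ 2 : Polynomial (ZMod p)))
          (g := Polynomial.C 3 * Polynomial.X ^ 2 - Polynomial.C (4 * (n : ZMod p)))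
          (by rw [Polynomial.degree_X_pow]; rfl)
          (by
            have e1 : (Polynomial.C (3 : ZMod p) * Polynomial.X ^ 2).degree = 2 := by
              rw [Polynomial.degree_C_mul_X_pow _ h3']
              rfl
            rw [Polynomial.degree_sub_eq_left_of_degree_lt, e1]
            rw [e1]
            exact lt_of_le_of_lt Polynomial.degree_C_le (by norm_num)) hodd
        refine ⟨x, y, ?_⟩
        simp at hxy
        linear_combination hxy
      have h20 : (2 : ZMod p) ≠ 0 := by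
        intro h
        have : ((2 : ℕ) : ZMod p) = 0 := by exact_mod_cast h
        rw [ZMod.natCast_eq_zero_iff] at this
        exact h2 ((Nat.prime_dvd_prime_iff_eq hp Nat.prime_two).1 this)
      obtain ⟨a, ha⟩ := ZMod.intCast_surjective ((x - y) / 2)
      obtain ⟨b, hb⟩ := ZMod.intCast_surjective y
      refine ⟨a, b, ?_⟩
      rw [← ZMod.intCast_zmod_eq_zero_iff_dvd]
      unfold nm
      push_cast
      rw [ha, hb]
      have h4 : (4 : ZMod p) ≠ 0 := by
        have : (4 : ZMod p) = 2 * 2 := by norm_num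
        rw [this]
        exact mul_ne_zero h20 h20
      apply (mul_eq_zero.1 (?_ : (4 : ZMod p) * _ = 0)).resolve_left h4
      have e : ((x - y) / 2) * 2 = x - y := div_mul_cancel₀ _ h20
      generalize (x - y) / 2 = z at e
      have : x = 2 * z + y := by linear_combination -e
      rw [this] at hxy
      linear_combination hxy
  refine ⟨a, b, hab, ?_⟩
  by_contra hcon
  push Not at hcon
  obtain ⟨h1, h2⟩ := hcon
  have d1 : (p : ℤ) ∣ 2 * a + b := by
    by_contra h
    exact h1 ((Prime.coprime_iff_not_dvd hpp).2 h).symm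
  have d2 : (p : ℤ) ∣ a + 2 * b := by
    by_contra h
    exact h2 ((Prime.coprime_iff_not_dvd hpp).2 h).symm
  have d3 : (p : ℤ) ∣ 3 * a := by
    have : 3 * a = 2 * (2 * a + b) - (a + 2 * b) := by ring
    rw [this]
    exact dvd_sub (d1.mul_left _) d2
  have d4 : (p : ℤ) ∣ 3 * b := by
    have : 3 * b = 2 * (a + 2 * b) - (2 * a + b) := by ring
    rw [this]
    exact dvd_sub (d2.mul_left _) d1
  have hp3 : ¬ (p : ℤ) ∣ 3 := by
    intro h
    have h' : p ∣ 3 := by exact_mod_cast h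
    have := (Nat.prime_dvd_prime_iff_eq hp Nat.prime_three).1 h'
    omega
  have ha := (hpp.dvd_or_dvd d3).resolve_left hp3
  have hb := (hpp.dvd_or_dvd d4).resolve_left hp3
  apply hn
  have : n = nm a b - (nm a b - n) := by ring
  rw [this]
  refine dvd_sub ?_ hab
  unfold nm
  obtain ⟨s, rfl⟩ := ha
  obtain ⟨t, rfl⟩ := hb
  exact ⟨p * s ^ 2 + p * s * t + p * t ^ 2, by ring⟩

/-- **Local representations.** -/
theorem local_rep {p : ℕ} (hp : p.Prime) (h3 : p % 3 ≠ 1) {n : ℤ} (hn : Good p n) (L : ℕ) :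
    ∃ a b : ℤ, (p : ℤ) ^ L ∣ nm a b - n := by
  by_cases hp3 : p = 3
  · subst hp3
    rcases hn.1 rfl with h | h
    · refine lift_all hp (a := 1) (b := 0) ?_ (Or.inl ⟨-1, 1, by norm_num⟩) L
      unfold nm
      push_cast
      omega
    · obtain ⟨n', rfl⟩ : ∃ n', n = 3 * n' := ⟨n / 3, by omega⟩
      obtain ⟨a, b, h1⟩ := lift_all hp (n := n') (a := 1) (b := 0) (by
        unfold nm
        push_cast
        omega) (Or.inl ⟨-1, 1, by norm_num⟩) L
      refine ⟨a - b, a + 2 * b, ?_⟩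
      have : nm (a - b) (a + 2 * b) - 3 * n' = 3 * (nm a b - n') := by
        unfold nm
        ring
      rw [this]
      exact h1.mul_left _
  · have h2 : p % 3 = 2 := by
      have : p % 3 ≠ 0 := by
        intro h
        have h' : 3 ∣ p := Nat.dvd_of_mod_eq_zero h
        exact hp3 ((Nat.prime_dvd_prime_iff_eq Nat.prime_three hp).1 h').symm
      omega
    obtain ⟨a, b, h1, h4⟩ := base_inert hp h2 (hn.2 hp3)
    exact lift_all hp h1 h4 L

/-- A number which is congruent to a product of a square of a unit and a good number. -/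
theorem Good.of_sq {p : ℕ} (hp : p.Prime) {n m c : ℤ} (hn : Good p n) (hc : ¬ (p : ℤ) ∣ c)
    (h : (p : ℤ) ^ 2 ∣ m - c ^ 2 * n) : Good p m := by
  have hpp := Nat.prime_iff_prime_int.1 hp
  constructor
  · rintro rfl
    obtain ⟨k, hk⟩ := h
    push_cast at hk hc
    have hc2 : c ^ 2 % 3 = 1 := by
      have h1 : c % 3 = 1 ∨ c % 3 = 2 := by omega
      rw [pow_two, Int.mul_emod]
      rcases h1 with h | h <;> rw [h] <;> norm_num
    generalize c ^ 2 = s at *
    rcases hn.1 rfl with h1 | h1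
    · left
      have e : s * n % 3 = 1 := by
        rw [Int.mul_emod, hc2, h1]
        norm_num
      omega
    · right
      obtain ⟨n', rfl⟩ : ∃ n', n = 3 * n' := ⟨n / 3, by omega⟩
      have hn' : n' % 3 = 1 := by omega
      have e : s * n' % 3 = 1 := by
        rw [Int.mul_emod, hc2, hn']
        norm_num
      have e2 : s * (3 * n') = 3 * (s * n') := by ring
      omega
  · intro hp3 hd
    obtain ⟨k, hk⟩ := h
    have h1 : (p : ℤ) ∣ c ^ 2 * n := by
      have : c ^ 2 * n = m - p * (p * k) := by linear_combination -hk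
      rw [this]
      exact dvd_sub hd (dvd_mul_right _ _)
    rcases hpp.dvd_or_dvd h1 with h2 | h2
    · exact hc (hpp.dvd_of_dvd_pow h2)
    · exact hn.2 hp3 h2

/-- one of the three rotations of a solution is not orthogonal to the given element -/
theorem rotate {p : ℕ} {a0 b0 c n : ℤ} {k L : ℕ} (hk : ¬ (p : ℤ) ^ k ∣ 3 * a0 * n ∨
    ¬ (p : ℤ) ^ k ∣ 3 * b0 * n) (hkL : k ≤ L) {a b : ℤ} (h : (p : ℤ) ^ L ∣ nm a b - n) :
    ∃ a' b' : ℤ, (p : ℤ) ^ L ∣ nm a' b' - n ∧ ¬ (p : ℤ) ^ k ∣ c - tr a0 b0 a' b' := by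
  by_contra hcon
  push Not at hcon
  have h0 := hcon a b h
  have h1 := hcon (-a - b) a (by
    have : nm (-a - b) a = nm a b := by unfold nm; ring
    rwa [this])
  have h2 := hcon b (-a - b) (by
    have : nm b (-a - b) = nm a b := by unfold nm; ring
    rwa [this])
  have e1 := dvd_sub h1 h0
  have e2 := dvd_sub h2 h1
  have f1 : c - tr a0 b0 (-a - b) a - (c - tr a0 b0 a b) = 3 * (a0 * (a + b) + b0 * b) := by
    unfold tr
    ring
  have f2 : c - tr a0 b0 b (-a - b) - (c - tr a0 b0 (-a - b) a) = 3 * (-a0 * b + b0 * a) := by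
    unfold tr
    ring
  rw [f1] at e1
  rw [f2] at e2
  have hkk : (p : ℤ) ^ k ∣ nm a b - n := (pow_dvd_pow _ hkL).trans h
  rcases hk with hk | hk
  · apply hk
    have : 3 * a0 * n = a * (3 * (a0 * (a + b) + b0 * b)) - b * (3 * (-a0 * b + b0 * a))
        - 3 * a0 * (nm a b - n) := by
      unfold nm
      ring
    rw [this]
    exact dvd_sub (dvd_sub (e1.mul_left _) (e2.mul_left _)) (hkk.mul_left _)
  · apply hk
    have : 3 * b0 * n = b * (3 * (a0 * (a + b) + b0 * b)) + (a + b) * (3 * (-a0 * b + b0 * a))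
        - 3 * b0 * (nm a b - n) := by
      unfold nm
      ring
    rw [this]
    exact dvd_sub (dvd_add (e1.mul_left _) (e2.mul_left _)) (hkk.mul_left _)

end Pool.Agent.N801.CF
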