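import Pool.Agent.N801.CF.Mukai
import Pool.Agent.N801.CF.Orth2
import Pool.Agent.N801.CF.Main1

/-!
# The orders of the Brauer classes of the associated twisted K3 surfaces
-/

set_option autoImplicit false

namespace Pool.Agent.N801.CF

open Pool.Agent.Y95.Q Pool.Agent.Y95.Q.H4 Pool.Agent.X328.CF Finset

variable {X : CubicFourfold} {H : H4 X}

/-- there is a Hodge class of level `k` at `p` -/
def HasLevel (H : H4 X) (p k : ℕ) : Prop := ∃ u, H.IsHodge u ∧ Lev p k (H.disc u / 2)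

theorem HasLevel.mono (hH : H.IsCohomology) {p j k : ℕ} (h : HasLevel H p j) (hjk : j ≤ k) :
    HasLevel H p k := by
  obtain ⟨u, hu, hl⟩ := h
  obtain ⟨i, rfl⟩ := Nat.exists_eq_add_of_le hjk
  exact level_up hH hu hl

/-- every norm has a level -/
theorem norm_level {p : ℕ} (hp : p.Prime) (h3 : p % 3 ≠ 1) {a b : ℤ} (h : ¬ (a = 0 ∧ b = 0)) :
    ∃ k, Lev p k (nm a b) := by
  have hg : Int.gcd a b ≠ 0 := fun h0 => h (Int.gcd_eq_zero_iff.1 h0)
  obtain ⟨k, e, he, hge⟩ := Nat.exists_eq_pow_mul_and_not_dvd (n := Int.gcd a b) hg p hp.ne_one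
  obtain ⟨a', ha'⟩ : ((p : ℤ) ^ k) ∣ a := by
    have h1 : ((Int.gcd a b : ℕ) : ℤ) ∣ a := Int.gcd_dvd_left _ _
    rw [hge] at h1
    push_cast at h1
    exact (dvd_mul_right _ _).trans h1
  obtain ⟨b', hb'⟩ : ((p : ℤ) ^ k) ∣ b := by
    have h1 : ((Int.gcd a b : ℕ) : ℤ) ∣ b := Int.gcd_dvd_right _ _
    rw [hge] at h1
    push_cast at h1
    exact (dvd_mul_right _ _).trans h1
  refine ⟨k, nm a' b', by rw [ha', hb', nm_smul], good_nm hp h3 ?_⟩
  rintro ⟨⟨a'', ha''⟩, ⟨b'', hb''⟩⟩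
  apply he
  have h1 : ((p ^ (k + 1) : ℕ) : ℤ) ∣ (Int.gcd a b : ℕ) := by
    apply Int.dvd_coe_gcd
    · rw [ha', ha'']
      exact ⟨a'', by push_cast; ring⟩
    · rw [hb', hb'']
      exact ⟨b'', by push_cast; ring⟩
  have h2 : p ^ (k + 1) ∣ Int.gcd a b := Int.natCast_dvd_natCast.1 h1
  rw [hge, pow_succ] at h2
  exact (Nat.mul_dvd_mul_iff_left (pow_pos hp.pos k)).1 h2

theorem coprime_pows {S : Finset ℕ} (hS : ∀ p ∈ S, p.Prime) (f : ℕ → ℕ) :
    Set.Pairwise (S : Set ℕ) (Function.onFun IsCoprime fun p : ℕ => (p : ℤ) ^ f p) := by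
  intro p hp q hq hpq
  have h1 : Nat.Coprime p q := (Nat.coprime_primes (hS p hp) (hS q hq)).2 hpq
  exact (Nat.isCoprime_iff_coprime.2 h1).pow

/-- **The least order.** -/
theorem least_order (hH : H.IsCohomology) {v0 : Fin 23 → ℤ} (hv0 : H.IsHodge v0)
    (h0 : 0 < H.disc v0) {a0 b0 : ℤ} (hab : nm a0 b0 = H.disc v0 / 2) :
    ∃ r0 : ℕ, TwistedK3OfOrder H r0 ∧ (∀ r, TwistedK3OfOrder H r → r0 ∣ r) ∧
      ∀ p : ℕ, p.Prime → (p % 3 = 1 → ¬ p ∣ r0) ∧
        (p % 3 ≠ 1 → ∀ k, HasLevel H p k ↔ ¬ p ^ (k + 1) ∣ r0) := by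
  classical
  have hhalf0 := disc_half hH v0
  have hf0 : 0 < H.disc v0 / 2 := by omega
  have hab0 : ¬ (a0 = 0 ∧ b0 = 0) := by
    rintro ⟨rfl, rfl⟩
    unfold nm at hab
    omega
  -- the least levels
  have hex : ∀ p : ℕ, p.Prime → p % 3 ≠ 1 → ∃ k, HasLevel H p k := by
    intro p hp h3
    obtain ⟨k, hk⟩ := norm_level hp h3 hab0
    exact ⟨k, v0, hv0, by rw [← hab]; exact hk⟩
  let κ : ℕ → ℕ := fun p => if h : ∃ k, HasLevel H p k then Nat.find h else 0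
  have hκ1 : ∀ p : ℕ, p.Prime → p % 3 ≠ 1 → HasLevel H p (κ p) := by
    intro p hp h3
    have h := hex p hp h3
    simp only [κ, h, dif_pos]
    exact Nat.find_spec h
  have hκ2 : ∀ p : ℕ, p.Prime → p % 3 ≠ 1 → ∀ j < κ p, ¬ HasLevel H p j := by
    intro p hp h3 j hj
    have h := hex p hp h3
    simp only [κ, h, dif_pos] at hj
    exact Nat.find_min h hj
  have hκ3 : ∀ p : ℕ, p.Prime → p % 3 ≠ 1 → ∀ k, HasLevel H p k → κ p ≤ k := by
    intro p hp h3 k hk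
    by_contra hcon
    exact hκ2 p hp h3 k (by omega) hk
  have hκ0 : ∀ p : ℕ, p.Prime → p % 3 ≠ 1 → ¬ (p : ℤ) ∣ H.disc v0 / 2 → κ p = 0 := by
    intro p hp h3 hd
    have : κ p ≤ 0 := by
      refine hκ3 p hp h3 0 ⟨v0, hv0, Good.lev ⟨?_, fun _ => hd⟩⟩
      intro hp3
      subst hp3
      left
      rw [← hab] at hd ⊢
      obtain ⟨s, hs⟩ := nm_mod_three a0 b0
      push_cast at hd
      have hsq : (a0 - b0) ^ 2 % 3 = 0 ∨ (a0 - b0) ^ 2 % 3 = 1 := by
        have h1 : (a0 - b0) % 3 = 0 ∨ (a0 - b0) % 3 = 1 ∨ (a0 - b0) % 3 = 2 := by omega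
        rw [pow_two, Int.mul_emod]
        rcases h1 with h | h | h <;> rw [h] <;> norm_num
      omega
    omega
  -- the class of least level everywhere
  obtain ⟨v, hvpos, hv⟩ := core (hq hH) (v0 := ⟨v0, hv0⟩) (a0 := a0) (b0 := b0) hab.symm hf0.ne' κ
    (fun p hp h3 hd => hκ0 p hp h3 hd) (fun p hp h3 _ => by
      obtain ⟨u, hu, hl⟩ := hκ1 p hp h3
      exact ⟨⟨u, hu⟩, hl⟩)
  simp only [hq_f] at hvpos hv
  set F : ℤ := H.disc (v : Fin 23 → ℤ) / 2 with hF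
  -- the product
  set S : Finset ℕ := (H.disc v0 / 2).natAbs.primeFactors.filter fun p => p % 3 ≠ 1 with hSdef
  have hSp : ∀ p ∈ S, p.Prime := fun p hp => Nat.prime_of_mem_primeFactors (mem_filter.1 hp).1
  have hS3 : ∀ p ∈ S, p % 3 ≠ 1 := fun p hp => (mem_filter.1 hp).2
  have hnS : ∀ p : ℕ, p.Prime → p % 3 ≠ 1 → p ∉ S → κ p = 0 := by
    intro p hp h3 hpS
    refine hκ0 p hp h3 fun hd => hpS (mem_filter.2 ⟨Nat.mem_primeFactors.2 ⟨hp, ?_, ?_⟩, h3⟩)
    · have := Int.natAbs_dvd_natAbs.2 hd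
      rwa [Int.natAbs_natCast] at this
    · exact Int.natAbs_ne_zero.2 hf0.ne'
  set R : ℕ := ∏ p ∈ S, p ^ κ p with hR
  have hRc : (R : ℤ) = ∏ p ∈ S, (p : ℤ) ^ κ p := by rw [hR]; push_cast; rfl
  have hR0 : 0 < R := prod_pos fun p hp => pow_pos (hSp p hp).pos _
  have hcop := coprime_pows hSp κ
  have hRdvd : ∀ z : ℤ, (∀ p ∈ S, (p : ℤ) ^ κ p ∣ z) → (R : ℤ) ∣ z := by
    intro z hz
    rw [hRc]
    exact Finset.prod_dvd_of_coprime hcop hz
  have hpR : ∀ p ∈ S, (p : ℤ) ^ κ p ∣ R := by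
    intro p hp
    rw [hRc]
    exact dvd_prod_of_mem _ hp
  have hRsplit : ∀ p ∈ S, ∃ R' : ℤ, (R : ℤ) = (p : ℤ) ^ κ p * R' ∧ ¬ (p : ℤ) ∣ R' := by
    intro p hp
    refine ⟨∏ q ∈ S.erase p, (q : ℤ) ^ κ q, ?_, ?_⟩
    · rw [hRc]
      exact (mul_prod_erase S (fun q : ℕ => (q : ℤ) ^ κ q) hp).symm
    · intro hd
      have hpp := Nat.prime_iff_prime_int.1 (hSp p hp)
      obtain ⟨q, hq, hdq⟩ := (Prime.dvd_finsetProd_iff hpp _).1 hd
      have h1 := hpp.dvd_of_dvd_pow hdq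
      have h2 : p ∣ q := by exact_mod_cast h1
      exact ne_of_mem_erase hq
        ((Nat.prime_dvd_prime_iff_eq (hSp p hp) (hSp q (mem_of_mem_erase hq))).1 h2).symm
  have hprR : ∀ p : ℕ, p.Prime → p ∣ R → p ∈ S ∧ 0 < κ p := by
    intro p hp hd
    obtain ⟨q, hq, hdq⟩ := (Prime.dvd_finsetProd_iff hp.prime _).1 hd
    have h1 := hp.prime.dvd_of_dvd_pow hdq
    have h2 := (Nat.prime_dvd_prime_iff_eq hp (hSp q hq)).1 h1
    subst h2
    refine ⟨hq, Nat.pos_of_ne_zero fun h0 => ?_⟩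
    rw [h0, pow_zero] at hdq
    exact hp.one_lt.ne' (Nat.dvd_one.1 hdq)
  -- `F = R ^ 2 * n0`
  obtain ⟨n0, hn0⟩ : (R : ℤ) ^ 2 ∣ F := by
    have h1 : (R : ℤ) ^ 2 = ∏ p ∈ S, ((p : ℤ) ^ κ p) ^ 2 := by
      rw [hRc, prod_pow]
    rw [h1]
    refine Finset.prod_dvd_of_coprime (fun p hp q hq hpq => (hcop hp hq hpq).pow) fun p hp => ?_
    obtain ⟨m, hm, -⟩ := hv p (hSp p hp) (hS3 p hp)
    exact ⟨m, hm⟩
  have hgood : ∀ p : ℕ, p.Prime → p % 3 ≠ 1 → Good p n0 := by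
    intro p hp h3
    have hl := hv p hp h3
    by_cases hpS : p ∈ S
    · obtain ⟨R', hR1, hR2⟩ := hRsplit p hpS
      obtain ⟨m, hm1, hm2⟩ := hl
      have hpk : ((p : ℤ) ^ κ p) ≠ 0 := pow_ne_zero _ (by exact_mod_cast hp.ne_zero)
      have h1 : m = R' ^ 2 * n0 := by
        apply mul_left_cancel₀ (pow_ne_zero 2 hpk)
        rw [← hm1, hn0, hR1]
        ring
      rw [h1] at hm2
      exact hm2.of_mul hp
    · rw [hnS p hp h3 hpS] at hl
      have := hl.good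
      rw [hn0] at this
      exact this.of_mul hp
  have hn0pos : 0 < n0 := by
    rw [hn0] at hvpos
    have hR2 : 0 < (R : ℤ) ^ 2 := by positivity
    exact (mul_pos_iff_of_pos_left hR2).1 hvpos
  obtain ⟨a1, b1, hab1, hco⟩ := prim_good hn0pos hgood
  -- the sign
  obtain ⟨ε, hε, hε3⟩ : ∃ ε : ℤ, (ε = 1 ∨ ε = -1) ∧
      3 ∣ ε * (R * a1) - ε * (R * b1) - H.ip H.h (v : Fin 23 → ℤ) := by
    obtain ⟨s, hs⟩ := half_mod_three hH (v : Fin 23 → ℤ)
    obtain ⟨t, ht⟩ := nm_mod_three (R * a1) (R * b1)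
    rw [nm_smul, hab1, ← hn0] at ht
    have h1 : (3 : ℤ) ∣ (R * a1 - R * b1 - H.ip H.h (v : Fin 23 → ℤ)) *
        (R * a1 - R * b1 + H.ip H.h (v : Fin 23 → ℤ)) := by
      refine ⟨s - t, ?_⟩
      linear_combination hs - ht
    rcases Int.prime_three.dvd_or_dvd h1 with h | h
    · exact ⟨1, Or.inl rfl, by rw [one_mul, one_mul]; exact h⟩
    · refine ⟨-1, Or.inr rfl, ?_⟩
      obtain ⟨u, hu⟩ := h
      exact ⟨-u, by linear_combination -hu⟩
  have hε2 : ε ^ 2 = 1 := by rcases hε with h | h <;> rw [h] <;> norm_num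
  have hw : InMukai H (v : Fin 23 → ℤ) (ε * (R * a1)) (ε * (R * b1)) := ⟨v.2, hε3⟩
  have hnm : nm (ε * (R * a1)) (ε * (R * b1)) = H.disc (v : Fin 23 → ℤ) / 2 := by
    rw [nm_smul, nm_smul, hab1, hε2, one_mul]
    exact hn0.symm
  have hpd : ∀ p ∈ S, ∀ (w : Fin 23 → ℤ) (a b : ℤ), InMukai H w a b → nm a b = H.disc w / 2 →
      ∀ (v' : Fin 23 → ℤ) (a' b' : ℤ), InMukai H v' a' b' →
      (p : ℤ) ^ κ p ∣ mukaiPairing H w a b v' a' b' := by
    intro p hp w a b hwm hiso v' a' b' hw'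
    exact pow_dvd_pairing hH (hSp p hp) (hS3 p hp) (hκ2 p (hSp p hp) (hS3 p hp)) hwm hiso hw'
  have hsR : ∀ s : ℤ, s ∣ ε * (R * a1) → s ∣ ε * (R * b1) → s ∣ R := by
    intro s h1 h2
    obtain ⟨x, y, hxy⟩ := hco
    have e : (R : ℤ) = (ε * (R * a1)) * (ε * x) + (ε * (R * b1)) * (ε * y) := by
      linear_combination (-(R : ℤ)) * hxy + (-(R : ℤ) * (a1 * x + b1 * y)) * hε2
    rw [e]
    exact dvd_add (h1.mul_right _) (h2.mul_right _)
  refine ⟨R, ⟨hR0, v, ε * (R * a1), ε * (R * b1), hw, iso_of_nm hH hw hnm, ?_, ?_⟩, ?_, ?_⟩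
  · -- primitive
    intro m l v' a' b' hw' hv' ha' hb'
    by_contra hm
    have hmR : m ∣ R := hsR m ⟨a', ha'⟩ ⟨b', hb'⟩
    have hm1 : m.natAbs ≠ 1 := fun h => hm (Int.isUnit_iff_natAbs_eq.2 h)
    obtain ⟨q, hq, hqd⟩ := Nat.exists_prime_and_dvd hm1
    have hqm : (q : ℤ) ∣ m := Int.natCast_dvd.2 hqd
    have hqR : q ∣ R := by
      have := hqm.trans hmR
      exact_mod_cast this
    obtain ⟨hqS, hκq⟩ := hprR q hq hqR
    obtain ⟨m1, hm1'⟩ := hqm
    have hFv : F = m ^ 2 * (H.disc v' / 2) := by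
      rw [hF, hv', half_comb hH]
    obtain ⟨M, hM1, hM2⟩ := hv q hq (hS3 q hqS)
    have hq0 : (q : ℤ) ≠ 0 := by exact_mod_cast hq.ne_zero
    refine hκ2 q hq (hS3 q hqS) (κ q - 1) (by omega) ⟨m1 • v', H.isHodge_smul _ hw'.1, M, ?_, hM2⟩
    rw [half_smul hH]
    apply mul_left_cancel₀ (pow_ne_zero 2 hq0)
    have hpow : (q : ℤ) ^ κ q = q * (q : ℤ) ^ (κ q - 1) := by
      rw [← pow_succ']
      congr 1
      omega
    rw [hpow] at hM1
    rw [hFv, hm1'] at hM1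
    linear_combination hM1
  · -- the greatest common divisor
    intro s
    constructor
    · intro h
      apply hsR
      · have := h _ _ _ (inMukai_a2 (H := H)).1
        rwa [pairing_a hw] at this
      · have := h _ _ _ (inMukai_a2 (H := H)).2
        rwa [pairing_b hw] at this
    · intro h v' a' b' hw'
      exact h.trans (hRdvd _ fun p hp => hpd p hp _ _ _ hw hnm v' a' b' hw')
  · -- all orders are multiples
    rintro r ⟨-, w, a, b, hwm, hiso, -, hdiv⟩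
    have h1 : (R : ℤ) ∣ r := by
      apply hRdvd
      intro p hp
      rw [← hdiv]
      intro v' a' b' hw'
      exact hpd p hp w a b hwm (nm_of_iso hH hwm hiso) v' a' b' hw'
    exact_mod_cast h1
  · -- the local description
    intro p hp
    refine ⟨fun h1 hd => hS3 p (hprR p hp hd).1 h1, fun h3 k => ?_⟩
    constructor
    · intro hk hd
      have hle := hκ3 p hp h3 k hk
      have hpdR : p ∣ R := (dvd_pow_self p (Nat.succ_ne_zero k)).trans hd
      obtain ⟨hpS, -⟩ := hprR p hp hpdR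
      obtain ⟨R', hR1, hR2⟩ := hRsplit p hpS
      have hd' : (p : ℤ) ^ (κ p + 1) ∣ R := by
        have h5 : p ^ (κ p + 1) ∣ R := (pow_dvd_pow p (by omega)).trans hd
        exact_mod_cast h5
      rw [hR1, pow_succ] at hd'
      exact hR2 ((mul_dvd_mul_iff_left (pow_ne_zero _ (by exact_mod_cast hp.ne_zero))).1 hd')
    · intro hn
      refine (hκ1 p hp h3).mono hH ?_
      by_contra hcon
      by_cases hpS : p ∈ S
      · apply hn
        have h5 : (p : ℤ) ^ (k + 1) ∣ R := (pow_dvd_pow _ (by omega)).trans (hpR p hpS)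
        exact_mod_cast h5
      · rw [hnS p hp h3 hpS] at hcon
        omega

/-- the existence of a twisted K3 surface means that there is a class whose discriminant is twice
a norm -/
theorem exists_of_order (hH : H.IsCohomology) {r : ℕ} (h : TwistedK3OfOrder H r) :
    ∃ v, H.IsHodge v ∧ 0 < H.disc v ∧ ∃ a b : ℤ, nm a b = H.disc v / 2 := by
  obtain ⟨hr, v, a, b, hw, hiso, hprim, hdiv⟩ := h
  have h1 := nm_of_iso hH hw hiso
  have h2 := disc_half hH v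
  refine ⟨v, hw.1, ?_, a, b, h1⟩
  have h3 := disc_nonneg hH hw.1
  rcases h3.lt_or_eq with h | h
  · exact h
  exfalso
  -- the discriminant is zero
  have hn : nm a b = 0 := by rw [h1, ← h]; norm_num
  obtain ⟨rfl, rfl⟩ := nm_eq_zero hn
  have h4 : (3 : ℤ) • v = H.ip H.h v • H.h := by
    have h5 : H.IsHodge ((3 : ℤ) • v - H.ip H.h v • H.h) :=
      H.isHodge_sub (H.isHodge_smul _ hw.1) (H.isHodge_smul _ hH.h_hodge)
    have h6 : H.ip ((3 : ℤ) • v - H.ip H.h v • H.h) ((3 : ℤ) • v - H.ip H.h v • H.h) =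
        3 * H.disc v := by
      simp only [disc, ip_sub_left, ip_sub_right, ip_smul_left, ip_smul_right, hH.h_self,
        hH.comm v H.h]
      ring
    rw [← h, mul_zero] at h6
    by_contra hne
    have := hH.pos _ h5 (sub_ne_zero.2 hne)
    omega
  obtain ⟨c, hc1, hc2⟩ := hH.h_prim (by norm_num) h4
  have hu := hprim 2 c 0 0 0 ⟨H.isHodge_zero, by rw [ip_zero_right]; norm_num⟩
    (by rw [smul_zero, zero_add]; exact hc2) (by norm_num) (by norm_num)
  rw [Int.isUnit_iff] at hu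
  omega

/-- **Existence of associated twisted K3 surfaces.** -/
theorem exists_order_iff (hH : H.IsCohomology) : (∃ r, TwistedK3OfOrder H r) ↔
    2 ≤ H.rank ∧ ∀ p : ℕ, p.Prime → p % 3 ≠ 1 → ∃ k, HasLevel H p k := by
  constructor
  · rintro ⟨r, hr⟩
    obtain ⟨v, hv, h0, a, b, hab⟩ := exists_of_order hH hr
    refine ⟨two_le_rank hH hv h0, fun p hp h3 => ?_⟩
    obtain ⟨k, hk⟩ := norm_level hp h3 (a := a) (b := b) (by
      rintro ⟨rfl, rfl⟩
      have h2 := disc_half hH v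
      unfold nm at hab
      omega)
    exact ⟨k, v, hv, by rw [← hab]; exact hk⟩
  · rintro ⟨hr, hloc⟩
    rw [H.rank_eq] at hr
    obtain ⟨v, hv, h0, a, b, hab⟩ := exists_norm hH hr fun _ p hp h3 => hloc p hp h3
    obtain ⟨r, h1, -⟩ := least_order hH hv h0 (a0 := a) (b0 := b) (by
      rw [hab]
      unfold nm
      omega)
    exact ⟨r, h1⟩

theorem exists_order_of_rank (hH : H.IsCohomology) (hr : 4 ≤ H.rank) :
    ∃ r, TwistedK3OfOrder H r := by
  rw [H.rank_eq] at hr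
  obtain ⟨v, hv, h0, a, b, hab⟩ := exists_norm hH (by omega) fun h => absurd hr (by omega)
  obtain ⟨r, h1, -⟩ := least_order hH hv h0 (a0 := a) (b0 := b) (by
    rw [hab]
    unfold nm
    omega)
  exact ⟨r, h1⟩

/-- order one -/
theorem order_one_iff (hH : H.IsCohomology) : TwistedK3OfOrder H 1 ↔ H.HasK3 := by
  constructor
  · intro h
    obtain ⟨v, hv, h0, a, b, hab⟩ := exists_of_order hH h
    obtain ⟨r0, -, h2, h3⟩ := least_order hH hv h0 hab
    have hr0 : r0 = 1 := Nat.dvd_one.1 (h2 1 h)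
    have hhalf := disc_half hH v
    have hab' : H.disc v = 2 * (a ^ 2 + a * b + b ^ 2) := by
      rw [hhalf, ← hab]
      rfl
    obtain ⟨w, hw0, hw⟩ := core (hq hH) (v0 := ⟨v, hv⟩) (a0 := a) (b0 := b) hab.symm
      (by rw [hq_f]; show H.disc v / 2 ≠ 0; omega) (fun _ => 0) (fun _ _ _ _ => rfl) (by
        intro p hp hp3 _
        obtain ⟨u, hu, hl⟩ := ((h3 p hp).2 hp3 0).2 (by
          rw [hr0, zero_add, pow_one, Nat.dvd_one]
          exact hp.one_lt.ne')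
        exact ⟨⟨u, hu⟩, hl⟩)
    have hwpos : 0 < H.disc (w : Fin 23 → ℤ) := by
      rw [hq_f] at hw0
      have := disc_half hH (w : Fin 23 → ℤ)
      omega
    exact hasK3_of_good hH w.2 hwpos fun p hp hp3 => (hw p hp hp3).good
  · intro h
    obtain ⟨hr, hloc⟩ := (hasK3_iff hH).1 h
    have hlev : ∀ p : ℕ, p.Prime → p % 3 ≠ 1 → HasLevel H p 0 := by
      intro p hp h3
      obtain ⟨u, hu, hadm⟩ := hloc p hp
      exact ⟨u, hu, (good_of_adm hH hp h3 hadm).lev⟩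
    obtain ⟨r, hr'⟩ := (exists_order_iff hH).2 ⟨hr, fun p hp h3 => ⟨0, hlev p hp h3⟩⟩
    obtain ⟨v, hv, h0, a, b, hab⟩ := exists_of_order hH hr'
    obtain ⟨r0, h1, -, h3⟩ := least_order hH hv h0 hab
    have hr0 : r0 = 1 := by
      by_contra hne
      obtain ⟨q, hq, hqd⟩ := Nat.exists_prime_and_dvd hne
      by_cases hq3 : q % 3 = 1
      · exact (h3 q hq).1 hq3 hqd
      · exact (((h3 q hq).2 hq3 0).1 (hlev q hq hq3)) (by rw [zero_add, pow_one]; exact hqd)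
    rw [← hr0]
    exact h1

end Pool.Agent.N801.CF
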