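import Pool.Agent.N801.CF.Pad
import Pool.Agent.N801.CF.Bridge

/-!
# Orthogonal Hodge classes
-/

set_option autoImplicit false

namespace Pool.Agent.N801.CF

open Pool.Agent.Y95.Q Pool.Agent.Y95.Q.H4 Pool.Agent.X328.CF Module

variable {X : CubicFourfold} {H : H4 X}

theorem ip_self_ne (hH : H.IsCohomology) (w : H.hodge) (hw : w ≠ 0) :
    H.ip (w : Fin 23 → ℤ) w ≠ 0 :=
  (hH.pos _ w.2 fun h => hw (Subtype.ext h)).ne'

/-- orthogonal families are independent -/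
theorem orth_indep (hH : H.IsCohomology) {k : ℕ} {w : Fin k → H.hodge} (hw : ∀ i, w i ≠ 0)
    (ho : ∀ i j, i ≠ j → H.ip (w i : Fin 23 → ℤ) (w j) = 0) : LinearIndependent ℤ w := by
  rw [Fintype.linearIndependent_iff]
  intro g hg i
  have h1 : H.ip ((∑ j, g j • w j : H.hodge) : Fin 23 → ℤ) (w i) = 0 := by
    rw [hg]
    exact ip_zero_left H _
  have h2 : ((∑ j, g j • w j : H.hodge) : Fin 23 → ℤ) = ∑ j, g j • (w j : Fin 23 → ℤ) := by
    push_cast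
    rfl
  rw [h2, ip_sum_left, Finset.sum_eq_single i] at h1
  · rw [ip_smul_left] at h1
    exact (mul_eq_zero.1 h1).resolve_right (ip_self_ne hH _ (hw i))
  · intro j _ hj
    rw [ip_smul_left, ho j i hj, mul_zero]
  · simp

/-- there is a Hodge class orthogonal to fewer classes than the rank -/
theorem exists_orth {k : ℕ} (hk : k < finrank ℤ H.hodge) (w : Fin k → Fin 23 → ℤ) :
    ∃ v : H.hodge, v ≠ 0 ∧ ∀ i, H.ip (v : Fin 23 → ℤ) (w i) = 0 := by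
  let φ : H.hodge →ₗ[ℤ] (Fin k → ℤ) :=
    { toFun := fun v i => H.ip (v : Fin 23 → ℤ) (w i)
      map_add' := fun x y => by
        funext i
        simp only [Submodule.coe_add, ip_add_left, Pi.add_apply]
      map_smul' := fun n x => by
        funext i
        simp only [Submodule.coe_smul, ip_smul_left, Pi.smul_apply, smul_eq_mul, RingHom.id_apply] }
  have hni : ¬ Function.Injective φ := by
    intro hinj
    have := LinearMap.finrank_le_finrank_of_injective hinj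
    rw [finrank_fin_fun] at this
    omega
  rw [← LinearMap.ker_eq_bot, Submodule.eq_bot_iff] at hni
  push Not at hni
  obtain ⟨v, hv, hv0⟩ := hni
  refine ⟨v, hv0, fun i => ?_⟩
  exact congrFun (LinearMap.mem_ker.1 hv) i

/-- every Hodge class depends on an orthogonal family of the right length -/
theorem dep (hH : H.IsCohomology) {k : ℕ} {w : Fin k → H.hodge} (hw : ∀ i, w i ≠ 0)
    (ho : ∀ i j, i ≠ j → H.ip (w i : Fin 23 → ℤ) (w j) = 0) (hk : k = finrank ℤ H.hodge)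
    (u : H.hodge) : ∃ (m : ℤ) (c : Fin k → ℤ), m ≠ 0 ∧
      m • (u : Fin 23 → ℤ) = ∑ i, c i • (w i : Fin 23 → ℤ) := by
  have hli := orth_indep hH hw ho
  have hnl : ¬ LinearIndependent ℤ (Fin.cons u w : Fin (k + 1) → H.hodge) := by
    intro h
    have := h.fintype_card_le_finrank
    rw [Fintype.card_fin] at this
    omega
  rw [Fintype.not_linearIndependent_iff] at hnl
  obtain ⟨g, hg, hne⟩ := hnl
  rw [Fin.sum_univ_succ] at hg
  simp only [Fin.cons_zero, Fin.cons_succ] at hg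
  have hg0 : g 0 ≠ 0 := by
    intro h0
    rw [h0, zero_smul, zero_add] at hg
    have := (Fintype.linearIndependent_iff.1 hli) _ hg
    obtain ⟨i, hi⟩ := hne
    refine Fin.cases (fun hi => hi h0) (fun j hi => hi (this j)) i hi
  refine ⟨g 0, fun i => -g i.succ, hg0, ?_⟩
  have h1 : (((g 0 • u + ∑ i, g (Fin.succ i) • w i : H.hodge)) : Fin 23 → ℤ) = 0 := by
    rw [hg]
    rfl
  push_cast at h1
  rw [eq_neg_of_add_eq_zero_left h1, ← Finset.sum_neg_distrib]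
  refine Finset.sum_congr rfl fun i _ => ?_
  rw [neg_smul]

/-- the discriminant of a primitive class -/
theorem disc_prim (hH : H.IsCohomology) {v : Fin 23 → ℤ} (hv : H.ip v H.h = 0) :
    H.disc v = 3 * H.ip v v := by
  rw [disc, hH.comm H.h v, hv]
  ring

theorem two_norm (u v : ℤ) : u ^ 2 + 3 * v ^ 2 =
    (u - v) ^ 2 + (u - v) * (2 * v) + (2 * v) ^ 2 := by ring

/-- **Existence of a class whose discriminant is twice a norm.** -/
theorem exists_twisted (hH : H.IsCohomology) (hr : 2 ≤ finrank ℤ H.hodge)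
    (hloc : ∀ p : ℕ, p.Prime → p % 3 ≠ 1 → ∃ w, H.IsHodge w ∧ AdmissibleAt p (H.disc w)) :
    ∃ v, H.IsHodge v ∧ 0 < H.disc v ∧ ∃ a b : ℤ, H.disc v = 2 * (a ^ 2 + a * b + b ^ 2) := by
  have hh0 : H.h ≠ 0 := by
    intro h
    have := hH.h_self
    rw [h, ip_zero_left] at this
    norm_num at this
  let w0 : H.hodge := ⟨H.h, hH.h_hodge⟩
  have hw0 : w0 ≠ 0 := fun h => hh0 (congrArg Subtype.val h)
  -- the first class
  obtain ⟨w1, hw1, ho1⟩ := exists_orth (H := H) (k := 1) (by omega) ![H.h]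
  have h10 : H.ip (w1 : Fin 23 → ℤ) H.h = 0 := ho1 0
  have h01 : H.ip H.h (w1 : Fin 23 → ℤ) = 0 := by rw [hH.comm]; exact h10
  have hp1 : 0 < H.ip (w1 : Fin 23 → ℤ) w1 := hH.pos _ w1.2 fun h => hw1 (Subtype.ext h)
  have hd1 := disc_prim hH h10
  have hf1 := disc_half hH (w1 : Fin 23 → ℤ)
  set D1 := H.disc (w1 : Fin 23 → ℤ) / 2 with hD1
  have hD1p : 0 < D1 := by omega
  -- local data
  have hgood : ∀ p : ℕ, p.Prime → p % 3 ≠ 1 → ∃ u : H.hodge, Good p (H.disc (u : Fin 23 → ℤ) / 2) := by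
    intro p hp h3
    obtain ⟨u, hu, hadm⟩ := hloc p hp h3
    exact ⟨⟨u, hu⟩, good_of_adm hH hp h3 hadm⟩
  by_cases hr2 : finrank ℤ H.hodge = 2
  · -- rank two
    have hdep := dep hH (k := 2) (w := ![w0, w1]) (by
      intro i
      fin_cases i
      · exact hw0
      · exact hw1) (by
      intro i j hij
      fin_cases i <;> fin_cases j
      · exact absurd rfl hij
      · exact h01
      · exact h10
      · exact absurd rfl hij) hr2.symm
    obtain ⟨u, v, x, hux, hx⟩ := glob1 hD1p (by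
      intro p hp h3
      obtain ⟨t, ht⟩ := hgood p hp h3
      obtain ⟨m, c, hm, hc⟩ := hdep t
      refine ⟨_, m, c 1, ht, hm, ?_⟩
      have e1 : H.disc (m • (t : Fin 23 → ℤ)) = m ^ 2 * H.disc (t : Fin 23 → ℤ) := disc_smul _ _
      have e2 : H.disc (m • (t : Fin 23 → ℤ)) = c 1 ^ 2 * H.disc (w1 : Fin 23 → ℤ) := by
        rw [hc, Fin.sum_univ_two]
        show H.disc (c 0 • H.h + c 1 • (w1 : Fin 23 → ℤ)) = _
        rw [add_comm, hH.disc_comb]
      have e3 := disc_half hH (t : Fin 23 → ℤ)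
      have e4 : 2 * (m ^ 2 * (H.disc (t : Fin 23 → ℤ) / 2)) = 2 * (D1 * c 1 ^ 2) := by
        calc 2 * (m ^ 2 * (H.disc (t : Fin 23 → ℤ) / 2)) = m ^ 2 * (2 * (H.disc (t : Fin 23 → ℤ) / 2)) := by ring
          _ = m ^ 2 * H.disc (t : Fin 23 → ℤ) := by rw [← e3]
          _ = c 1 ^ 2 * H.disc (w1 : Fin 23 → ℤ) := by rw [← e1, e2]
          _ = 2 * (D1 * c 1 ^ 2) := by rw [hf1]; ring
      omega)
    obtain ⟨N, hN, z, hz⟩ := common ![u, v, x]
    have z0 : (N : ℚ) * u = z 0 := hz 0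
    have z1 : (N : ℚ) * v = z 1 := hz 1
    have z2 : (N : ℚ) * x = z 2 := hz 2
    have hz2 : z 2 ≠ 0 := by
      intro h
      rw [h] at z2
      have : (N : ℚ) ≠ 0 := by exact_mod_cast hN.ne'
      rcases mul_eq_zero.1 (z2.trans (by norm_num)) with h | h
      · exact this h
      · exact hx h
    have hq : z 0 ^ 2 + 3 * z 1 ^ 2 = D1 * z 2 ^ 2 := by
      have : ((z 0 : ℚ)) ^ 2 + 3 * (z 1 : ℚ) ^ 2 = D1 * (z 2 : ℚ) ^ 2 := by
        rw [← z0, ← z1, ← z2]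
        linear_combination (N : ℚ) ^ 2 * hux
      exact_mod_cast this
    refine ⟨z 2 • (w1 : Fin 23 → ℤ), H.isHodge_smul _ w1.2, ?_, z 0 - z 1, 2 * z 1, ?_⟩
    · rw [disc_smul, hf1]
      have := sq_pos_of_ne_zero hz2
      positivity
    · rw [disc_smul, hf1, ← two_norm, hq]
      ring
  -- the second class
  obtain ⟨w2, hw2, ho2⟩ := exists_orth (H := H) (k := 2) (by omega) ![H.h, w1]
  have h20 : H.ip (w2 : Fin 23 → ℤ) H.h = 0 := ho2 0
  have h21 : H.ip (w2 : Fin 23 → ℤ) w1 = 0 := ho2 1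
  have h02 : H.ip H.h (w2 : Fin 23 → ℤ) = 0 := by rw [hH.comm]; exact h20
  have h12 : H.ip (w1 : Fin 23 → ℤ) w2 = 0 := by rw [hH.comm]; exact h21
  have hp2 : 0 < H.ip (w2 : Fin 23 → ℤ) w2 := hH.pos _ w2.2 fun h => hw2 (Subtype.ext h)
  have hd2 := disc_prim hH h20
  have hf2 := disc_half hH (w2 : Fin 23 → ℤ)
  set D2 := H.disc (w2 : Fin 23 → ℤ) / 2 with hD2
  have hD2p : 0 < D2 := by omega
  by_cases hr3 : finrank ℤ H.hodge = 3
  · -- rank three
    have hdep := dep hH (k := 3) (w := ![w0, w1, w2]) (by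
      intro i
      fin_cases i
      · exact hw0
      · exact hw1
      · exact hw2) (by
      intro i j hij
      fin_cases i <;> fin_cases j
      · exact absurd rfl hij
      · exact h01
      · exact h02
      · exact h10
      · exact absurd rfl hij
      · exact h12
      · exact h20
      · exact h21
      · exact absurd rfl hij) hr3.symm
    have hcomb : ∀ c d e : ℤ, H.disc (c • H.h + d • (w1 : Fin 23 → ℤ) + e • (w2 : Fin 23 → ℤ)) =
        d ^ 2 * H.disc (w1 : Fin 23 → ℤ) + e ^ 2 * H.disc (w2 : Fin 23 → ℤ) := by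
      intro c d e
      simp only [disc, ip_add_left, ip_add_right, ip_smul_left, ip_smul_right, hH.h_self, h10, h01,
        h20, h02, h12, h21]
      ring
    obtain ⟨u, v, x, y, hux, hpos⟩ := glob2 hD1p hD2p (by
      intro p hp h3
      obtain ⟨t, ht⟩ := hgood p hp h3
      obtain ⟨m, c, hm, hc⟩ := hdep t
      refine ⟨_, m, c 1, c 2, ht, hm, ?_⟩
      have e1 : H.disc (m • (t : Fin 23 → ℤ)) = m ^ 2 * H.disc (t : Fin 23 → ℤ) := disc_smul _ _
      have e2 : H.disc (m • (t : Fin 23 → ℤ)) = c 1 ^ 2 * H.disc (w1 : Fin 23 → ℤ)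
          + c 2 ^ 2 * H.disc (w2 : Fin 23 → ℤ) := by
        rw [hc, Fin.sum_univ_three]
        exact hcomb _ _ _
      have e3 := disc_half hH (t : Fin 23 → ℤ)
      have e4 : 2 * (m ^ 2 * (H.disc (t : Fin 23 → ℤ) / 2)) = 2 * (D1 * c 1 ^ 2 + D2 * c 2 ^ 2) := by
        calc 2 * (m ^ 2 * (H.disc (t : Fin 23 → ℤ) / 2)) = m ^ 2 * (2 * (H.disc (t : Fin 23 → ℤ) / 2)) := by ring
          _ = m ^ 2 * H.disc (t : Fin 23 → ℤ) := by rw [← e3]
          _ = c 1 ^ 2 * H.disc (w1 : Fin 23 → ℤ) + c 2 ^ 2 * H.disc (w2 : Fin 23 → ℤ) := by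
            rw [← e1, e2]
          _ = 2 * (D1 * c 1 ^ 2 + D2 * c 2 ^ 2) := by rw [hf1, hf2]; ring
      omega)
    obtain ⟨N, hN, z, hz⟩ := common ![u, v, x, y]
    have z0 : (N : ℚ) * u = z 0 := hz 0
    have z1 : (N : ℚ) * v = z 1 := hz 1
    have z2 : (N : ℚ) * x = z 2 := hz 2
    have z3 : (N : ℚ) * y = z 3 := hz 3
    have hN' : (0 : ℚ) < N := by exact_mod_cast hN
    have hq : z 0 ^ 2 + 3 * z 1 ^ 2 = D1 * z 2 ^ 2 + D2 * z 3 ^ 2 := by
      have : ((z 0 : ℚ)) ^ 2 + 3 * (z 1 : ℚ) ^ 2 = D1 * (z 2 : ℚ) ^ 2 + D2 * (z 3 : ℚ) ^ 2 := by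
        rw [← z0, ← z1, ← z2, ← z3]
        linear_combination (N : ℚ) ^ 2 * hux
      exact_mod_cast this
    have hqp : 0 < z 0 ^ 2 + 3 * z 1 ^ 2 := by
      have : (0 : ℚ) < ((z 0 : ℚ)) ^ 2 + 3 * (z 1 : ℚ) ^ 2 := by
        rw [← z0, ← z1]
        have e : ((N : ℚ) * u) ^ 2 + 3 * ((N : ℚ) * v) ^ 2 = (N : ℚ) ^ 2 * (u ^ 2 + 3 * v ^ 2) := by
          ring
        rw [e]
        positivity
      exact_mod_cast this
    have hdd : H.disc ((0 : ℤ) • H.h + z 2 • (w1 : Fin 23 → ℤ) + z 3 • (w2 : Fin 23 → ℤ)) =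
        2 * (z 0 ^ 2 + 3 * z 1 ^ 2) := by
      rw [hcomb, hf1, hf2, hq]
      ring
    refine ⟨(0 : ℤ) • H.h + z 2 • (w1 : Fin 23 → ℤ) + z 3 • (w2 : Fin 23 → ℤ),
      H.isHodge_add (H.isHodge_add (H.isHodge_smul _ hH.h_hodge) (H.isHodge_smul _ w1.2))
        (H.isHodge_smul _ w2.2), ?_, z 0 - z 1, 2 * z 1, ?_⟩
    · rw [hdd]
      omega
    · rw [hdd, ← two_norm]
  -- the third class
  obtain ⟨w3, hw3, ho3⟩ := exists_orth (H := H) (k := 3) (by omega) ![H.h, w1, w2]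
  have h30 : H.ip (w3 : Fin 23 → ℤ) H.h = 0 := ho3 0
  have h31 : H.ip (w3 : Fin 23 → ℤ) w1 = 0 := ho3 1
  have h32 : H.ip (w3 : Fin 23 → ℤ) w2 = 0 := ho3 2
  have h03 : H.ip H.h (w3 : Fin 23 → ℤ) = 0 := by rw [hH.comm]; exact h30
  have h13 : H.ip (w1 : Fin 23 → ℤ) w3 = 0 := by rw [hH.comm]; exact h31
  have h23 : H.ip (w2 : Fin 23 → ℤ) w3 = 0 := by rw [hH.comm]; exact h32
  have hp3 : 0 < H.ip (w3 : Fin 23 → ℤ) w3 := hH.pos _ w3.2 fun h => hw3 (Subtype.ext h)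
  have hd3 := disc_prim hH h30
  have hf3 := disc_half hH (w3 : Fin 23 → ℤ)
  set D3 := H.disc (w3 : Fin 23 → ℤ) / 2 with hD3
  have hD3p : 0 < D3 := by omega
  have hcomb : ∀ d e f : ℤ, H.disc (d • (w1 : Fin 23 → ℤ) + e • (w2 : Fin 23 → ℤ)
      + f • (w3 : Fin 23 → ℤ)) = d ^ 2 * H.disc (w1 : Fin 23 → ℤ)
      + e ^ 2 * H.disc (w2 : Fin 23 → ℤ) + f ^ 2 * H.disc (w3 : Fin 23 → ℤ) := by
    intro d e f
    simp only [disc, ip_add_left, ip_add_right, ip_smul_left, ip_smul_right, h10, h01,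
      h20, h02, h12, h21, h30, h03, h31, h13, h32, h23]
    ring
  obtain ⟨u, v, x, y, t, hux, hpos⟩ := glob3 hD1p hD2p hD3p
  obtain ⟨N, hN, z, hz⟩ := common ![u, v, x, y, t]
  have z0 : (N : ℚ) * u = z 0 := hz 0
  have z1 : (N : ℚ) * v = z 1 := hz 1
  have z2 : (N : ℚ) * x = z 2 := hz 2
  have z3 : (N : ℚ) * y = z 3 := hz 3
  have z4 : (N : ℚ) * t = z 4 := hz 4
  have hN' : (0 : ℚ) < N := by exact_mod_cast hN
  have hq : z 0 ^ 2 + 3 * z 1 ^ 2 = D1 * z 2 ^ 2 + D2 * z 3 ^ 2 + D3 * z 4 ^ 2 := by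
    have : ((z 0 : ℚ)) ^ 2 + 3 * (z 1 : ℚ) ^ 2 = D1 * (z 2 : ℚ) ^ 2 + D2 * (z 3 : ℚ) ^ 2
        + D3 * (z 4 : ℚ) ^ 2 := by
      rw [← z0, ← z1, ← z2, ← z3, ← z4]
      linear_combination (N : ℚ) ^ 2 * hux
    exact_mod_cast this
  have hqp : 0 < z 0 ^ 2 + 3 * z 1 ^ 2 := by
    have : (0 : ℚ) < ((z 0 : ℚ)) ^ 2 + 3 * (z 1 : ℚ) ^ 2 := by
      rw [← z0, ← z1]
      have e : ((N : ℚ) * u) ^ 2 + 3 * ((N : ℚ) * v) ^ 2 = (N : ℚ) ^ 2 * (u ^ 2 + 3 * v ^ 2) := by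
        ring
      rw [e]
      positivity
    exact_mod_cast this
  have hdd : H.disc (z 2 • (w1 : Fin 23 → ℤ) + z 3 • (w2 : Fin 23 → ℤ)
      + z 4 • (w3 : Fin 23 → ℤ)) = 2 * (z 0 ^ 2 + 3 * z 1 ^ 2) := by
    rw [hcomb, hf1, hf2, hf3, hq]
    ring
  refine ⟨z 2 • (w1 : Fin 23 → ℤ) + z 3 • (w2 : Fin 23 → ℤ) + z 4 • (w3 : Fin 23 → ℤ),
    H.isHodge_add (H.isHodge_add (H.isHodge_smul _ w1.2) (H.isHodge_smul _ w2.2))
      (H.isHodge_smul _ w3.2), ?_, z 0 - z 1, 2 * z 1, ?_⟩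
  · rw [hdd]
    omega
  · rw [hdd, ← two_norm]

end Pool.Agent.N801.CF
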