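import Pool.Agent.R847.QB.Meyer
import Pool.Agent.R847.QB.Dir
import Pool.Agent.R847.QB.Iso
import Pool.Agent.N801.CF.Local

/-!
# Rational solutions from local ones
-/

set_option autoImplicit false

namespace Pool.Agent.N801.CF

open Pool.Agent.W313.BMX (Splits splits_swap splits_comm splits_mul_sq)
open Pool.Agent.R847.QB

/-- `-3` is a square for the primes congruent to `1` modulo `3` -/
theorem sq_neg_three {p : ℕ} [hp : Fact p.Prime] (h : p % 3 = 1) :
    IsSquare (((-3 : ℤ)) : ℚ_[p]) := by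
  have hp2 : p ≠ 2 := by rintro rfl; norm_num at h
  have hp3 : p ≠ 3 := by rintro rfl; norm_num at h
  have h30 : ((3 : ℕ) : ZMod p) ≠ 0 := by
    intro h8
    rw [ZMod.natCast_eq_zero_iff] at h8
    exact hp3 ((Nat.prime_dvd_prime_iff_eq hp.out Nat.prime_three).1 h8)
  have h3d : ¬ (p : ℤ) ∣ -3 := by
    intro hd
    rw [dvd_neg] at hd
    have : p ∣ 3 := by exact_mod_cast hd
    exact hp3 ((Nat.prime_dvd_prime_iff_eq hp.out Nat.prime_three).1 this)
  have h1d : ¬ (p : ℤ) ∣ 1 := by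
    intro hd
    have : p ∣ 1 := by exact_mod_cast hd
    exact hp.out.one_lt.ne' (Nat.dvd_one.1 this)
  have hcard : 3 ∣ Fintype.card (ZMod p)ˣ := by
    rw [ZMod.card_units]
    have := hp.out.two_le
    omega
  obtain ⟨x, hx⟩ := exists_prime_orderOf_dvd_card 3 hcard
  have h1 : x ^ 3 = 1 := by rw [← hx]; exact pow_orderOf_eq_one x
  have h2 : x ≠ 1 := by
    rintro rfl
    rw [orderOf_one] at hx
    norm_num at hx
  have h3 : (x : ZMod p) ^ 3 = 1 := by
    have := congrArg (fun u : (ZMod p)ˣ => (u : ZMod p)) h1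
    simpa using this
  have h4 : (x : ZMod p) - 1 ≠ 0 := by
    intro h5
    apply h2
    ext
    rw [Units.val_one]
    exact sub_eq_zero.1 h5
  have h5 : (x : ZMod p) ^ 2 + x + 1 = 0 := by
    have : ((x : ZMod p) - 1) * ((x : ZMod p) ^ 2 + x + 1) = 0 := by linear_combination h3
    exact (mul_eq_zero.1 this).resolve_left h4
  have hne : (((-3 : ℤ)) : ZMod p) ≠ 0 := by
    push_cast at h30 ⊢
    exact neg_ne_zero.2 h30
  have hleg : legendreSym p 1 = legendreSym p (-3) := by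
    rw [legendreSym.at_one, eq_comm, legendreSym.eq_one_iff p hne]
    refine ⟨2 * x + 1, ?_⟩
    push_cast
    linear_combination (-4) * h5
  have := Pool.Agent.W335.BMX.odd1 p hp2 1 (-3) h1d h3d hleg
  simpa using this

theorem splits_all {p : ℕ} [Fact p.Prime] (h : p % 3 = 1) (c : ℚ_[p]) :
    Splits (((-3 : ℤ)) : ℚ_[p]) c := by
  obtain ⟨r, hr⟩ := sq_neg_three h
  exact ⟨1, 0, r, Or.inl one_ne_zero, by rw [hr]; ring⟩

theorem good_ne {p : ℕ} {n : ℤ} (h : Good p n) : n ≠ 0 := by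
  rintro rfl
  by_cases h3 : p = 3
  · have := h.1 h3
    omega
  · exact h.2 h3 (dvd_zero _)

/-- good numbers are local norms -/
theorem splits_good {p : ℕ} [hp : Fact p.Prime] (h3 : p % 3 ≠ 1) {n : ℤ} (h : Good p n) :
    Splits (((-3 : ℤ)) : ℚ_[p]) (n : ℚ_[p]) := by
  have sq3 : ∀ k : ℤ, k % 3 = 1 → p = 3 → IsSquare ((k : ℤ) : ℚ_[p]) := by
    intro k hk h33
    subst h33
    have h1 : legendreSym 3 1 = legendreSym 3 k := by
      have h2 : (((1 : ℤ)) : ZMod 3) = ((k : ℤ) : ZMod 3) := by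
        rw [ZMod.intCast_eq_intCast_iff_dvd_sub]
        push_cast
        omega
      unfold legendreSym
      rw [h2]
    have := Pool.Agent.W335.BMX.odd1 3 (by norm_num) 1 k (by norm_num) (by push_cast; omega) h1
    simpa using this
  by_cases h33 : p = 3
  · rcases h.1 h33 with h1 | h1
    · obtain ⟨r, hr⟩ := sq3 n h1 h33
      exact ⟨0, 1, r, Or.inr (Or.inl one_ne_zero), by rw [hr]; ring⟩
    · obtain ⟨k, rfl⟩ : ∃ k, n = 3 * k := ⟨n / 3, by omega⟩
      obtain ⟨r, hr⟩ := sq3 k (by omega) h33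
      refine ⟨r, 1, 0, Or.inr (Or.inl one_ne_zero), ?_⟩
      push_cast
      rw [hr]
      ring
  · have hn := h.2 h33
    have h3d : ¬ (p : ℤ) ∣ -3 := by
      intro hd
      rw [dvd_neg] at hd
      have : p ∣ 3 := by exact_mod_cast hd
      exact h33 ((Nat.prime_dvd_prime_iff_eq hp.out Nat.prime_three).1 this)
    by_cases h2 : p = 2
    · subst h2
      have key : ∀ a b : ℤ, (8 : ℤ) ∣ nm a b - n → ¬ (2 : ℤ) ∣ nm a b →
          Splits (((-3 : ℤ)) : ℚ_[2]) (n : ℚ_[2]) := by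
        intro a b h8 hnm
        have h9 := dir_square 2 n (nm a b) hn (by push_cast; exact hnm) (by push_cast; exact h8)
        obtain ⟨r, hr⟩ := h9
        have hn0 : (n : ℚ_[2]) ≠ 0 := Int.cast_ne_zero.2 (good_ne h)
        have hnm0 : ((nm a b : ℤ) : ℚ_[2]) ≠ 0 := Int.cast_ne_zero.2 (by
          intro h0
          exact hnm (by rw [h0]; exact dvd_zero _))
        have hr0 : r ≠ 0 := by
          rintro rfl
          rw [mul_zero] at hr
          push_cast at hr hnm0
          exact mul_ne_zero hn0 hnm0 hr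
        refine ⟨b, 2 * r / n, 2 * a + b, Or.inr (Or.inl (div_ne_zero (mul_ne_zero two_ne_zero hr0)
          hn0)), ?_⟩
        have e : (n : ℚ_[2]) * (2 * r / n) ^ 2 = 4 * (nm a b : ℤ) := by
          field_simp
          push_cast at hr ⊢
          linear_combination (-4) * hr
        rw [e]
        unfold nm
        push_cast
        ring
      have hn2 : ¬ (2 : ℤ) ∣ n := by exact_mod_cast hn
      have h8 : n % 8 = 1 ∨ n % 8 = 3 ∨ n % 8 = 5 ∨ n % 8 = 7 := by omega
      rcases h8 with h8 | h8 | h8 | h8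
      · exact key 1 0 (by unfold nm; omega) (by unfold nm; norm_num)
      · exact key 1 1 (by unfold nm; omega) (by unfold nm; norm_num)
      · exact key 3 1 (by unfold nm; omega) (by unfold nm; norm_num)
      · exact key 2 1 (by unfold nm; omega) (by unfold nm; norm_num)
    · exact splits_units h2 h3d hn

/-- the finite set of the primes dividing a number -/
theorem exists_bad {N : ℤ} (hN : N ≠ 0) : ∃ T : Finset Nat.Primes, ∀ p : Nat.Primes,
    p ∈ T ↔ ((p : ℕ) : ℤ) ∣ N := by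
  have hfin : {p : Nat.Primes | ((p : ℕ) : ℤ) ∣ N}.Finite := by
    refine Set.Finite.of_finite_image (f := fun p : Nat.Primes => (p : ℕ)) ?_
      (fun _ _ _ _ h => Subtype.ext h)
    refine (Set.finite_le_nat N.natAbs).subset ?_
    rintro _ ⟨p, hp, rfl⟩
    have h1 : (p : ℕ) ∣ N.natAbs := Int.natCast_dvd.1 hp
    exact Nat.le_of_dvd (Int.natAbs_pos.2 hN) h1
  exact ⟨hfin.toFinset, fun p => Set.Finite.mem_toFinset hfin⟩

/-- one variable -/
theorem glob1 {D : ℤ} (hD : 0 < D) (hloc : ∀ p : ℕ, p.Prime → p % 3 ≠ 1 →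
    ∃ n m β : ℤ, Good p n ∧ m ≠ 0 ∧ m ^ 2 * n = D * β ^ 2) :
    ∃ u v x : ℚ, u ^ 2 + 3 * v ^ 2 = D * x ^ 2 ∧ x ≠ 0 := by
  have hS : Splits (((-3 : ℤ)) : ℚ) (D : ℚ) := by
    refine global (by norm_num) hD.ne' ⟨2, Nat.prime_two⟩ ?_ ?_
    · rw [splits_real_iff (by norm_num) (by exact_mod_cast hD.ne')]
      exact Or.inr (by exact_mod_cast hD)
    · intro p _
      by_cases h3 : (p : ℕ) % 3 = 1
      · exact splits_all h3 _
      · obtain ⟨n, m, β, hn, hm, he⟩ := hloc p p.2 h3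
        have hn0 : ((n : ℤ) : ℚ_[(p : ℕ)]) ≠ 0 := Int.cast_ne_zero.2 (good_ne hn)
        have hm0 : ((m : ℤ) : ℚ_[(p : ℕ)]) ≠ 0 := Int.cast_ne_zero.2 hm
        have hD0 : ((D : ℤ) : ℚ_[(p : ℕ)]) ≠ 0 := Int.cast_ne_zero.2 hD.ne'
        refine (splits_class hD0 hn0 ?_).2 (splits_good h3 hn)
        have he' : (m : ℚ_[(p : ℕ)]) ^ 2 * n = D * β ^ 2 := by
          have h9 := congrArg (fun t : ℤ => (t : ℚ_[(p : ℕ)])) he
          push_cast at h9
          exact h9
        refine ⟨D * β / m, ?_⟩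
        field_simp
        linear_combination he'
  obtain ⟨u, v, hu⟩ := rep_of_splits (F := ℚ) (a := 1) (b := 3) (c := D) one_ne_zero three_ne_zero
    (by push_cast at hS; norm_num; exact hS)
  exact ⟨u, v, 1, by linear_combination hu, one_ne_zero⟩

/-- two variables -/
theorem glob2 {D E : ℤ} (hD : 0 < D) (hE : 0 < E) (hloc : ∀ p : ℕ, p.Prime → p % 3 ≠ 1 →
    ∃ n m β γ : ℤ, Good p n ∧ m ≠ 0 ∧ m ^ 2 * n = D * β ^ 2 + E * γ ^ 2) :
    ∃ u v x y : ℚ, u ^ 2 + 3 * v ^ 2 = D * x ^ 2 + E * y ^ 2 ∧ 0 < u ^ 2 + 3 * v ^ 2 := by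
  classical
  choose! n m β γ hn hm he using hloc
  obtain ⟨T, hT⟩ := exists_bad (N := 6 * (D * E)) (by positivity)
  let g : Nat.Primes → ℤ := fun p => if (p : ℕ) % 3 = 1 then D else n p
  have hg : ∀ p, g p ≠ 0 := by
    intro p
    by_cases h : (p : ℕ) % 3 = 1
    · simp only [g, h, if_true]; exact hD.ne'
    · simp only [g, h, if_false]; exact good_ne (hn p p.2 h)
  obtain ⟨c, q, hq, hc, hcT, hcn⟩ := dir_ T g 1 (Or.inl rfl) hg
  rw [mul_one] at hc
  have hD0 : ∀ p : Nat.Primes, ((D : ℤ) : ℚ_[(p : ℕ)]) ≠ 0 := fun p => Int.cast_ne_zero.2 hD.ne'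
  have hc0 : ∀ p : Nat.Primes, ((c : ℤ) : ℚ_[(p : ℕ)]) ≠ 0 := fun p => Int.cast_ne_zero.2 hc.ne'
  have hg0 : ∀ p : Nat.Primes, ((g p : ℤ) : ℚ_[(p : ℕ)]) ≠ 0 := fun p => Int.cast_ne_zero.2 (hg p)
  have hun : ∀ p : Nat.Primes, p ∉ T → (p : ℕ) ≠ 2 ∧ ¬ ((p : ℕ) : ℤ) ∣ -3 ∧ ¬ ((p : ℕ) : ℤ) ∣ D ∧
      ¬ ((p : ℕ) : ℤ) ∣ E := by
    intro p hp
    rw [hT] at hp
    refine ⟨fun h => hp ?_, fun h => hp ?_, fun h => hp ?_, fun h => hp ?_⟩
    · rw [h]
      exact Dvd.dvd.mul_right (by norm_num) _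
    · rw [dvd_neg] at h
      exact (h.trans (by norm_num)).mul_right _
    · exact (h.mul_right _).mul_left _
    · exact (h.mul_left _).mul_left _
  have S1 : Splits (((-3 : ℤ)) : ℚ) (c : ℚ) := by
    refine global (by norm_num) hc.ne' q ?_ ?_
    · rw [splits_real_iff (by norm_num) (by exact_mod_cast hc.ne')]
      exact Or.inr (by exact_mod_cast hc)
    · intro p hpq
      by_cases h3 : (p : ℕ) % 3 = 1
      · exact splits_all h3 _
      · by_cases hpT : p ∈ T
        · have hsq := hcT p hpT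
          push_cast at hsq
          refine (splits_class (hc0 p) (hg0 p) hsq).2 ?_
          simp only [g, h3, if_false]
          exact splits_good h3 (hn p p.2 h3)
        · obtain ⟨k1, k2, k3, k4⟩ := hun p hpT
          exact splits_units k1 k2 (hcn p hpT hpq)
  have S2 : Splits ((-(D * E) : ℤ) : ℚ) ((D * c : ℤ) : ℚ) := by
    have hDE : -(D * E) ≠ 0 := neg_ne_zero.2 (mul_pos hD hE).ne'
    have hDc : D * c ≠ 0 := (mul_pos hD hc).ne'
    refine global hDE hDc q ?_ ?_
    · rw [splits_real_iff (by exact_mod_cast hDE) (by exact_mod_cast hDc)]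
      exact Or.inr (by exact_mod_cast mul_pos hD hc)
    · intro p hpq
      by_cases hpT : p ∈ T
      · have hsq := hcT p hpT
        push_cast at hsq ⊢
        refine (splits_class (mul_ne_zero (hD0 p) (hc0 p)) (mul_ne_zero (hD0 p) (hg0 p)) ?_).2 ?_
        · obtain ⟨r, hr⟩ := hsq
          exact ⟨D * r, by linear_combination (D : ℚ_[(p : ℕ)]) ^ 2 * hr⟩
        · by_cases h3 : (p : ℕ) % 3 = 1
          · simp only [g, h3, if_true]
            exact splits_of_rep (x := 1) (y := 0) (by ring)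
          · simp only [g, h3, if_false]
            have hm0 : ((m p : ℤ) : ℚ_[(p : ℕ)]) ≠ 0 := Int.cast_ne_zero.2 (hm p p.2 h3)
            have he' : ((m p : ℤ) : ℚ_[(p : ℕ)]) ^ 2 * (n p : ℤ) =
                D * (β p : ℤ) ^ 2 + E * (γ p : ℤ) ^ 2 := by
              have h9 := congrArg (fun t : ℤ => (t : ℚ_[(p : ℕ)])) (he p p.2 h3)
              push_cast at h9
              exact h9
            refine splits_of_rep (x := (β p : ℤ) / (m p : ℤ)) (y := (γ p : ℤ) / (m p : ℤ)) ?_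
            field_simp
            linear_combination -he'
      · obtain ⟨k1, k2, k3, k4⟩ := hun p hpT
        have hpp := Nat.prime_iff_prime_int.1 p.2
        refine splits_units k1 ?_ ?_
        · rw [dvd_neg]
          intro h
          rcases hpp.dvd_or_dvd h with h | h
          · exact k3 h
          · exact k4 h
        · intro h
          rcases hpp.dvd_or_dvd h with h | h
          · exact k3 h
          · exact hcn p hpT hpq h
  obtain ⟨u, v, hu⟩ := rep_of_splits (F := ℚ) (a := 1) (b := 3) (c := c) one_ne_zero three_ne_zero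
    (by push_cast at S1; norm_num; exact S1)
  obtain ⟨x, y, hxy⟩ := rep_of_splits (F := ℚ) (a := D) (b := E) (c := c)
    (by exact_mod_cast hD.ne') (by exact_mod_cast hE.ne') (by push_cast at S2; exact S2)
  refine ⟨u, v, x, y, by linear_combination hu - hxy, ?_⟩
  have : u ^ 2 + 3 * v ^ 2 = c := by linear_combination hu
  rw [this]
  exact_mod_cast hc

/-- three variables -/
theorem glob3 {D E F : ℤ} (hD : 0 < D) (hE : 0 < E) (hF : 0 < F) :
    ∃ u v x y z : ℚ, u ^ 2 + 3 * v ^ 2 = D * x ^ 2 + E * y ^ 2 + F * z ^ 2 ∧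
      0 < u ^ 2 + 3 * v ^ 2 := by
  obtain ⟨x, hx, he⟩ := meyer iso_ dir_ ![1, 3, -D, -E, -F] (by
    intro i
    fin_cases i <;> simp <;> omega) ⟨0, by simp⟩ ⟨2, by simpa using hD⟩
  simp only [Fin.sum_univ_five] at he
  simp at he
  refine ⟨x 0, x 1, x 2, x 3, x 4, by linear_combination he, ?_⟩
  have hD' : (0 : ℚ) < D := by exact_mod_cast hD
  have hE' : (0 : ℚ) < E := by exact_mod_cast hE
  have hF' : (0 : ℚ) < F := by exact_mod_cast hF
  by_contra hcon
  push Not at hcon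
  have h0 : x 0 = 0 := by
    have : x 0 ^ 2 ≤ 0 := by nlinarith [sq_nonneg (x 1)]
    exact pow_eq_zero_iff (two_ne_zero) |>.1 (le_antisymm this (sq_nonneg _))
  have h1 : x 1 = 0 := by
    have : x 1 ^ 2 ≤ 0 := by nlinarith [sq_nonneg (x 0)]
    exact pow_eq_zero_iff (two_ne_zero) |>.1 (le_antisymm this (sq_nonneg _))
  rw [h0, h1] at he
  have p2 : 0 ≤ D * x 2 ^ 2 := by positivity
  have p3 : 0 ≤ E * x 3 ^ 2 := by positivity
  have p4 : 0 ≤ F * x 4 ^ 2 := by positivity
  have h2 : x 2 = 0 := by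
    have : D * x 2 ^ 2 = 0 := by nlinarith
    exact pow_eq_zero_iff (two_ne_zero) |>.1 ((mul_eq_zero.1 this).resolve_left hD'.ne')
  have h3 : x 3 = 0 := by
    have : E * x 3 ^ 2 = 0 := by nlinarith
    exact pow_eq_zero_iff (two_ne_zero) |>.1 ((mul_eq_zero.1 this).resolve_left hE'.ne')
  have h4 : x 4 = 0 := by
    have : F * x 4 ^ 2 = 0 := by nlinarith
    exact pow_eq_zero_iff (two_ne_zero) |>.1 ((mul_eq_zero.1 this).resolve_left hF'.ne')
  apply hx
  funext i
  fin_cases i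
  · exact h0
  · exact h1
  · exact h2
  · exact h3
  · exact h4

/-- a common denominator -/
theorem common {k : ℕ} (x : Fin k → ℚ) : ∃ N : ℤ, 0 < N ∧ ∃ z : Fin k → ℤ, ∀ i,
    (N : ℚ) * x i = z i := by
  classical
  refine ⟨∏ i, ((x i).den : ℤ), Finset.prod_pos fun i _ => by exact_mod_cast (x i).den_pos,
    fun i => (∏ j ∈ Finset.univ.erase i, ((x j).den : ℤ)) * (x i).num, fun i => ?_⟩
  rw [← Finset.mul_prod_erase Finset.univ (fun j => ((x j).den : ℤ)) (Finset.mem_univ i)]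
  push_cast
  have h1 : ((x i).den : ℚ) * x i = (x i).num := Rat.den_mul_eq_num (x i)
  rw [mul_comm ((x i).den : ℚ), mul_assoc, h1]

end Pool.Agent.N801.CF
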