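import Mathlib

/-!
# Primes in a residue class with a given quadratic symbol
-/

set_option autoImplicit false

namespace Pool.Agent.N801.CF

open scoped NumberTheorySymbols

/-- Dirichlet's theorem with integers -/
theorem dirichlet {r : ℤ} {W : ℕ} (hW : W ≠ 0) (hr : IsCoprime r (W : ℤ)) (B : ℕ) :
    ∃ q : ℕ, q.Prime ∧ B < q ∧ (W : ℤ) ∣ q - r := by
  have : NeZero W := ⟨hW⟩
  have hu : IsUnit ((r : ℤ) : ZMod W) := (ZMod.coe_int_isUnit_iff_isCoprime r W).2 hr.symm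
  obtain ⟨q, h1, h2, h3⟩ := Nat.forall_exists_prime_gt_and_eq_mod hu B
  refine ⟨q, h2, h1, ?_⟩
  rw [← ZMod.intCast_zmod_eq_zero_iff_dvd]
  push_cast
  rw [h3, sub_self]

/-- changing the quadratic symbol -/
theorem flip {K' l : ℕ} (hl : l.Prime) (hl2 : l ≠ 2) {W' : ℕ} (hW' : 4 * K' ∣ W')
    (hW0 : W' ≠ 0) {j : ℕ} (hj : 1 ≤ j) {ρ : ℤ}
    (hρ1 : (W' : ℤ) ∣ ρ - 1) (hρ2 : J(ρ | l) = -1) {q0 : ℕ} (hq0 : q0.Prime)
    (hq0W : ¬ q0 ∣ l ^ j * W') (B : ℕ) :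
    ∃ q : ℕ, q.Prime ∧ B < q ∧ ((l ^ j * W' : ℕ) : ℤ) ∣ q - ρ * q0 ∧
      J(((l * K' : ℕ) : ℤ) | q) = - J(((l * K' : ℕ) : ℤ) | q0) := by
  have hfl : Fact l.Prime := ⟨hl⟩
  have hWne : l ^ j * W' ≠ 0 := mul_ne_zero (pow_ne_zero _ hl.ne_zero) hW0
  have hlρ : ¬ (l : ℤ) ∣ ρ := by
    intro h
    have h1 : J(ρ | l) = 0 := by
      rw [← jacobiSym.legendreSym.to_jacobiSym, legendreSym.eq_zero_iff,
        ZMod.intCast_zmod_eq_zero_iff_dvd]
      exact h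
    rw [h1] at hρ2
    norm_num at hρ2
  have hcl : IsCoprime ρ ((l : ℤ) ^ j) :=
    (((Prime.coprime_iff_not_dvd (Nat.prime_iff_prime_int.1 hl)).2 hlρ).symm).pow_right
  have hcW : IsCoprime ρ (W' : ℤ) := by
    obtain ⟨x, hx⟩ := hρ1
    exact ⟨1, -x, by linear_combination hx⟩
  have hcρ : IsCoprime ρ ((l ^ j * W' : ℕ) : ℤ) := by
    push_cast
    exact hcl.mul_right hcW
  have hcq : IsCoprime (q0 : ℤ) ((l ^ j * W' : ℕ) : ℤ) := by
    rw [Nat.isCoprime_iff_coprime]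
    exact (Nat.Prime.coprime_iff_not_dvd hq0).2 hq0W
  obtain ⟨q, hq, hBq, hqd⟩ := dirichlet hWne (hcρ.mul_left hcq) (B + 2)
  refine ⟨q, hq, by omega, hqd, ?_⟩
  have h4W : 4 ∣ W' := (dvd_mul_right 4 K').trans hW'
  have hq02 : q0 ≠ 2 := by
    rintro rfl
    exact hq0W (((by norm_num : (2 : ℕ) ∣ 4).trans h4W).mul_left _)
  have hqW' : (W' : ℤ) ∣ q - q0 := by
    have h1 : (W' : ℤ) ∣ q - ρ * q0 := by
      refine Dvd.dvd.trans ?_ hqd
      push_cast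
      exact dvd_mul_left _ _
    have e : (q : ℤ) - q0 = (q - ρ * q0) + (ρ - 1) * q0 := by ring
    rw [e]
    exact dvd_add h1 (hρ1.mul_right _)
  have hql : (l : ℤ) ∣ q - ρ * q0 := by
    refine Dvd.dvd.trans ?_ hqd
    push_cast
    exact (dvd_pow_self _ (by omega)).mul_right _
  have hqodd : Odd q := hq.odd_of_ne_two (by omega)
  have hq0odd : Odd q0 := hq0.odd_of_ne_two hq02
  have hlodd : Odd l := hl.odd_of_ne_two hl2
  have hcast : ((l * K' : ℕ) : ℤ) = (l : ℤ) * (K' : ℤ) := by push_cast; ring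
  rw [hcast, jacobiSym.mul_left, jacobiSym.mul_left]
  -- the factor `K'`
  have hK : J((K' : ℤ) | q) = J((K' : ℤ) | q0) := by
    rw [jacobiSym.mod_right (K' : ℤ) hqodd, jacobiSym.mod_right (K' : ℤ) hq0odd]
    congr 1
    rw [Int.natAbs_natCast]
    have h1 : ((4 * K' : ℕ) : ℤ) ∣ (q : ℤ) - q0 := (Int.natCast_dvd_natCast.2 hW').trans hqW'
    have h2 : q0 ≡ q [MOD 4 * K'] := (Nat.modEq_iff_dvd).2 h1
    exact h2.symm
  -- the factor `l`
  have hL : J((l : ℤ) | q) = - J((l : ℤ) | q0) := by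
    rw [jacobiSym.quadratic_reciprocity hlodd hqodd, jacobiSym.quadratic_reciprocity hlodd hq0odd]
    have h1 : J((q : ℤ) | l) = - J((q0 : ℤ) | l) := by
      have h2 : J((q : ℤ) | l) = J(ρ * q0 | l) := by
        apply jacobiSym.mod_left'
        exact (Int.emod_emod_of_dvd _ (dvd_refl _)).symm.trans
          ((Int.emod_emod_of_dvd _ (dvd_refl _)).trans (Int.ModEq.symm
            ((Int.modEq_iff_dvd).2 hql)))
      rw [h2, jacobiSym.mul_left, hρ2]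
      ring
    have h3 : ((-1 : ℤ)) ^ (l / 2 * (q / 2)) = (-1) ^ (l / 2 * (q0 / 2)) := by
      have h4 : (4 : ℤ) ∣ (q : ℤ) - q0 := (Int.natCast_dvd_natCast.2 h4W).trans hqW'
      have h5 : q / 2 % 2 = q0 / 2 % 2 := by
        obtain ⟨x, hx⟩ := hqodd
        obtain ⟨y, hy⟩ := hq0odd
        omega
      rw [pow_mul', pow_mul']
      congr 1
      rcases Nat.mod_two_eq_zero_or_one (q / 2) with h | h
      · rw [Even.neg_one_pow (Nat.even_iff.2 h), Even.neg_one_pow (Nat.even_iff.2 (h5 ▸ h))]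
      · rw [Odd.neg_one_pow (Nat.odd_iff.2 h), Odd.neg_one_pow (Nat.odd_iff.2 (h5 ▸ h))]
    rw [h1, h3]
    ring
  rw [hK, hL]
  ring

/-- a residue class with a given symbol at `l` which is trivial modulo `W'` -/
theorem exists_nonres {l : ℕ} (hl : l.Prime) (hl2 : l ≠ 2) {W' : ℕ} (hco : Nat.Coprime l W') :
    ∃ ρ : ℤ, (W' : ℤ) ∣ ρ - 1 ∧ J(ρ | l) = -1 := by
  have hfl : Fact l.Prime := ⟨hl⟩
  obtain ⟨x, hx⟩ : ∃ x : ZMod l, ¬ IsSquare x := by
    apply FiniteField.exists_nonsquare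
    rw [ZMod.ringChar_zmod_n]
    exact hl2
  obtain ⟨x', rfl⟩ := ZMod.intCast_surjective x
  obtain ⟨u, v, huv⟩ := Nat.isCoprime_iff_coprime.2 hco
  refine ⟨x' * (v * W') + u * l, ⟨(x' - 1) * v, by linear_combination huv⟩, ?_⟩
  have h1 : J(x' * (v * W') + u * l | l) = J(x' | l) := by
    apply jacobiSym.mod_left'
    refine (Int.ModEq.symm ((Int.modEq_iff_dvd).2 ⟨u * (1 - x'), ?_⟩))
    linear_combination x' * huv
  rw [h1, ← jacobiSym.legendreSym.to_jacobiSym, legendreSym.eq_neg_one_iff]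
  exact hx

/-- the sign at `l` -/
theorem exists_sign {l : ℕ} (hl : l.Prime) (h3 : l % 4 = 3) {W' : ℕ} (hco : Nat.Coprime l W')
    (j : ℕ) (hj : 1 ≤ j) :
    ∃ ρ : ℤ, (W' : ℤ) ∣ ρ - 1 ∧ (l : ℤ) ^ j ∣ ρ + 1 ∧ J(ρ | l) = -1 := by
  have hfl : Fact l.Prime := ⟨hl⟩
  have hc : IsCoprime ((l : ℤ) ^ j) (W' : ℤ) := (Nat.isCoprime_iff_coprime.2 hco).pow_left
  obtain ⟨u, v, huv⟩ := hc
  have hρ : (l : ℤ) ^ j ∣ (u * (l : ℤ) ^ j - v * W') + 1 := ⟨2 * u, by linear_combination -huv⟩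
  refine ⟨u * (l : ℤ) ^ j - v * W', ⟨-2 * v, by linear_combination huv⟩, hρ, ?_⟩
  have h1 : J(u * (l : ℤ) ^ j - v * W' | l) = J((-1 : ℤ) | l) := by
    apply jacobiSym.mod_left'
    refine (Int.ModEq.symm ((Int.modEq_iff_dvd).2 ?_))
    have h2 : (l : ℤ) ∣ (l : ℤ) ^ j := dvd_pow_self _ (by omega)
    have h3 := h2.trans hρ
    have e : u * (l : ℤ) ^ j - v * W' - -1 = u * (l : ℤ) ^ j - v * W' + 1 := by ring
    rw [e]
    exact h3
  rw [h1, ← jacobiSym.legendreSym.to_jacobiSym, legendreSym.at_neg_one (by omega),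
    ZMod.χ₄_nat_three_mod_four h3]

/-- **The choice of the prime.** -/
theorem pick {D N P : ℤ} (hN : N ≠ 0) (hP : P ≠ 0) (hcop : IsCoprime D N) {K : ℕ} (hK : K ≠ 0)
    (hc : IsSquare K ∨ ∃ l : ℕ, l.Prime ∧ Odd (padicValNat l K) ∧
      (l % 4 = 3 ∨ (l ≠ 2 ∧ ¬ (l : ℤ) ∣ N))) (B : ℕ) :
    ∃ (q : ℕ) (ε : ℤ), q.Prime ∧ B < q ∧ N ∣ q - ε * D ∧ 4 * P ∣ ε ^ 2 - 1 ∧
      ∃ y : ℤ, (q : ℤ) ∣ y ^ 2 - K := by
  have hNn : N.natAbs ≠ 0 := Int.natAbs_ne_zero.2 hN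
  have hcopn : IsCoprime D (N.natAbs : ℤ) := IsCoprime.of_isCoprime_of_dvd_right hcop
    (Int.natAbs_dvd.2 dvd_rfl)
  rcases hc with ⟨r, hr⟩ | ⟨l, hl, hodd, hl2⟩
  · obtain ⟨q, hq, hBq, hd⟩ := dirichlet hNn hcopn B
    refine ⟨q, 1, hq, hBq, ?_, ⟨0, by ring⟩, r, ?_⟩
    · rw [one_mul]
      exact (Int.dvd_natAbs.2 dvd_rfl).trans hd
    · rw [hr]
      push_cast
      ring_nf
      exact dvd_zero _
  -- the squarefree part
  obtain ⟨K0, s, hs, hK0⟩ := Nat.sq_mul_squarefree K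
  have hs0 : s ≠ 0 := by
    rintro rfl
    apply hK
    rw [← hs]
    ring
  have hK00 : K0 ≠ 0 := hK0.ne_zero
  have hfl : Fact l.Prime := ⟨hl⟩
  have hlK0 : l ∣ K0 := by
    by_contra hcon
    rw [← hs, padicValNat.mul (pow_ne_zero 2 hs0) hK00, padicValNat.pow,
      padicValNat.eq_zero_of_not_dvd hcon, add_zero] at hodd
    exact (Nat.not_odd_iff_even.2 (even_two_mul _)) hodd
  obtain ⟨K', hK'⟩ := hlK0
  have hlK' : ¬ l ∣ K' := by
    rintro ⟨t, rfl⟩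
    have h1 : l * l ∣ K0 := ⟨t, by rw [hK']; ring⟩
    exact hl.not_isUnit (hK0 l h1)
  have hK'0 : K' ≠ 0 := by
    rintro rfl
    exact hK00 (by rw [hK', mul_zero])
  have hlne2 : l ≠ 2 := by
    rcases hl2 with h | h
    · rintro rfl
      norm_num at h
    · exact h.1
  have hl4 : ¬ l ∣ 4 := by
    intro h
    have h1 : l ∣ 2 ^ 2 := by
      norm_num
      exact h
    exact hlne2 ((Nat.prime_dvd_prime_iff_eq hl Nat.prime_two).1 (hl.dvd_of_dvd_pow h1))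
  -- the first prime
  obtain ⟨q0, hq0, hBq0, hd0⟩ := dirichlet hNn hcopn (B + 4 * K0 * K * N.natAbs * P.natAbs)
  have hPn : P.natAbs ≠ 0 := Int.natAbs_ne_zero.2 hP
  have hd0' : N ∣ (q0 : ℤ) - D := (Int.dvd_natAbs.2 dvd_rfl).trans hd0
  have hfin : ∀ q : ℕ, q.Prime → K < q → J((K0 : ℤ) | q) = 1 → ∃ y : ℤ, (q : ℤ) ∣ y ^ 2 - K := by
    intro q hq hKq hJ
    have hfq : Fact q.Prime := ⟨hq⟩
    rw [← jacobiSym.legendreSym.to_jacobiSym] at hJ
    have h1 : ((K0 : ℤ) : ZMod q) ≠ 0 := by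
      intro h
      rw [(legendreSym.eq_zero_iff q (K0 : ℤ)).2 h] at hJ
      norm_num at hJ
    obtain ⟨y, hy⟩ := (legendreSym.eq_one_iff q h1).1 hJ
    obtain ⟨y', rfl⟩ := ZMod.intCast_surjective y
    refine ⟨y' * s, ?_⟩
    rw [← ZMod.intCast_zmod_eq_zero_iff_dvd, ← hs]
    push_cast at hy ⊢
    rw [hy]
    ring
  have hKle : K ≤ 4 * K0 * K * N.natAbs * P.natAbs := by
    have h1 : 0 < 4 * K0 * (N.natAbs * P.natAbs) := by positivity
    calc K = K * 1 := (mul_one K).symm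
      _ ≤ K * (4 * K0 * (N.natAbs * P.natAbs)) := Nat.mul_le_mul_left _ h1
      _ = 4 * K0 * K * N.natAbs * P.natAbs := by ring
  by_cases hJ0 : J((K0 : ℤ) | q0) = 1
  · refine ⟨q0, 1, hq0, by omega, ?_, ⟨0, by ring⟩, hfin q0 hq0 (by omega) hJ0⟩
    rw [one_mul]
    exact hd0'
  have hgcd : (K0 : ℤ).gcd q0 = 1 := by
    rw [Int.gcd_natCast_natCast]
    refine (Nat.coprime_comm.1 ((Nat.Prime.coprime_iff_not_dvd hq0).2 fun h => ?_))
    have h1 := Nat.le_of_dvd (Nat.pos_of_ne_zero hK00) h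
    have h2 : K0 ≤ 4 * K0 * K * N.natAbs * P.natAbs := by
      have h1 : 0 < 4 * K * (N.natAbs * P.natAbs) := by positivity
      calc K0 = K0 * 1 := (mul_one K0).symm
        _ ≤ K0 * (4 * K * (N.natAbs * P.natAbs)) := Nat.mul_le_mul_left _ h1
        _ = 4 * K0 * K * N.natAbs * P.natAbs := by ring
    omega
  have hJm : J((K0 : ℤ) | q0) = -1 := (jacobiSym.eq_one_or_neg_one hgcd).resolve_left hJ0
  -- the modulus
  have hWne : 4 * K' * N.natAbs * P.natAbs ≠ 0 := by positivity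
  by_cases h3 : l % 4 = 3
  · obtain ⟨e, W', hlW', hW⟩ := Nat.exists_eq_pow_mul_and_not_dvd
      (n := l * (4 * K' * N.natAbs * P.natAbs)) (mul_ne_zero hl.ne_zero hWne) l hl.ne_one
    have he : 1 ≤ e := by
      by_contra hcon
      have : e = 0 := by omega
      rw [this, pow_zero, one_mul] at hW
      exact hlW' (hW ▸ dvd_mul_right _ _)
    have hW'0 : W' ≠ 0 := by
      rintro rfl
      exact hlW' (dvd_zero _)
    have hcoW' : Nat.Coprime l W' := (Nat.Prime.coprime_iff_not_dvd hl).2 hlW'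
    have h4K' : 4 * K' ∣ W' := by
      have h1 : 4 * K' ∣ l ^ e * W' := by
        rw [← hW]
        exact ⟨l * (N.natAbs * P.natAbs), by ring⟩
      have h2 : Nat.Coprime (4 * K') (l ^ e) := by
        apply Nat.Coprime.pow_right
        rw [Nat.coprime_comm]
        refine (Nat.Prime.coprime_iff_not_dvd hl).2 fun h => ?_
        rcases (Nat.Prime.dvd_mul hl).1 h with h | h
        · exact hl4 h
        · exact hlK' h
      exact h2.dvd_of_dvd_mul_left h1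
    obtain ⟨ρ, hρ1, hρ2, hρ3⟩ := exists_sign hl h3 hcoW' e he
    have hq0W : ¬ q0 ∣ l ^ e * W' := by
      intro h
      rw [← hW] at h
      have h1 := Nat.le_of_dvd (Nat.pos_of_ne_zero (mul_ne_zero hl.ne_zero hWne)) h
      have h2 : l * (4 * K' * N.natAbs * P.natAbs) ≤ 4 * K0 * K * N.natAbs * P.natAbs := by
        rw [hK']
        have h3 : 1 ≤ K := Nat.pos_of_ne_zero hK
        calc l * (4 * K' * N.natAbs * P.natAbs) = (l * (4 * K' * N.natAbs * P.natAbs)) * 1 := by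
              ring
          _ ≤ (l * (4 * K' * N.natAbs * P.natAbs)) * K := Nat.mul_le_mul_left _ h3
          _ = 4 * (l * K') * K * N.natAbs * P.natAbs := by ring
      omega
    obtain ⟨q, hq, hBq, hqd, hJ⟩ := flip hl hlne2 h4K' hW'0 he hρ1 hρ3 hq0 hq0W (B + K)
    rw [← hK', hJm, neg_neg] at hJ
    have hWd : ((l * (4 * K' * N.natAbs * P.natAbs) : ℕ) : ℤ) ∣ q - ρ * q0 := by
      rw [hW]
      exact hqd
    refine ⟨q, ρ, hq, by omega, ?_, ?_, hfin q hq (by omega) hJ⟩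
    · have h1 : N ∣ (q : ℤ) - ρ * q0 := by
        refine Dvd.dvd.trans ?_ hWd
        refine (Int.dvd_natAbs.2 (dvd_refl N)).trans ?_
        push_cast
        exact ⟨l * (4 * K' * |P|), by ring⟩
      have e1 : (q : ℤ) - ρ * D = (q - ρ * q0) + ρ * (q0 - D) := by ring
      rw [e1]
      exact dvd_add h1 (hd0'.mul_left _)
    · have h1 : ((l ^ e * W' : ℕ) : ℤ) ∣ ρ ^ 2 - 1 := by
        push_cast
        have e1 : ρ ^ 2 - 1 = (ρ + 1) * (ρ - 1) := by ring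
        rw [e1]
        exact mul_dvd_mul hρ2 hρ1
      rw [← hW] at h1
      refine Dvd.dvd.trans ?_ h1
      refine (Int.dvd_natAbs.2 (dvd_refl (4 * P))).trans ?_
      rw [Int.natAbs_mul]
      push_cast
      exact ⟨l * (K' * |N|), by norm_num; ring⟩
  · have hlN : ¬ (l : ℤ) ∣ N := (hl2.resolve_left h3).2
    have hlW : ¬ l ∣ 4 * K' * N.natAbs := by
      intro h
      rcases (Nat.Prime.dvd_mul hl).1 h with h | h
      · rcases (Nat.Prime.dvd_mul hl).1 h with h | h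
        · exact hl4 h
        · exact hlK' h
      · exact hlN (Int.natCast_dvd.2 h)
    have hcoW' : Nat.Coprime l (4 * K' * N.natAbs) := (Nat.Prime.coprime_iff_not_dvd hl).2 hlW
    obtain ⟨ρ, hρ1, hρ3⟩ := exists_nonres hl hlne2 hcoW'
    have hW'0 : 4 * K' * N.natAbs ≠ 0 := by positivity
    have hq0W : ¬ q0 ∣ l ^ 1 * (4 * K' * N.natAbs) := by
      intro h
      have h1 := Nat.le_of_dvd (Nat.pos_of_ne_zero (mul_ne_zero (pow_ne_zero _ hl.ne_zero) hW'0)) h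
      have h2 : l ^ 1 * (4 * K' * N.natAbs) ≤ 4 * K0 * K * N.natAbs * P.natAbs := by
        rw [hK']
        have h3 : 1 ≤ K * P.natAbs := Nat.pos_of_ne_zero (mul_ne_zero hK hPn)
        calc l ^ 1 * (4 * K' * N.natAbs) = (l * (4 * K' * N.natAbs)) * 1 := by
              ring
          _ ≤ (l * (4 * K' * N.natAbs)) * (K * P.natAbs) := Nat.mul_le_mul_left _ h3
          _ = 4 * (l * K') * K * N.natAbs * P.natAbs := by ring
      omega
    obtain ⟨q, hq, hBq, hqd, hJ⟩ := flip hl hlne2 (Dvd.intro _ rfl) hW'0 le_rfl hρ1 hρ3 hq0 hq0W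
      (B + K)
    rw [← hK', hJm, neg_neg] at hJ
    refine ⟨q, 1, hq, by omega, ?_, ⟨0, by ring⟩, hfin q hq (by omega) hJ⟩
    have h1 : (N.natAbs : ℤ) ∣ (q : ℤ) - ρ * q0 := by
      refine Dvd.dvd.trans ?_ hqd
      push_cast
      exact ⟨l ^ 1 * (4 * K'), by ring⟩
    have h2 : (N.natAbs : ℤ) ∣ ρ - 1 := by
      refine Dvd.dvd.trans ?_ hρ1
      push_cast
      exact ⟨4 * K', by ring⟩
    have e1 : (q : ℤ) - 1 * D = (q - ρ * q0) + (ρ - 1) * q0 + (q0 - D) := by ring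
    rw [e1]
    exact dvd_add (dvd_add ((Int.dvd_natAbs.2 dvd_rfl).trans h1)
      ((Int.dvd_natAbs.2 (dvd_refl N)).trans (h2.mul_right _))) hd0'

end Pool.Agent.N801.CF
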