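import Pool.Agent.N801.CF.Local
import Pool.Agent.Helper793.Cube.Main

/-!
# Primitive representations by the norm form
-/

set_option autoImplicit false

namespace Pool.Agent.N801.CF

theorem exists_common_prime {a b : ℤ} (h : ¬ IsCoprime a b) :
    ∃ q : ℕ, q.Prime ∧ (q : ℤ) ∣ a ∧ (q : ℤ) ∣ b := by
  rw [Int.isCoprime_iff_gcd_eq_one] at h
  obtain ⟨q, hq, hd⟩ := Nat.exists_prime_and_dvd h
  exact ⟨q, hq, (Int.natCast_dvd_natCast.2 hd).trans (Int.gcd_dvd_left _ _),
    (Int.natCast_dvd_natCast.2 hd).trans (Int.gcd_dvd_right _ _)⟩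

theorem not_common_prime {a b : ℤ} (h : IsCoprime a b) {q : ℕ} (hq : q.Prime)
    (ha : (q : ℤ) ∣ a) (hb : (q : ℤ) ∣ b) : False := by
  have h1 := h.isUnit_of_dvd' ha hb
  have h2 := Int.isUnit_iff_natAbs_eq.1 h1
  rw [Int.natAbs_natCast] at h2
  exact hq.one_lt.ne' h2

/-- multiplication by a prime element -/
theorem prim_mul {x y c d : ℤ} (hxy : IsCoprime x y) {p : ℕ} (hp : p.Prime)
    (hcd : nm c d = p) (h2 : p ≠ 2) (h3 : p ≠ 3) :
    ∃ a b : ℤ, nm a b = p * nm x y ∧ IsCoprime a b := by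
  have hpp := Nat.prime_iff_prime_int.1 hp
  have key : ∀ A B : ℤ, (∃ u v : ℤ, A * u + B * v = p * x) → (∃ u v : ℤ, A * u + B * v = p * y) →
      ¬ IsCoprime A B → (p : ℤ) ∣ A ∧ (p : ℤ) ∣ B := by
    rintro A B ⟨u, v, e1⟩ ⟨u', v', e2⟩ hn
    obtain ⟨q, hq, hA, hB⟩ := exists_common_prime hn
    have hqq := Nat.prime_iff_prime_int.1 hq
    have d1 : (q : ℤ) ∣ p * x := by
      rw [← e1]
      exact dvd_add (hA.mul_right _) (hB.mul_right _)
    have d2 : (q : ℤ) ∣ p * y := by
      rw [← e2]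
      exact dvd_add (hA.mul_right _) (hB.mul_right _)
    have hqp : (q : ℤ) ∣ p := by
      rcases hqq.dvd_or_dvd d1 with h | h
      · exact h
      · rcases hqq.dvd_or_dvd d2 with h' | h'
        · exact h'
        · exact (not_common_prime hxy hq h h').elim
    have : q = p := (Nat.prime_dvd_prime_iff_eq hq hp).1 (by exact_mod_cast hqp)
    subst this
    exact ⟨hA, hB⟩
  unfold nm at hcd
  by_cases h1 : IsCoprime (x * c - y * d) (x * d + y * c + y * d)
  · refine ⟨_, _, ?_, h1⟩
    unfold nm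
    rw [← hcd]
    ring
  · by_cases h2' : IsCoprime (x * c + x * d + y * d) (y * c - x * d)
    · refine ⟨_, _, ?_, h2'⟩
      unfold nm
      rw [← hcd]
      ring
    · exfalso
      obtain ⟨a1, a2⟩ := key _ _ ⟨c + d, d, by rw [← hcd]; ring⟩ ⟨-d, c, by rw [← hcd]; ring⟩ h1
      obtain ⟨a3, a4⟩ := key _ _ ⟨c, -d, by rw [← hcd]; ring⟩ ⟨d, c + d, by rw [← hcd]; ring⟩ h2'
      have b1 : (p : ℤ) ∣ x * (2 * c + d) := by
        have := dvd_add a1 a3
        have e : x * c - y * d + (x * c + x * d + y * d) = x * (2 * c + d) := by ring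
        rwa [e] at this
      have b2 : (p : ℤ) ∣ y * (2 * c + d) := by
        have := dvd_add a2 a4
        have e : x * d + y * c + y * d + (y * c - x * d) = y * (2 * c + d) := by ring
        rwa [e] at this
      have b3 : (p : ℤ) ∣ 2 * c + d := by
        rcases hpp.dvd_or_dvd b1 with h | h
        · rcases hpp.dvd_or_dvd b2 with h' | h'
          · exact (not_common_prime hxy hp h h').elim
          · exact h'
        · exact h
      have e4 : 4 * (p : ℤ) = (2 * c + d) ^ 2 + 3 * d ^ 2 := by rw [← hcd]; ring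
      obtain ⟨t, ht⟩ := b3
      rw [ht] at e4
      have b4 : (p : ℤ) ∣ 3 * d ^ 2 := by
        refine ⟨4 - p * t ^ 2, ?_⟩
        linear_combination -e4
      have b5 : (p : ℤ) ∣ d := by
        rcases hpp.dvd_or_dvd b4 with h | h
        · have : p ∣ 3 := by exact_mod_cast h
          exact absurd ((Nat.prime_dvd_prime_iff_eq hp Nat.prime_three).1 this) h3
        · exact hpp.dvd_of_dvd_pow h
      obtain ⟨s, hs⟩ := b5
      rw [hs] at e4
      have hp0 : (p : ℤ) ≠ 0 := hpp.ne_zero
      have b6 : (p : ℤ) ∣ 2 ^ 2 := by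
        refine ⟨t ^ 2 + 3 * s ^ 2, ?_⟩
        apply mul_left_cancel₀ hp0
        linear_combination e4
      have : p ∣ 2 := by exact_mod_cast hpp.dvd_of_dvd_pow b6
      exact h2 ((Nat.prime_dvd_prime_iff_eq hp Nat.prime_two).1 this)

/-- products of primes congruent to `1` modulo `3` -/
theorem prim_rep (n : ℕ) : n ≠ 0 → (∀ p, p.Prime → p ∣ n → p % 3 = 1) →
    ∃ a b : ℤ, nm a b = n ∧ IsCoprime a b := by
  induction n using induction_on_primes with
  | zero => exact fun h => absurd rfl h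
  | one => exact fun _ _ => ⟨1, 0, by unfold nm; norm_num, isCoprime_one_left⟩
  | prime_mul p a hp ih =>
    intro hn h
    obtain ⟨x, y, hxy, hco⟩ := ih (by rintro rfl; exact hn (mul_zero _)) fun q hq hd =>
      h q hq (hd.mul_left _)
    have hp3 := h p hp (dvd_mul_right _ _)
    obtain ⟨c, d, hcd⟩ := Pool.Agent.Helper793.Cube.norm_form3 p hp hp3
    obtain ⟨A, B, hAB, hco'⟩ := prim_mul hco hp (c := c) (d := d) (by unfold nm; exact hcd)
      (by rintro rfl; norm_num at hp3) (by rintro rfl; norm_num at hp3)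
    refine ⟨A, B, ?_, hco'⟩
    rw [hAB, hxy]
    push_cast
    ring

/-- numbers which are good everywhere are primitive norms -/
theorem prim_good {n : ℤ} (h0 : 0 < n) (h : ∀ p : ℕ, p.Prime → p % 3 ≠ 1 → Good p n) :
    ∃ a b : ℤ, nm a b = n ∧ IsCoprime a b := by
  have key : ∀ m : ℤ, 0 < m → ¬ (3 : ℤ) ∣ m → (∀ p : ℕ, p.Prime → p % 3 ≠ 1 → p ≠ 3 →
      ¬ (p : ℤ) ∣ m) → ∃ a b : ℤ, nm a b = m ∧ IsCoprime a b := by
    intro m hm h3 hp
    have hmn : (m.toNat : ℤ) = m := Int.toNat_of_nonneg hm.le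
    obtain ⟨a, b, h1, h2⟩ := prim_rep m.toNat (by omega) (by
      intro p hpr hd
      have hd' : (p : ℤ) ∣ m := by
        rw [← hmn]
        exact_mod_cast hd
      by_contra hcon
      by_cases hp3 : p = 3
      · subst hp3
        exact h3 (by exact_mod_cast hd')
      · exact hp p hpr hcon hp3 hd')
    exact ⟨a, b, by rw [h1, hmn], h2⟩
  by_cases h3 : (3 : ℤ) ∣ n
  · have hg3 := (h 3 Nat.prime_three (by norm_num)).1 rfl
    obtain ⟨m, rfl⟩ := h3
    have hm1 : m % 3 = 1 := by omega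
    obtain ⟨a, b, h1, h2⟩ := key m (by omega) (by omega) (by
      intro p hp hp1 hp3 hd
      exact (h p hp hp1).2 hp3 (hd.mul_left _))
    refine ⟨a - b, a + 2 * b, ?_, ?_⟩
    · rw [← h1]
      unfold nm
      ring
    · by_contra hn
      obtain ⟨q, hq, d1, d2⟩ := exists_common_prime hn
      have hqq := Nat.prime_iff_prime_int.1 hq
      have e1 : (q : ℤ) ∣ 3 * a := by
        have e : 3 * a = 2 * (a - b) + (a + 2 * b) := by ring
        rw [e]
        exact dvd_add (d1.mul_left _) d2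
      have e2 : (q : ℤ) ∣ 3 * b := by
        have e : 3 * b = (a + 2 * b) - (a - b) := by ring
        rw [e]
        exact dvd_sub d2 d1
      have hq3 : (q : ℤ) ∣ 3 := by
        rcases hqq.dvd_or_dvd e1 with h | h
        · exact h
        · rcases hqq.dvd_or_dvd e2 with h' | h'
          · exact h'
          · exact (not_common_prime h2 hq h h').elim
      have : q = 3 := (Nat.prime_dvd_prime_iff_eq hq Nat.prime_three).1 (by exact_mod_cast hq3)
      subst this
      obtain ⟨t, ht⟩ := d1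
      push_cast at ht
      have ha : a = b + 3 * t := by omega
      rw [ha] at h1
      unfold nm at h1
      have e : (b + 3 * t) ^ 2 + (b + 3 * t) * b + b ^ 2 = 3 * (b ^ 2 + 3 * b * t + 3 * t ^ 2) := by
        ring
      rw [e] at h1
      omega
  · exact key n h0 h3 fun p hp hp1 hp3 hd => (h p hp hp1).2 hp3 hd

end Pool.Agent.N801.CF
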