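import Pool.Agent.N801.CF.Gs
import Pool.Agent.N801.CF.Pick

/-!
# Values of the form `n ^ 2 + n + 1` of a binary form which represents a square
-/

set_option autoImplicit false

namespace Pool.Agent.N801.CF

open Finset

/-- the final step -/
theorem rk3_step {M : Type*} [AddCommGroup M] (Q : QF M) {v0 : M} {a0 : ℤ}
    (h0 : Q.f v0 = a0 ^ 2) {u1 : M} (h1 : Q.b v0 u1 = 0) {k : ℤ} (hk : Q.f u1 = k) {v : M}
    {F β γ : ℤ} (hv : Q.f v = F) (hβ : Q.b v0 v = β) (hγ : Q.b v u1 = γ)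
    (hrel : 4 * a0 ^ 2 * k * F = k * β ^ 2 + a0 ^ 2 * γ ^ 2) {P c m G t : ℤ} {q : ℕ}
    (hq : q.Prime) (hPE : P ∣ m ^ 2 + m + 1 - c ^ 2 * F) (hGP : G ∣ P)
    (hD : c * β - a0 * (2 * m + 1) + 2 * a0 * P * t = G * q)
    (hqP : ¬ (q : ℤ) ∣ P) (hqk : ¬ (q : ℤ) ∣ k) (hq2 : ¬ (q : ℤ) ∣ 2) (hqa : ¬ (q : ℤ) ∣ a0)
    {y : ℤ} (hy : (q : ℤ) ∣ y ^ 2 - 3 * k) : ∃ (w : M) (n : ℤ), Q.f w = n ^ 2 + n + 1 := by
  have hqq := Nat.prime_iff_prime_int.1 hq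
  have hqG : ¬ (q : ℤ) ∣ G := fun h => hqP (h.trans hGP)
  obtain ⟨z, hz⟩ := hy
  have hcop : IsCoprime (2 * P * k) (q : ℤ) := by
    apply IsCoprime.symm
    rw [Prime.coprime_iff_not_dvd hqq]
    intro h
    rcases hqq.dvd_or_dvd h with h | h
    · rcases hqq.dvd_or_dvd h with h | h
      · exact hq2 h
      · exact hqP h
    · exact hqk h
  obtain ⟨α, δ, hαδ⟩ := hcop
  set m' : ℤ := m - P * t with hm'
  set E1 : ℤ := m' ^ 2 + m' + 1 - c ^ 2 * F with hE1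
  set x : ℤ := α * (y - c * γ) with hx
  have hDq : a0 * (2 * m' + 1) = c * β - G * q := by
    rw [hm']
    linear_combination -hD
  have hxy : (q : ℤ) ∣ E1 - x ^ 2 * P ^ 2 * k - x * (c * P * γ) := by
    have hbig : (q : ℤ) ∣ 4 * a0 ^ 2 * k * (E1 - x ^ 2 * P ^ 2 * k - x * (c * P * γ)) := by
      have e0 : 4 * a0 ^ 2 * k * E1 = k * (a0 * (2 * m' + 1)) ^ 2 + 3 * k * a0 ^ 2
          - c ^ 2 * (4 * a0 ^ 2 * k * F) := by
        rw [hE1]
        ring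
      have eS : 2 * P * k * x + c * γ = y - q * (δ * (y - c * γ)) := by
        rw [hx]
        linear_combination (y - c * γ) * hαδ
      refine ⟨a0 ^ 2 * (-z + 2 * y * (δ * (y - c * γ)) - q * (δ * (y - c * γ)) ^ 2)
        + k * (G ^ 2 * q - 2 * c * β * G), ?_⟩
      have e1 : 4 * a0 ^ 2 * k * (E1 - x ^ 2 * P ^ 2 * k - x * (c * P * γ)) =
          4 * a0 ^ 2 * k * E1 - a0 ^ 2 * ((2 * P * k * x + c * γ) ^ 2 - c ^ 2 * γ ^ 2) := by ring
      rw [e1, e0, hDq, eS, hrel]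
      linear_combination (-a0 ^ 2) * hz
    rcases hqq.dvd_or_dvd hbig with h | h
    · exfalso
      rcases hqq.dvd_or_dvd h with h | h
      · rcases hqq.dvd_or_dvd h with h | h
        · have e : (4 : ℤ) = 2 * 2 := by norm_num
          rw [e] at h
          rcases hqq.dvd_or_dvd h with h | h
          · exact hq2 h
          · exact hq2 h
        · exact hqa (hqq.dvd_of_dvd_pow h)
      · exact hqk h
    · exact h
  -- the vector
  set u : M := c • v + (x * P) • u1 with hu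
  have hfu : Q.f u = c ^ 2 * F + x ^ 2 * P ^ 2 * k + x * (c * P * γ) := by
    rw [hu, Q.f_add, Q.f_smul, Q.f_smul, Q.b_smul, Q.b_smul', hv, hk, hγ]
    ring
  have hbu : Q.b v0 u = c * β := by
    rw [hu, Q.b_add', Q.b_smul', Q.b_smul', h1, hβ]
    ring
  have hdiv : G * (q : ℤ) ∣ m' ^ 2 + m' + 1 - Q.f u := by
    have hco : IsCoprime G (q : ℤ) := ((Prime.coprime_iff_not_dvd hqq).2 hqG).symm
    refine hco.mul_dvd (hGP.trans ?_) ?_
    · have e : m' ^ 2 + m' + 1 - Q.f u = (m ^ 2 + m + 1 - c ^ 2 * F) + P * (-2 * m * t + P * t ^ 2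
          - t - x ^ 2 * P * k - x * (c * γ)) := by
        rw [hfu, hm']
        ring
      rw [e]
      exact dvd_add hPE (dvd_mul_right _ _)
    · have e : m' ^ 2 + m' + 1 - Q.f u = E1 - x ^ 2 * P ^ 2 * k - x * (c * P * γ) := by
        rw [hfu, hE1]
        ring
      rw [e]
      exact hxy
  obtain ⟨s, hs⟩ := hdiv
  refine ⟨u + s • v0, m' + a0 * s, ?_⟩
  rw [Q.f_add, Q.f_smul, Q.b_smul', Q.b_comm, hbu, h0]
  linear_combination (-1 : ℤ) * hs - s * hDq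

/-- **Values of the form `n ^ 2 + n + 1`, rank three.** -/
theorem rk3_core {M : Type*} [AddCommGroup M] (Q : QF M) {v0 : M} {a0 : ℤ}
    (h0 : Q.f v0 = a0 ^ 2) (ha0 : a0 ≠ 0) {u1 : M} (h1 : Q.b v0 u1 = 0) {K : ℕ} {r : ℤ}
    (hK : K ≠ 0) (hr : r ≠ 0) (hk : 3 * Q.f u1 = K * r ^ 2)
    (hc : IsSquare K ∨ ∃ l : ℕ, l.Prime ∧ Odd (padicValNat l K) ∧
      (l % 4 = 3 ∨ ¬ (l : ℤ) ∣ 2 * a0)) {v : M} {a b : ℤ}
    (hv : Q.f v = nm a b) (hab : IsCoprime a b)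
    (hrel : 4 * a0 ^ 2 * Q.f u1 * Q.f v = Q.f u1 * Q.b v0 v ^ 2 + a0 ^ 2 * Q.b v u1 ^ 2) :
    ∃ (w : M) (n : ℤ), Q.f w = n ^ 2 + n + 1 := by
  classical
  set F := nm a b with hF
  set β := Q.b v0 v with hβ
  set L := (2 * a0).natAbs + 2 with hL
  have h2a0 : 2 * a0 ≠ 0 := mul_ne_zero two_ne_zero ha0
  -- the bad primes
  set S : Finset ℕ := (2 * a0).natAbs.primeFactors with hS
  have hSp : ∀ p ∈ S, p.Prime := fun p hp => Nat.prime_of_mem_primeFactors hp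
  have hSd : ∀ p ∈ S, (p : ℤ) ∣ 2 * a0 := fun p hp =>
    Int.natCast_dvd.2 (Nat.dvd_of_mem_primeFactors hp)
  have hS2 : ∀ p : ℕ, p.Prime → (p : ℤ) ∣ 2 * a0 → p ∈ S := by
    intro p hp hd
    refine Nat.mem_primeFactors.2 ⟨hp, ?_, Int.natAbs_ne_zero.2 h2a0⟩
    have := Int.natAbs_dvd_natAbs.2 hd
    rwa [Int.natAbs_natCast] at this
  have hloc : ∀ p ∈ S, ∃ c m : ℤ, (p : ℤ) ^ L ∣ m ^ 2 + m + 1 - c ^ 2 * F ∧
      ¬ (p : ℤ) ^ L ∣ c * β - a0 * (2 * m + 1) := fun p hp =>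
    local_sol (hSp p hp) hab ha0 le_rfl
  choose! cp mp hcm1 hcm2 using hloc
  obtain ⟨c, hc'⟩ := crt S hSp L cp
  obtain ⟨m, hm⟩ := crt S hSp L mp
  have hE : ∀ p ∈ S, (p : ℤ) ^ L ∣ m ^ 2 + m + 1 - c ^ 2 * F := by
    intro p hp
    obtain ⟨x, hx⟩ := hc' p hp
    obtain ⟨y, hy⟩ := hm p hp
    obtain ⟨z, hz⟩ := hcm1 p hp
    rw [smul_eq_mul] at hx hy
    rw [hx, hy]
    refine ⟨z + 2 * mp p * y + (p : ℤ) ^ L * y ^ 2 + y - 2 * cp p * x * F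
      - (p : ℤ) ^ L * x ^ 2 * F, ?_⟩
    linear_combination hz
  have hD : ∀ p ∈ S, ¬ (p : ℤ) ^ L ∣ c * β - a0 * (2 * m + 1) := by
    intro p hp hd
    obtain ⟨x, hx⟩ := hc' p hp
    obtain ⟨y, hy⟩ := hm p hp
    rw [smul_eq_mul] at hx hy
    apply hcm2 p hp
    have e : cp p * β - a0 * (2 * mp p + 1) = (c * β - a0 * (2 * m + 1)) -
        (p : ℤ) ^ L * (x * β - a0 * (2 * y)) := by
      rw [hx, hy]
      ring
    rw [e]
    exact dvd_sub hd (dvd_mul_right _ _)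
  set P : ℤ := ∏ p ∈ S, (p : ℤ) ^ L with hP
  have hP0 : P ≠ 0 := prod_ne_zero_iff.2 fun p hp => pow_ne_zero _ (by
    exact_mod_cast (hSp p hp).ne_zero)
  have hPE : P ∣ m ^ 2 + m + 1 - c ^ 2 * F := by
    refine Finset.prod_dvd_of_coprime ?_ hE
    intro p hp q hq hpq
    have h1 : Nat.Coprime p q := (Nat.coprime_primes (hSp p hp) (hSp q hq)).2 hpq
    exact (Nat.isCoprime_iff_coprime.2 h1).pow
  set D1 : ℤ := c * β - a0 * (2 * m + 1) with hD1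
  set N0 : ℤ := 2 * a0 * P with hN0
  have hN00 : N0 ≠ 0 := mul_ne_zero h2a0 hP0
  have h2S : 2 ∈ S := hS2 2 Nat.prime_two (by push_cast; exact dvd_mul_right _ _)
  have hD10 : D1 ≠ 0 := fun h => hD 2 h2S (by rw [h]; exact dvd_zero _)
  have hpN0 : ∀ p : ℕ, p.Prime → (p : ℤ) ∣ N0 → p ∈ S := by
    intro p hp h5
    have hpp := Nat.prime_iff_prime_int.1 hp
    rcases hpp.dvd_or_dvd h5 with h | h
    · exact hS2 p hp h
    · obtain ⟨q, hq, hdq⟩ := (Prime.dvd_finsetProd_iff hpp _).1 h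
      have h6 := hpp.dvd_of_dvd_pow hdq
      have h7 : p ∣ q := by exact_mod_cast h6
      rw [(Nat.prime_dvd_prime_iff_eq hp (hSp q hq)).1 h7]
      exact hq
  set G : ℕ := Int.gcd D1 N0 with hG
  have hG0 : G ≠ 0 := fun h => hN00 (Int.eq_zero_of_gcd_eq_zero_right h)
  have hGP : (G : ℤ) ∣ P := by
    rw [Int.natCast_dvd, Nat.dvd_iff_prime_pow_dvd_dvd]
    intro p k hp hk
    rcases Nat.eq_zero_or_pos k with rfl | hk0
    · rw [pow_zero]; exact one_dvd _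
    have hk1 : (p : ℤ) ^ k ∣ D1 := by
      have : ((p ^ k : ℕ) : ℤ) ∣ D1 := (Int.natCast_dvd_natCast.2 hk).trans (Int.gcd_dvd_left _ _)
      exact_mod_cast this
    have hk2 : (p : ℤ) ^ k ∣ N0 := by
      have : ((p ^ k : ℕ) : ℤ) ∣ N0 := (Int.natCast_dvd_natCast.2 hk).trans (Int.gcd_dvd_right _ _)
      exact_mod_cast this
    have hpS : p ∈ S := hpN0 p hp ((dvd_pow_self _ hk0.ne').trans hk2)
    have hkL : k ≤ L := by
      by_contra hcon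
      exact hD p hpS ((pow_dvd_pow _ (by omega)).trans hk1)
    have h8 : (p : ℤ) ^ k ∣ P := (pow_dvd_pow _ hkL).trans (dvd_prod_of_mem _ hpS)
    have := Int.natAbs_dvd_natAbs.2 h8
    rwa [Int.natAbs_pow, Int.natAbs_natCast] at this
  obtain ⟨D', hD'⟩ : (G : ℤ) ∣ D1 := Int.gcd_dvd_left _ _
  obtain ⟨N', hN'⟩ : (G : ℤ) ∣ N0 := Int.gcd_dvd_right _ _
  have hGz : (G : ℤ) ≠ 0 := by exact_mod_cast hG0
  have hcop : IsCoprime D' N' := by
    refine ⟨Int.gcdA D1 N0, Int.gcdB D1 N0, ?_⟩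
    apply mul_left_cancel₀ hGz
    have hb := Int.gcd_eq_gcd_ab D1 N0
    calc (G : ℤ) * (Int.gcdA D1 N0 * D' + Int.gcdB D1 N0 * N')
        = ((G : ℤ) * D') * Int.gcdA D1 N0 + ((G : ℤ) * N') * Int.gcdB D1 N0 := by ring
      _ = D1 * Int.gcdA D1 N0 + N0 * Int.gcdB D1 N0 := by rw [← hD', ← hN']
      _ = (G : ℤ) * 1 := by rw [← hb, mul_one]
  have hN'0 : N' ≠ 0 := by
    rintro rfl
    exact hN00 (by rw [hN', mul_zero])
  have hf1 : Q.f u1 ≠ 0 := by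
    intro h
    rw [h, mul_zero] at hk
    exact (mul_ne_zero (by exact_mod_cast hK) (pow_ne_zero 2 hr)) hk.symm
  -- the prime
  obtain ⟨q, ε, hq, hqgt, hqN, hε, y, hy⟩ := pick hN'0 hP0 hcop hK (by
    rcases hc with h | ⟨l, hl, hodd, h⟩
    · exact Or.inl h
    · refine Or.inr ⟨l, hl, hodd, ?_⟩
      rcases h with h | h
      · exact Or.inl h
      · refine Or.inr ⟨?_, fun hd => ?_⟩
        · rintro rfl
          exact h (by push_cast; exact dvd_mul_right _ _)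
        · exact h (hSd l (hpN0 l hl (hd.trans ⟨G, by rw [hN']; ring⟩))))
    (2 + G + P.natAbs + (Q.f u1).natAbs + a0.natAbs)
  have hqn : ∀ z : ℤ, z ≠ 0 → z.natAbs < q → ¬ (q : ℤ) ∣ z := by
    intro z hz hlt hd
    have h5 := Int.natAbs_dvd_natAbs.2 hd
    rw [Int.natAbs_natCast] at h5
    exact absurd (Nat.le_of_dvd (Int.natAbs_pos.2 hz) h5) (by omega)
  obtain ⟨t, ht⟩ := hqN
  obtain ⟨e, he⟩ : ∃ e, ε = 2 * e + 1 := by
    obtain ⟨z, hz⟩ := hε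
    rcases Int.even_or_odd ε with ⟨x, hx⟩ | ⟨x, hx⟩
    · exfalso
      rw [hx] at hz
      have : (x + x) ^ 2 - 1 = 4 * x ^ 2 - 1 := by ring
      rw [this] at hz
      have h6 : 4 * P * z = 4 * (P * z) := by ring
      omega
    · exact ⟨x, hx⟩
  obtain ⟨z, hz⟩ := hε
  have hy' : (q : ℤ) ∣ (y * r) ^ 2 - 3 * Q.f u1 := by
    have e1 : (y * r) ^ 2 - 3 * Q.f u1 = (y ^ 2 - K) * r ^ 2 := by rw [hk]; ring
    rw [e1]
    exact hy.mul_right _
  refine rk3_step Q h0 h1 rfl rfl rfl rfl (by rw [hv] at hrel ⊢; exact hrel) hq (P := P) (c := ε * c)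
    (m := 2 * e * m + e + m) (G := G) (t := t) ?_ hGP ?_ (hqn P hP0 (by omega))
    (hqn _ hf1 (by omega)) (hqn 2 two_ne_zero (by
      have : (2 : ℤ).natAbs = 2 := rfl
      omega)) (hqn _ ha0 (by omega)) hy'
  · obtain ⟨s, hs⟩ := hPE
    refine ⟨ε ^ 2 * s - 3 * z, ?_⟩
    rw [hv]
    have h4 : (4 : ℤ) ≠ 0 := by norm_num
    apply mul_left_cancel₀ h4
    have hm1 : 2 * (2 * e * m + e + m) + 1 = ε * (2 * m + 1) := by rw [he]; ring
    have e1 : 4 * ((2 * e * m + e + m) ^ 2 + (2 * e * m + e + m) + 1 - (ε * c) ^ 2 * F) =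
        (2 * (2 * e * m + e + m) + 1) ^ 2 + 3 - 4 * (ε * c) ^ 2 * F := by ring
    rw [e1, hm1]
    linear_combination 4 * ε ^ 2 * hs - 3 * hz
  · have hm1 : 2 * (2 * e * m + e + m) + 1 = ε * (2 * m + 1) := by rw [he]; ring
    rw [hm1]
    have e2 : ε * c * Q.b v0 v - a0 * (ε * (2 * m + 1)) + 2 * a0 * P * t = ε * D1 + N0 * t := by
      rw [hD1, hN0]
      ring
    rw [e2, hD', hN']
    linear_combination (-(G : ℤ)) * ht

end Pool.Agent.N801.CF
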