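import Pool.Agent.Y95.Q.Defs

/-!
# Three Hodge classes: definitions
-/

set_option autoImplicit false

namespace Pool.Agent.N801.CF

open Pool.Agent.Y95.Q

/-- The determinant of the intersection form on the classes `h`, `v`, `w`. -/
def gramDet {X : CubicFourfold} (H : H4 X) (v w : Fin 23 → ℤ) : ℤ :=
  Matrix.det !![H.ip H.h H.h, H.ip H.h v, H.ip H.h w;
    H.ip v H.h, H.ip v v, H.ip v w;
    H.ip w H.h, H.ip w v, H.ip w w]

end Pool.Agent.N801.CF
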