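import Pool.Agent.N801.CF.Rk3Main

/-!
# A reciprocity obstruction in rank three
-/

set_option autoImplicit false

namespace Pool.Agent.N801.CF

open Pool.Agent.Y95.Q Pool.Agent.Y95.Q.H4 Pool.Agent.X328.CF Module
open scoped NumberTheorySymbols

/-- a divisor of `4 l Z ^ 2 - 1` -/
theorem symbol_one {l e : ℕ} {Z : ℤ} (he : Odd e) (h : (e : ℤ) ∣ 4 * l * Z ^ 2 - 1) :
    J((l : ℤ) | e) = 1 := by
  have h1 : J((l : ℤ) * ((2 * Z) * (2 * Z)) | e) = J((1 : ℤ) | e) := by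
    apply jacobiSym.mod_left'
    refine (Int.ModEq.symm ((Int.modEq_iff_dvd).2 ?_))
    have e1 : (l : ℤ) * ((2 * Z) * (2 * Z)) - 1 = 4 * l * Z ^ 2 - 1 := by ring
    rw [e1]
    exact h
  have hco : IsCoprime (2 * Z) (e : ℤ) := by
    obtain ⟨k, hk⟩ := h
    exact ⟨2 * l * Z, -k, by linear_combination hk⟩
  rw [jacobiSym.mul_left, jacobiSym.mul_left, jacobiSym.one_left] at h1
  have h2 : J(2 * Z | e) ^ 2 = 1 := jacobiSym.sq_one (Int.isCoprime_iff_gcd_eq_one.1 hco)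
  rw [← pow_two, ← jacobiSym.pow_left] at h1
  rw [jacobiSym.pow_left, h2, mul_one] at h1
  exact h1

/-- **The obstruction.** -/
theorem no_value {l : ℕ} (hl : l.Prime) (h12 : l % 12 = 1) (h4 : ∀ x : ZMod l, x ^ 4 ≠ -3)
    (Y Z n : ℤ) : (l : ℤ) ^ 2 * Y ^ 2 + 3 * l * Z ^ 2 ≠ n ^ 2 + n + 1 := by
  intro h
  have hfl : Fact l.Prime := ⟨hl⟩
  have hl1 : 1 < l := hl.one_lt
  have hl13 : 13 ≤ l := by omega
  set m : ℤ := 2 * n + 1 with hm
  have hprod : (m - 2 * l * Y) * (m + 2 * l * Y) = 3 * (4 * l * Z ^ 2 - 1) := by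
    rw [hm]
    linear_combination (-4 : ℤ) * h
  have hsq : (l : ℤ) ∣ m ^ 2 + 3 := ⟨4 * l * Y ^ 2 + 12 * Z ^ 2, by rw [hm]; linear_combination (-4 : ℤ) * h⟩
  set e1 : ℤ := m - 2 * l * Y with he1
  have he1odd : Odd e1 := ⟨n - l * Y, by rw [he1, hm]; ring⟩
  have hdvd : e1 ∣ 3 * (4 * l * Z ^ 2 - 1) := ⟨_, hprod.symm⟩
  -- the absolute value
  set e : ℕ := e1.natAbs with he
  have heodd : Odd e := Int.natAbs_odd.2 he1odd
  have hed : (e : ℤ) ∣ 3 * (4 * l * Z ^ 2 - 1) := Int.natAbs_dvd.2 hdvd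
  have hJ : J((l : ℤ) | e) = 1 := by
    by_cases h3 : 3 ∣ e
    · obtain ⟨f, hf⟩ := h3
      have hfodd : Odd f := by
        rw [hf] at heodd
        exact (Nat.odd_mul.1 heodd).2
      have hf0 : f ≠ 0 := by
        rintro rfl
        simp at hfodd
      have hfd : (f : ℤ) ∣ 4 * l * Z ^ 2 - 1 := by
        rw [hf] at hed
        push_cast at hed
        exact (mul_dvd_mul_iff_left (by norm_num : (3 : ℤ) ≠ 0)).1 hed
      have : NeZero f := ⟨hf0⟩
      rw [hf, jacobiSym.mul_right, symbol_one hfodd hfd, mul_one]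
      have h1 : J((l : ℤ) | 3) = J((1 : ℤ) | 3) := by
        apply jacobiSym.mod_left'
        push_cast
        omega
      rw [h1, jacobiSym.one_left]
    · have hc : IsCoprime (e : ℤ) 3 := by
        have := (Nat.Prime.coprime_iff_not_dvd Nat.prime_three).2 h3
        exact (Nat.isCoprime_iff_coprime.2 this).symm
      exact symbol_one heodd (hc.dvd_of_dvd_mul_left hed)
  rw [jacobiSym.quadratic_reciprocity_one_mod_four (by omega) heodd,
    ← jacobiSym.legendreSym.to_jacobiSym] at hJ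
  have hez : ((e : ℤ) : ZMod l) ≠ 0 := by
    intro h0
    rw [(legendreSym.eq_zero_iff l (e : ℤ)).2 h0] at hJ
    norm_num at hJ
  obtain ⟨x, hx⟩ := (legendreSym.eq_one_iff l hez).1 hJ
  apply h4 x
  have h5 : ((e : ℤ) : ZMod l) ^ 2 = ((e1 : ℤ) : ZMod l) ^ 2 := by
    have : ((e : ℤ)) ^ 2 = e1 ^ 2 := by
      rw [he]
      exact Int.natAbs_sq e1
    exact_mod_cast congrArg (fun z : ℤ => (z : ZMod l)) this
  have h6 : ((e1 : ℤ) : ZMod l) ^ 2 = -3 := by
    have h7 : (l : ℤ) ∣ e1 ^ 2 + 3 := by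
      have e2 : e1 ^ 2 + 3 = (m ^ 2 + 3) + l * (4 * l * Y ^ 2 - 4 * m * Y) := by
        rw [he1]
        ring
      rw [e2]
      exact dvd_add hsq (dvd_mul_right _ _)
    have h8 := (ZMod.intCast_zmod_eq_zero_iff_dvd _ l).2 h7
    push_cast at h8
    linear_combination h8
  calc x ^ 4 = (x * x) ^ 2 := by ring
    _ = -3 := by rw [← hx, h5, h6]

variable {X : CubicFourfold} {H : H4 X}

/-- the example -/
theorem example_three (hH : H.IsCohomology) {l : ℕ} (hl : l.Prime) (h12 : l % 12 = 1)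
    (h4 : ∀ x : ZMod l, x ^ 4 ≠ -3) {v w : Fin 23 → ℤ}
    (hb : ∀ u, H.IsHodge u ↔ ∃ x y z : ℤ, u = x • H.h + y • v + z • w)
    (hvh : H.ip v H.h = 1) (hvv : 3 * H.ip v v = 2 * l ^ 2 + 1) (hwh : H.ip w H.h = 0)
    (hvw : H.ip v w = 0) (hww : H.ip w w = 2 * l) :
    H.disc v = 2 * l ^ 2 ∧ H.HasK3 ∧ ¬ HilbertSquare H := by
  have hhv : H.ip H.h v = 1 := by rw [hH.comm]; exact hvh
  have hhw : H.ip H.h w = 0 := by rw [hH.comm]; exact hwh
  have hwv : H.ip w v = 0 := by rw [hH.comm]; exact hvw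
  have hw : H.IsHodge w := (hb w).2 ⟨0, 0, 1, by simp⟩
  have hdw : H.disc w = 6 * l := by
    rw [disc, hhw, hww]
    ring
  refine ⟨?_, ?_, ?_⟩
  · rw [disc, hvv, hhv]
    ring
  · refine hasK3_of_good hH hw (by rw [hdw]; have := hl.pos; positivity) ?_
    intro p hp h3
    have e1 : H.disc w / 2 = 3 * l := by
      rw [hdw]
      omega
    rw [e1]
    refine ⟨fun _ => Or.inr (by omega), fun hp3 hd => ?_⟩
    have h5 : p ∣ 3 * l := by exact_mod_cast hd
    rcases (Nat.Prime.dvd_mul hp).1 h5 with h | h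
    · exact hp3 ((Nat.prime_dvd_prime_iff_eq hp Nat.prime_three).1 h)
    · have := (Nat.prime_dvd_prime_iff_eq hp hl).1 h
      omega
  · rintro ⟨d, ⟨a, n, han⟩, u, hu, -, hdu⟩
    obtain ⟨x, y, z, rfl⟩ := (hb u).1 hu
    have hd : d = 2 * (l ^ 2 * y ^ 2 + 3 * l * z ^ 2) := by
      rw [← hdu]
      simp only [disc, ip_add_left, ip_add_right, ip_smul_left, ip_smul_right, hH.h_self, hvh, hhv,
        hwh, hhw, hvw, hwv, hww]
      linear_combination y ^ 2 * hvv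
    rw [hd] at han
    apply no_value hl h12 h4 (a * y) (a * z) n
    have h2 : (2 : ℤ) ≠ 0 := two_ne_zero
    apply mul_left_cancel₀ h2
    linear_combination han

end Pool.Agent.N801.CF
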