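import Pool.Agent.N801.CF.Rk3
import Pool.Agent.N801.CF.Rk3Defs
import Pool.Agent.N801.CF.GsSmall

/-!
# The condition of Galkin and Shinder in rank three
-/

set_option autoImplicit false

namespace Pool.Agent.N801.CF

open Pool.Agent.Y95.Q Pool.Agent.Y95.Q.H4 Pool.Agent.X328.CF Module

variable {X : CubicFourfold} {H : H4 X}

theorem gramDet_eq (hH : H.IsCohomology) (v w : Fin 23 → ℤ) :
    3 * gramDet H v w = 4 * (H.disc v / 2) * (H.disc w / 2) -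
      (3 * H.ip v w - H.ip H.h v * H.ip H.h w) ^ 2 := by
  have h1 := disc_half hH v
  have h2 := disc_half hH w
  have h3 : 4 * (H.disc v / 2) * (H.disc w / 2) = H.disc v * H.disc w := by
    conv_rhs => rw [h1, h2]
    ring
  rw [h3, gramDet, Matrix.det_fin_three]
  simp only [Matrix.of_apply, Matrix.cons_val', Matrix.cons_val_zero, Matrix.cons_val_one,
    Matrix.cons_val, disc, hH.h_self, hH.comm v H.h, hH.comm w H.h, hH.comm w v]
  ring

/-- the linear relation in rank three -/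
theorem rel_three (hH : H.IsCohomology) (hr : finrank ℤ H.hodge = 3) {v0 v1 v : H.hodge}
    (hg : gramDet H v0 v1 ≠ 0) :
    ∃ t y z : ℤ, t ≠ 0 ∧ ∃ x : ℤ, t • v + x • (⟨H.h, hH.h_hodge⟩ : H.hodge) + y • v0 + z • v1 = 0 := by
  have hnl : ¬ LinearIndependent ℤ (![v, ⟨H.h, hH.h_hodge⟩, v0, v1] : Fin 4 → H.hodge) := by
    intro h
    have := h.fintype_card_le_finrank
    rw [Fintype.card_fin] at this
    omega
  rw [Fintype.not_linearIndependent_iff] at hnl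
  obtain ⟨g, hgs, hne⟩ := hnl
  rw [Fin.sum_univ_four] at hgs
  simp only [Matrix.cons_val_zero, Matrix.cons_val_one, Matrix.cons_val] at hgs
  refine ⟨g 0, g 2, g 3, ?_, g 1, hgs⟩
  intro h0
  rw [h0, zero_smul, zero_add] at hgs
  have hbh : ∀ w : H.hodge, (hq hH).b w ⟨H.h, hH.h_hodge⟩ = 0 := by
    intro w
    show 3 * H.ip (w : Fin 23 → ℤ) H.h - H.ip H.h w * H.ip H.h H.h = 0
    rw [hH.h_self, hH.comm (w : Fin 23 → ℤ) H.h]
    ring
  have e0 : (hq hH).b v0 (g 1 • (⟨H.h, hH.h_hodge⟩ : H.hodge) + g 2 • v0 + g 3 • v1) = 0 := by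
    rw [hgs, (hq hH).b_comm, (hq hH).b_zero]
  have e1 : (hq hH).b v1 (g 1 • (⟨H.h, hH.h_hodge⟩ : H.hodge) + g 2 • v0 + g 3 • v1) = 0 := by
    rw [hgs, (hq hH).b_comm, (hq hH).b_zero]
  simp only [QF.b_add', QF.b_smul', hbh, QF.b_self] at e0 e1
  rw [(hq hH).b_comm v1 v0] at e1
  have hgr := gramDet_eq hH (v0 : Fin 23 → ℤ) v1
  have hgr' : 3 * gramDet H v0 v1 = 4 * (hq hH).f v0 * (hq hH).f v1 - (hq hH).b v0 v1 ^ 2 := hgr
  have hne3 : 4 * (hq hH).f v0 * (hq hH).f v1 - (hq hH).b v0 v1 ^ 2 ≠ 0 := by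
    rw [← hgr']
    exact mul_ne_zero (by norm_num) hg
  have h2 : g 2 = 0 := by
    apply (mul_eq_zero.1 (?_ : g 2 * (4 * (hq hH).f v0 * (hq hH).f v1 -
      (hq hH).b v0 v1 ^ 2) = 0)).resolve_right hne3
    linear_combination 2 * (hq hH).f v1 * e0 - (hq hH).b v0 v1 * e1
  have h3 : g 3 = 0 := by
    apply (mul_eq_zero.1 (?_ : g 3 * (4 * (hq hH).f v0 * (hq hH).f v1 -
      (hq hH).b v0 v1 ^ 2) = 0)).resolve_right hne3
    linear_combination 2 * (hq hH).f v0 * e1 - (hq hH).b v0 v1 * e0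
  rw [h2, h3, zero_smul, zero_smul, add_zero, add_zero] at hgs
  have hh0 : H.h ≠ 0 := by
    intro h
    have := hH.h_self
    rw [h, ip_zero_left] at this
    norm_num at this
  have h1 : g 1 = 0 := by
    have h5 : g 1 • H.h = 0 := congrArg Subtype.val hgs
    exact (smul_eq_zero.1 h5).resolve_right hh0
  obtain ⟨i, hi⟩ := hne
  fin_cases i
  · exact hi h0
  · exact hi h1
  · exact hi h2
  · exact hi h3

/-- **The condition of Galkin and Shinder in rank three.** -/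
theorem hilbertSquare_of_three (hH : H.IsCohomology) (hr : H.rank = 3) {v0 v1 : Fin 23 → ℤ}
    {a : ℤ} (hv0 : H.IsHodge v0) (hv1 : H.IsHodge v1) (ha : a ≠ 0) (hd : H.disc v0 = 2 * a ^ 2)
    (hg : gramDet H v0 v1 ≠ 0)
    (hc : IsSquare (gramDet H v0 v1) ∨ ∃ l : ℕ, l.Prime ∧ Odd (padicValInt l (gramDet H v0 v1)) ∧
      (l % 4 = 3 ∨ ¬ (l : ℤ) ∣ 2 * a)) (hK : H.HasK3) : HilbertSquare H := by
  rw [H.rank_eq] at hr
  obtain ⟨v, hv, -, hadm⟩ := hK
  have hhalf := disc_half hH v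
  have hpos : 0 < H.disc v / 2 := by
    have := hadm.1
    omega
  obtain ⟨s, t, hst, hco⟩ := prim_good hpos fun p hp h3 =>
    good_of_adm hH hp h3 (admAt_of_adm (disc_even hH v) hadm hp)
  set Q := hq hH with hQ
  set V0 : H.hodge := ⟨v0, hv0⟩ with hV0
  set V1 : H.hodge := ⟨v1, hv1⟩ with hV1
  set V : H.hodge := ⟨v, hv⟩ with hV
  set Hh : H.hodge := ⟨H.h, hH.h_hodge⟩ with hHh
  have hf0 : Q.f V0 = a ^ 2 := by
    show H.disc v0 / 2 = a ^ 2
    omega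
  have hgr : 3 * gramDet H v0 v1 = 4 * Q.f V0 * Q.f V1 - Q.b V0 V1 ^ 2 := gramDet_eq hH v0 v1
  obtain ⟨T, y, z, hT, x, hrel⟩ := rel_three hH hr (v0 := V0) (v1 := V1) (v := V) hg
  set g := gramDet H v0 v1 with hgdef
  -- the orthogonal class
  set U : H.hodge := (2 * a ^ 2) • V1 + (-(Q.b V0 V1)) • V0 with hU
  have hbU : Q.b V0 U = 0 := by
    rw [hU, Q.b_add', Q.b_smul', Q.b_smul', Q.b_self, hf0]
    ring
  have hfU : Q.f U = a ^ 2 * (3 * g) := by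
    rw [hU, Q.f_add, Q.f_smul, Q.f_smul, Q.b_smul, Q.b_smul', Q.b_comm V1 V0, hf0, hgr, hf0]
    ring
  have hgpos : 0 < g := by
    have h1 : 0 ≤ Q.f U := by
      show 0 ≤ H.disc (U : Fin 23 → ℤ) / 2
      have := disc_nonneg hH U.2
      omega
    rw [hfU] at h1
    have h2 : 0 < a ^ 2 := by positivity
    have h3 : 0 ≤ 3 * g := nonneg_of_mul_nonneg_right h1 h2
    omega
  obtain ⟨K, hKg⟩ : ∃ K : ℕ, g = K := ⟨g.toNat, by omega⟩
  have hK0 : K ≠ 0 := by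
    rintro rfl
    omega
  have hbh : ∀ w : H.hodge, Q.b w Hh = 0 := by
    intro w
    show 3 * H.ip (w : Fin 23 → ℤ) H.h - H.ip H.h w * H.ip H.h H.h = 0
    rw [hH.h_self, hH.comm (w : Fin 23 → ℤ) H.h]
    ring
  have hTV : T • V = (-y) • V0 + (-z) • V1 + (-x) • Hh := by
    rw [neg_smul, neg_smul, neg_smul]
    have h1 : T • V + (x • Hh + y • V0 + z • V1) = 0 := by
      rw [← hrel]
      abel
    rw [eq_neg_of_add_eq_zero_left h1]
    abel
  have hfh : Q.f Hh = 0 := by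
    have := hbh Hh
    rw [Q.b_self] at this
    omega
  have hF : T ^ 2 * Q.f V = y ^ 2 * a ^ 2 + z ^ 2 * Q.f V1 + y * z * Q.b V0 V1 := by
    rw [← Q.f_smul, hTV, Q.f_add, Q.f_add, Q.b_smul' (-x), hbh, Q.f_smul, Q.f_smul, Q.f_smul, hfh,
      Q.b_smul, Q.b_smul', hf0]
    ring
  have hβ : T * Q.b V0 V = -(2 * a ^ 2 * y + z * Q.b V0 V1) := by
    rw [← Q.b_smul', hTV, Q.b_add', Q.b_add', Q.b_smul', Q.b_smul', Q.b_smul', hbh, Q.b_self, hf0]
    ring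
  have hδ : T * Q.b V1 V = -(y * Q.b V0 V1 + 2 * Q.f V1 * z) := by
    rw [← Q.b_smul', hTV, Q.b_add', Q.b_add', Q.b_smul', Q.b_smul', Q.b_smul', hbh, Q.b_self,
      Q.b_comm V1 V0]
    ring
  have hγ : Q.b V U = 2 * a ^ 2 * Q.b V1 V - Q.b V0 V1 * Q.b V0 V := by
    rw [hU, Q.b_add', Q.b_smul', Q.b_smul', Q.b_comm V V1, Q.b_comm V V0]
    ring
  have hkey : 4 * a ^ 2 * Q.f U * Q.f V = Q.f U * Q.b V0 V ^ 2 + a ^ 2 * Q.b V U ^ 2 := by
    rw [hf0] at hgr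
    have hT2 : T ^ 2 ≠ 0 := pow_ne_zero 2 hT
    apply mul_left_cancel₀ hT2
    rw [hγ, hfU, hgr]
    generalize Q.b V0 V1 = b at *
    generalize Q.f V1 = f1 at *
    generalize Q.b V0 V = β at *
    generalize Q.b V1 V = δ at *
    generalize Q.f V = F at *
    have e1 : T ^ 2 * (a ^ 2 * (4 * a ^ 2 * f1 - b ^ 2) * β ^ 2 + a ^ 2 * (2 * a ^ 2 * δ - b * β) ^ 2)
        = a ^ 2 * (4 * a ^ 2 * f1 - b ^ 2) * (T * β) ^ 2
          + a ^ 2 * (2 * a ^ 2 * (T * δ) - b * (T * β)) ^ 2 := by ring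
    rw [e1, hβ, hδ]
    linear_combination (4 * a ^ 2 * (a ^ 2 * (4 * a ^ 2 * f1 - b ^ 2))) * hF
  obtain ⟨w, n, hw⟩ := rk3_core Q (v0 := V0) (a0 := a) hf0 ha (u1 := U) hbU (K := K) (r := 3 * a)
    hK0 (mul_ne_zero (by norm_num) ha) (by rw [hfU, hKg]; ring) (by
      rcases hc with h | ⟨l, hl, hodd, h⟩
      · left
        rw [hKg] at h
        exact Int.isSquare_natCast_iff.1 h
      · refine Or.inr ⟨l, hl, ?_, h⟩
        rw [hKg] at hodd
        rwa [padicValInt.of_nat] at hodd) (v := V) (a := s) (b := t) hst.symm hco hkey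
  exact hilbertSquare_of_value hH w.2 hw

end Pool.Agent.N801.CF
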